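import Mathlib

/-!
# The affine group of the plane over the integers, and its free subgroups
-/

set_option autoImplicit false

namespace Pool.Agent.Run7.h447

/-- An affine map `(x, y) ↦ (a x + b y + s, c x + d y + t)` with `a d - b c = 1`. -/
@[ext] structure Af where
  a : ℤ
  b : ℤ
  c : ℤ
  d : ℤ
  s : ℤ
  t : ℤ
  det : a * d - b * c = 1

namespace Af

instance : Mul Af := ⟨fun g h => ⟨g.a * h.a + g.b * h.c, g.a * h.b + g.b * h.d,
  g.c * h.a + g.d * h.c, g.c * h.b + g.d * h.d, g.a * h.s + g.b * h.t + g.s,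
  g.c * h.s + g.d * h.t + g.t, by
    have h1 := g.det
    have h2 := h.det
    linear_combination (h.a * h.d - h.b * h.c) * h1 + h2⟩⟩

instance : One Af := ⟨⟨1, 0, 0, 1, 0, 0, by norm_num⟩⟩

instance : Inv Af := ⟨fun g => ⟨g.d, -g.b, -g.c, g.a, -(g.d * g.s - g.b * g.t),
  -(-g.c * g.s + g.a * g.t), by have := g.det; linear_combination this⟩⟩

@[simp] theorem mul_a (g h : Af) : (g * h).a = g.a * h.a + g.b * h.c := rfl
@[simp] theorem mul_b (g h : Af) : (g * h).b = g.a * h.b + g.b * h.d := rfl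
@[simp] theorem mul_c (g h : Af) : (g * h).c = g.c * h.a + g.d * h.c := rfl
@[simp] theorem mul_d (g h : Af) : (g * h).d = g.c * h.b + g.d * h.d := rfl
@[simp] theorem mul_s (g h : Af) : (g * h).s = g.a * h.s + g.b * h.t + g.s := rfl
@[simp] theorem mul_t (g h : Af) : (g * h).t = g.c * h.s + g.d * h.t + g.t := rfl
@[simp] theorem one_a : (1 : Af).a = 1 := rfl
@[simp] theorem one_b : (1 : Af).b = 0 := rfl
@[simp] theorem one_c : (1 : Af).c = 0 := rfl
@[simp] theorem one_d : (1 : Af).d = 1 := rfl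
@[simp] theorem one_s : (1 : Af).s = 0 := rfl
@[simp] theorem one_t : (1 : Af).t = 0 := rfl
@[simp] theorem inv_a (g : Af) : (g⁻¹).a = g.d := rfl
@[simp] theorem inv_b (g : Af) : (g⁻¹).b = -g.b := rfl
@[simp] theorem inv_c (g : Af) : (g⁻¹).c = -g.c := rfl
@[simp] theorem inv_d (g : Af) : (g⁻¹).d = g.a := rfl
@[simp] theorem inv_s (g : Af) : (g⁻¹).s = -(g.d * g.s - g.b * g.t) := rfl
@[simp] theorem inv_t (g : Af) : (g⁻¹).t = -(-g.c * g.s + g.a * g.t) := rfl

instance : Group Af := Group.ofLeftAxioms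
  (by intro g h k; ext <;> simp <;> ring)
  (by intro g; ext <;> simp)
  (by
    intro g
    have := g.det
    ext
    · simp; linear_combination this
    · simp; ring
    · simp; ring
    · simp; linear_combination this
    · simp; ring
    · simp)

/-- the linear part, as an endomorphism -/
def lin : Af →* Af where
  toFun g := ⟨g.a, g.b, g.c, g.d, 0, 0, g.det⟩
  map_one' := rfl
  map_mul' g h := by ext <;> simp

@[simp] theorem lin_a (g : Af) : (lin g).a = g.a := rfl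
@[simp] theorem lin_b (g : Af) : (lin g).b = g.b := rfl
@[simp] theorem lin_c (g : Af) : (lin g).c = g.c := rfl
@[simp] theorem lin_d (g : Af) : (lin g).d = g.d := rfl
@[simp] theorem lin_s (g : Af) : (lin g).s = 0 := rfl
@[simp] theorem lin_t (g : Af) : (lin g).t = 0 := rfl

theorem lin_lin (g : Af) : lin (lin g) = lin g := rfl

/-- the translations -/
def tr (s t : ℤ) : Af := ⟨1, 0, 0, 1, s, t, by norm_num⟩

@[simp] theorem tr_a (s t : ℤ) : (tr s t).a = 1 := rfl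
@[simp] theorem tr_b (s t : ℤ) : (tr s t).b = 0 := rfl
@[simp] theorem tr_c (s t : ℤ) : (tr s t).c = 0 := rfl
@[simp] theorem tr_d (s t : ℤ) : (tr s t).d = 1 := rfl
@[simp] theorem tr_s (s t : ℤ) : (tr s t).s = s := rfl
@[simp] theorem tr_t (s t : ℤ) : (tr s t).t = t := rfl

theorem tr_mul (s t s' t' : ℤ) : tr s t * tr s' t' = tr (s + s') (t + t') := by
  ext <;> simp <;> ring

theorem tr_inv (s t : ℤ) : (tr s t)⁻¹ = tr (-s) (-t) := by
  ext <;> simp

theorem lin_tr (s t : ℤ) : lin (tr s t) = 1 := rfl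

theorem eq_tr_lin (g : Af) : g = tr g.s g.t * lin g := by
  ext <;> simp

theorem lin_eq_one_iff (g : Af) : lin g = 1 ↔ g = tr g.s g.t := by
  constructor
  · intro h
    have h2 := eq_tr_lin g
    rw [h, mul_one] at h2
    exact h2
  · intro h
    rw [h]
    rfl

/-- the free generators -/
def G (i : ℕ) : Af := ⟨2 * i + 1, 2 * i ^ 2 + 2 * i, 2, 2 * i + 1, 0, 0, by ring⟩

@[simp] theorem G_a (i : ℕ) : (G i).a = 2 * i + 1 := rfl
@[simp] theorem G_b (i : ℕ) : (G i).b = 2 * i ^ 2 + 2 * i := rfl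
@[simp] theorem G_c (i : ℕ) : (G i).c = 2 := rfl
@[simp] theorem G_d (i : ℕ) : (G i).d = 2 * i + 1 := rfl
@[simp] theorem G_s (i : ℕ) : (G i).s = 0 := rfl
@[simp] theorem G_t (i : ℕ) : (G i).t = 0 := rfl

theorem lin_G (i : ℕ) : lin (G i) = G i := rfl

/-! ### ping-pong -/

/-- nonzero vectors -/
def Vec := {v : ℤ × ℤ // v ≠ 0}

theorem vec_ne (g : Af) (v : Vec) :
    ((g.a * v.1.1 + g.b * v.1.2, g.c * v.1.1 + g.d * v.1.2) : ℤ × ℤ) ≠ 0 := by
  intro h
  have h1 : g.a * v.1.1 + g.b * v.1.2 = 0 := congrArg Prod.fst h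
  have h2 : g.c * v.1.1 + g.d * v.1.2 = 0 := congrArg Prod.snd h
  have hd := g.det
  have hx : v.1.1 = 0 := by
    linear_combination g.d * h1 - g.b * h2 - v.1.1 * hd
  have hy : v.1.2 = 0 := by
    linear_combination g.a * h2 - g.c * h1 - v.1.2 * hd
  exact v.2 (Prod.ext hx hy)

instance : MulAction Af Vec where
  smul g v := ⟨(g.a * v.1.1 + g.b * v.1.2, g.c * v.1.1 + g.d * v.1.2), vec_ne g v⟩
  one_smul v := by
    apply Subtype.ext
    apply Prod.ext
    · change (1 : ℤ) * v.1.1 + 0 * v.1.2 = v.1.1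
      ring
    · change (0 : ℤ) * v.1.1 + 1 * v.1.2 = v.1.2
      ring
  mul_smul g h v := by
    apply Subtype.ext
    apply Prod.ext
    · change (g.a * h.a + g.b * h.c) * v.1.1 + (g.a * h.b + g.b * h.d) * v.1.2 =
        g.a * (h.a * v.1.1 + h.b * v.1.2) + g.b * (h.c * v.1.1 + h.d * v.1.2)
      ring
    · change (g.c * h.a + g.d * h.c) * v.1.1 + (g.c * h.b + g.d * h.d) * v.1.2 =
        g.c * (h.a * v.1.1 + h.b * v.1.2) + g.d * (h.c * v.1.1 + h.d * v.1.2)
      ring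

theorem smul_fst (g : Af) (v : Vec) : (g • v).1.1 = g.a * v.1.1 + g.b * v.1.2 := rfl
theorem smul_snd (g : Af) (v : Vec) : (g • v).1.2 = g.c * v.1.1 + g.d * v.1.2 := rfl

/-- slope in `[i, i+1)` -/
def X (i : ℕ) : Set Vec := {v | 0 ≤ (v.1.1 - i * v.1.2) * v.1.2 ∧
  (v.1.1 - (i + 1) * v.1.2) * v.1.2 < 0}

/-- slope in `[-i-1, -i)` -/
def Y (i : ℕ) : Set Vec := {v | 0 ≤ (v.1.1 + (i + 1) * v.1.2) * v.1.2 ∧
  (v.1.1 + i * v.1.2) * v.1.2 < 0}

theorem X_disj {i j : ℕ} (hij : i < j) : Disjoint (X i) (X j) := by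
  rw [Set.disjoint_left]
  rintro v ⟨-, h1⟩ ⟨h2, -⟩
  have hij' : (i : ℤ) + 1 ≤ j := by exact_mod_cast hij
  nlinarith [mul_nonneg (sub_nonneg.mpr hij') (mul_self_nonneg v.1.2)]

theorem Y_disj {i j : ℕ} (hij : i < j) : Disjoint (Y i) (Y j) := by
  rw [Set.disjoint_left]
  rintro v ⟨h1, -⟩ ⟨-, h2⟩
  have hij' : (i : ℤ) + 1 ≤ j := by exact_mod_cast hij
  nlinarith [mul_nonneg (sub_nonneg.mpr hij') (mul_self_nonneg v.1.2)]

theorem XY_disj (i j : ℕ) : Disjoint (X i) (Y j) := by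
  rw [Set.disjoint_left]
  rintro v ⟨h1, -⟩ ⟨-, h2⟩
  have hi : (0 : ℤ) ≤ (i : ℤ) + j := by positivity
  nlinarith [mul_nonneg hi (mul_self_nonneg v.1.2)]

/-- the algebra of the first inclusion -/
theorem alg1 (u y : ℤ) (h0 : ¬ (u = 0 ∧ y = 0)) (h : ¬ (0 ≤ (u + y) * y ∧ u * y < 0)) :
    0 ≤ u * (2 * u + y) ∧ 0 < (u + y) * (2 * u + y) := by
  rw [not_and_or, not_le, not_lt] at h
  rcases h with h | h
  · have hu : u ≠ 0 := by
      rintro rfl
      nlinarith [mul_self_nonneg y]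
    have hu2 : 0 < u * u := lt_of_le_of_ne (mul_self_nonneg u) (Ne.symm (mul_self_ne_zero.mpr hu))
    have h1 : u * y + y * y < 0 := by nlinarith
    have h2 : 0 < (u + y) * u := by nlinarith [mul_self_nonneg (u + y)]
    constructor
    · nlinarith
    · nlinarith [mul_self_nonneg (u + y), h1, h2]
  · constructor
    · nlinarith [mul_self_nonneg u]
    · by_contra hc
      push Not at hc
      have h1 : 2 * (u * u) + 3 * (u * y) + y * y ≤ 0 := by nlinarith
      have hu : u * u = 0 := by nlinarith [mul_self_nonneg u, mul_self_nonneg y]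
      have hy : y * y = 0 := by nlinarith [mul_self_nonneg u, mul_self_nonneg y]
      exact h0 ⟨mul_self_eq_zero.mp hu, mul_self_eq_zero.mp hy⟩

open scoped Pointwise in
theorem pingX (i : ℕ) : G i • (Y i)ᶜ ⊆ X i := by
  rintro _ ⟨v, hv, rfl⟩
  have hv0 : ¬ (v.1.1 + i * v.1.2 = 0 ∧ v.1.2 = 0) := by
    rintro ⟨h1, h2⟩
    rw [h2, mul_zero, add_zero] at h1
    exact v.2 (Prod.ext h1 h2)
  have hv1 : ¬ (0 ≤ ((v.1.1 + i * v.1.2) + v.1.2) * v.1.2 ∧ (v.1.1 + i * v.1.2) * v.1.2 < 0) := by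
    intro h
    refine hv ⟨?_, h.2⟩
    have := h.1
    have e : v.1.1 + (i + 1) * v.1.2 = (v.1.1 + i * v.1.2) + v.1.2 := by ring
    rw [e]
    exact this
  obtain ⟨h1, h2⟩ := alg1 _ _ hv0 hv1
  change 0 ≤ ((G i • v).1.1 - i * (G i • v).1.2) * (G i • v).1.2 ∧
    ((G i • v).1.1 - (i + 1) * (G i • v).1.2) * (G i • v).1.2 < 0
  rw [smul_fst, smul_snd, G_a, G_b, G_c, G_d]
  constructor
  · refine le_of_le_of_eq h1 ?_
    ring
  · have : ((2 * (i : ℤ) + 1) * v.1.1 + (2 * i ^ 2 + 2 * i) * v.1.2 -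
        (i + 1) * (2 * v.1.1 + (2 * i + 1) * v.1.2)) * (2 * v.1.1 + (2 * i + 1) * v.1.2) =
        -((v.1.1 + i * v.1.2 + v.1.2) * (2 * (v.1.1 + i * v.1.2) + v.1.2)) := by ring
    rw [this]
    linarith

/-- the algebra of the second inclusion -/
theorem alg2 (u y : ℤ) (h0 : ¬ (u = 0 ∧ y = 0)) (h : ¬ (0 ≤ u * y ∧ (u - y) * y < 0)) :
    0 ≤ (y - u) * (y - 2 * u) ∧ u * (y - 2 * u) < 0 := by
  rw [not_and_or, not_le, not_lt] at h
  rcases h with h | h
  · have hu : u ≠ 0 := by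
      rintro rfl
      simp at h
    have hu2 : 0 < u * u := lt_of_le_of_ne (mul_self_nonneg u) (Ne.symm (mul_self_ne_zero.mpr hu))
    constructor
    · nlinarith [mul_self_nonneg y]
    · nlinarith
  · by_cases hy : y = 0
    · subst hy
      have hu : u ≠ 0 := fun hu => h0 ⟨hu, rfl⟩
      have hu2 : 0 < u * u := lt_of_le_of_ne (mul_self_nonneg u) (Ne.symm (mul_self_ne_zero.mpr hu))
      constructor <;> nlinarith
    · have hy2 : 0 < y * y := lt_of_le_of_ne (mul_self_nonneg y) (Ne.symm (mul_self_ne_zero.mpr hy))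
      have h1 : y * y ≤ u * y := by nlinarith
      have h2 : u * y ≤ u * u := by nlinarith [mul_self_nonneg (u - y)]
      constructor
      · have h3 : 0 ≤ ((y - u) * (y - 2 * u)) * (y * y) := by
          have : ((y - u) * (y - 2 * u)) * (y * y) = ((u - y) * y) * ((2 * u - y) * y) := by ring
          rw [this]
          apply mul_nonneg h
          nlinarith
        exact nonneg_of_mul_nonneg_left h3 hy2
      · nlinarith

open scoped Pointwise in
theorem pingY (i : ℕ) : (G i)⁻¹ • (X i)ᶜ ⊆ Y i := by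
  rintro _ ⟨v, hv, rfl⟩
  have hv0 : ¬ (v.1.1 - i * v.1.2 = 0 ∧ v.1.2 = 0) := by
    rintro ⟨h1, h2⟩
    rw [h2, mul_zero, sub_zero] at h1
    exact v.2 (Prod.ext h1 h2)
  have hv1 : ¬ (0 ≤ (v.1.1 - i * v.1.2) * v.1.2 ∧
      ((v.1.1 - i * v.1.2) - v.1.2) * v.1.2 < 0) := by
    intro h
    refine hv ⟨h.1, ?_⟩
    have := h.2
    have e : v.1.1 - (i + 1) * v.1.2 = (v.1.1 - i * v.1.2) - v.1.2 := by ring
    rw [e]
    exact this
  obtain ⟨h1, h2⟩ := alg2 _ _ hv0 hv1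
  change 0 ≤ (((G i)⁻¹ • v).1.1 + (i + 1) * ((G i)⁻¹ • v).1.2) * ((G i)⁻¹ • v).1.2 ∧
    (((G i)⁻¹ • v).1.1 + i * ((G i)⁻¹ • v).1.2) * ((G i)⁻¹ • v).1.2 < 0
  rw [smul_fst, smul_snd, inv_a, inv_b, inv_c, inv_d, G_a, G_b, G_c, G_d]
  constructor
  · refine le_of_le_of_eq h1 ?_
    ring
  · refine lt_of_eq_of_lt ?_ h2
    ring

/-- the generators are free -/
theorem free : Function.Injective (FreeGroup.lift G) := by
  refine FreeGroup.injective_lift_of_ping_pong G X Y ?_ ?_ ?_ XY_disj pingX ?_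
  · intro i
    refine ⟨⟨(i, 1), by simp⟩, ?_, ?_⟩
    · change 0 ≤ ((i : ℤ) - i * 1) * 1
      simp
    · change ((i : ℤ) - (i + 1) * 1) * 1 < 0
      simp
  · intro i j hij
    rcases lt_or_gt_of_ne hij with h | h
    · exact X_disj h
    · exact (X_disj h).symm
  · intro i j hij
    rcases lt_or_gt_of_ne hij with h | h
    · exact Y_disj h
    · exact (Y_disj h).symm
  · intro i
    exact pingY i

end Af

end Pool.Agent.Run7.h447
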