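import Mathlib

/-!
# Finite invertible automata, the groups they generate, and their tables
-/

set_option autoImplicit false

namespace Pool.Agent.Run7.h447

/-- A finite invertible automaton with the states `0, ..., m - 1` and the alphabet
`{0, ..., n - 1}`, `n ≥ 2`: the transition map `tr`, and the output map `out`, which for every
state is a permutation of the alphabet. -/
structure Automaton where
  /-- the number of states -/
  m : ℕ
  /-- the number of letters -/
  n : ℕ
  one_le : 1 ≤ m
  two_le : 2 ≤ n
  /-- the transition map -/
  tr : Fin m → Fin n → Fin m
  /-- the output map -/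
  out : Fin m → Fin n → Fin n
  bij : ∀ s, Function.Bijective (out s)

namespace Automaton

variable (A : Automaton)

/-- The action of the states on the words: `s(ε) = ε`, `s(x w) = λ(s, x) t(w)` with
`t = τ(s, x)`. -/
def act : Fin A.m → List (Fin A.n) → List (Fin A.n)
  | _, [] => []
  | s, x :: w => A.out s x :: act (A.tr s x) w

theorem act_injective (s : Fin A.m) : Function.Injective (A.act s) := by
  intro w
  induction w generalizing s with
  | nil =>
    intro v h
    cases v with
    | nil => rfl
    | cons y v => simp [act] at h
  | cons x w ih =>
    intro v h
    cases v with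
    | nil => simp [act] at h
    | cons y v =>
      simp only [act, List.cons.injEq] at h
      have hxy := (A.bij s).1 h.1
      subst hxy
      rw [ih _ h.2]

theorem act_surjective (s : Fin A.m) : Function.Surjective (A.act s) := by
  intro v
  induction v generalizing s with
  | nil => exact ⟨[], rfl⟩
  | cons y v ih =>
    obtain ⟨x, hx⟩ := (A.bij s).2 y
    obtain ⟨w, hw⟩ := ih (A.tr s x)
    exact ⟨x :: w, by simp [act, hx, hw]⟩

/-- The permutation of the words defined by a state. -/
noncomputable def perm (s : Fin A.m) : Equiv.Perm (List (Fin A.n)) :=
  Equiv.ofBijective (A.act s) ⟨A.act_injective s, A.act_surjective s⟩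

/-- The self-similar group `G(A)` generated by all states of the automaton. -/
noncomputable def Grp : Subgroup (Equiv.Perm (List (Fin A.n))) :=
  Subgroup.closure (Set.range A.perm)

/-- The table of the automaton: the number of letters and, for each state `s`, the list of the
pairs `(τ(s, x), λ(s, x))`, `x = 0, ..., n - 1`. -/
def code : ℕ × List (List (ℕ × ℕ)) :=
  (A.n, List.ofFn fun s => List.ofFn fun x => ((A.tr s x : ℕ), (A.out s x : ℕ)))

end Automaton

end Pool.Agent.Run7.h447
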