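import Pool.Agent.Run7.h447.FibCore
import Pool.Agent.TH111.J524
import Pool.Agent.Helper270.WPB

/-!
# Fibre products and the word problem
-/

set_option autoImplicit false

namespace Pool.Agent.Run7.h447

open Af
open Pool.Agent.TH716.C3 (ev rl gN rsn sw iw)

/-- the product of the generators of a positive word -/
def wd (r : List ℕ) : Af := (r.map G).prod

/-- the group of linear parts -/
def Gm (K : ℕ) (rs : List (List ℕ)) : Subgroup AA :=
  Subgroup.closure ({g | ∃ i < K, g = (G i, G i)} ∪ {g | ∃ r ∈ rs, g = (wd r, 1)})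

theorem diag_mem {K : ℕ} {rs : List (List ℕ)} {i : ℕ} (hi : i < K) : (G i, G i) ∈ Gm K rs :=
  Subgroup.subset_closure (Or.inl ⟨i, hi, rfl⟩)

theorem wd_mem {K : ℕ} {rs : List (List ℕ)} {r : List ℕ} (hr : r ∈ rs) :
    (wd r, (1 : Af)) ∈ Gm K rs := Subgroup.subset_closure (Or.inr ⟨r, hr, rfl⟩)

/-- the positive form of a word -/
def pos (N : ℕ) (r : List (ℕ × Bool)) : List ℕ := r.map fun x => if x.2 then x.1 else N + x.1

/-- positive relators for a presentation with `N` generators -/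
def rels (N : ℕ) (L : List (List (ℕ × Bool))) : List (List ℕ) :=
  (List.range N).map (fun i => [i, N + i]) ++ L.map (pos N)

theorem mem_rels {N : ℕ} {L : List (List (ℕ × Bool))} {r : List ℕ} :
    r ∈ rels N L ↔ (∃ i < N, [i, N + i] = r) ∨ ∃ s ∈ L, pos N s = r := by
  simp [rels]

/-- the presentation of a group which is trivial if and only if `w` is trivial -/
def RL {m : ℕ} (R : List (List (Fin m × Bool))) (w : List (Fin m × Bool)) :
    List (List (ℕ × Bool)) :=
  (List.range (2 * m + 6)).map (rl (gN m)) ++ rsn R w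

theorem mem_RL {m : ℕ} {R : List (List (Fin m × Bool))} {w : List (Fin m × Bool)}
    {r : List (ℕ × Bool)} :
    r ∈ RL R w ↔ (∃ h < 2 * m + 6, rl (gN m) h = r) ∨ r ∈ rsn R w := by
  simp [RL]

theorem gN_lt (m : ℕ) : ∀ h < 2 * m + 6, gN m h < 2 * m + 6 := by
  intro h hh
  unfold gN
  split_ifs <;> omega

theorem sw_lt {m : ℕ} (l : List (Fin m × Bool)) : ∀ x ∈ sw l, x.1 < m + 1 := by
  intro x hx
  unfold sw at hx
  rw [List.mem_flatMap] at hx
  obtain ⟨y, -, hy⟩ := hx
  have := y.1.2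
  split_ifs at hy <;> simp at hy <;> rcases hy with rfl | rfl <;> simp

theorem rsn_lt {m : ℕ} (R : List (List (Fin m × Bool))) (w : List (Fin m × Bool)) :
    ∀ r ∈ rsn R w, ∀ x ∈ r, x.1 < 2 * m + 6 := by
  intro r hr
  unfold rsn at hr
  rw [List.mem_append, List.mem_map, List.mem_singleton] at hr
  rcases hr with ⟨r', _, rfl⟩ | rfl
  · intro x hx
    rw [List.mem_append] at hx
    rcases hx with hx | hx
    · have := sw_lt _ x hx
      omega
    · simp at hx
      rcases hx with rfl | rfl <;> simp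
  · intro x hx
    simp only [List.mem_append, List.mem_singleton] at hx
    rcases hx with (((rfl | hx) | rfl) | hx) | rfl
    · simp; omega
    · have := sw_lt _ x hx
      omega
    · simp
    · have := sw_lt _ x hx
      omega
    · simp

theorem RL_lt {m : ℕ} {R : List (List (Fin m × Bool))} {w : List (Fin m × Bool)} :
    ∀ r ∈ RL R w, ∀ x ∈ r, x.1 < 2 * m + 6 := by
  intro r hr x hx
  rw [mem_RL] at hr
  rcases hr with ⟨h, hh, rfl⟩ | hr
  · have := gN_lt m h hh
    simp only [rl, List.mem_cons, List.not_mem_nil, or_false] at hx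
    rcases hx with rfl | rfl | rfl | rfl | rfl <;> dsimp only <;> omega
  · exact rsn_lt R w r hr x hx

theorem wd_FK {K : ℕ} (r : List ℕ) (hr : ∀ i ∈ r, i < K) : wd r ∈ FK K := by
  unfold wd
  apply Subgroup.list_prod_mem
  intro x hx
  rw [List.mem_map] at hx
  obtain ⟨i, hi, rfl⟩ := hx
  exact G_mem (hr i hi)

theorem pos_lt {N : ℕ} {r : List (ℕ × Bool)} (hr : ∀ x ∈ r, x.1 < N) :
    ∀ i ∈ pos N r, i < 2 * N := by
  intro i hi
  unfold pos at hi
  rw [List.mem_map] at hi
  obtain ⟨x, hx, rfl⟩ := hi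
  have := hr x hx
  split_ifs
  · omega
  · have h2 : N + x.1 < 2 * N := by omega
    exact h2

theorem FK_diag {K : ℕ} {rs : List (List ℕ)} {x : Af} (hx : x ∈ FK K) : (x, x) ∈ Gm K rs := by
  unfold FK at hx
  refine Subgroup.closure_induction (p := fun x _ => (x, x) ∈ Gm K rs) ?_ ?_ ?_ ?_ hx
  · rintro _ ⟨i, hi, rfl⟩
    exact diag_mem hi
  · exact one_mem _
  · intro x y _ _ hx hy
    exact (Gm K rs).mul_mem hx hy
  · intro x _ hx
    exact (Gm K rs).inv_mem hx

theorem Gm_le {K : ℕ} {rs : List (List ℕ)} (hrs : ∀ r ∈ rs, ∀ i ∈ r, i < K) :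
    Gm K rs ≤ Full K := by
  unfold Gm
  rw [Subgroup.closure_le]
  rintro _ (⟨i, hi, rfl⟩ | ⟨r, hr, rfl⟩)
  · exact (mem_Full K _).mpr ⟨G_mem hi, G_mem hi⟩
  · exact (mem_Full K _).mpr ⟨wd_FK r (hrs r hr), one_mem _⟩

/-- the relators as a subgroup of the free group -/
def Nh (K : ℕ) (rs : List (List ℕ)) : Subgroup (FK K) where
  carrier := {u | ((u : Af), (1 : Af)) ∈ Gm K rs}
  one_mem' := (Gm K rs).one_mem
  mul_mem' := by
    intro x y hx hy
    have := (Gm K rs).mul_mem hx hy
    rw [Prod.mk_mul_mk, one_mul] at this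
    exact this
  inv_mem' := by
    intro x hx
    have := (Gm K rs).inv_mem hx
    rw [Prod.inv_mk, inv_one] at this
    exact this

theorem mem_Nh {K : ℕ} {rs : List (List ℕ)} {u : FK K} :
    u ∈ Nh K rs ↔ ((u : Af), (1 : Af)) ∈ Gm K rs := Iff.rfl

instance Nh_normal (K : ℕ) (rs : List (List ℕ)) : (Nh K rs).Normal := by
  constructor
  intro n hn g
  rw [mem_Nh] at hn ⊢
  have h1 := (Gm K rs).mul_mem ((Gm K rs).mul_mem (FK_diag (rs := rs) g.2) hn)
    ((Gm K rs).inv_mem (FK_diag (rs := rs) g.2))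
  have e : ((g : Af), (g : Af)) * ((n : Af), (1 : Af)) * ((g : Af), (g : Af))⁻¹ =
      (((g * n * g⁻¹ : FK K) : Af), (1 : Af)) := by
    apply Prod.ext
    · rfl
    · change (g : Af) * 1 * (g : Af)⁻¹ = 1
      group
  rw [e] at h1
  exact h1

theorem Full_of {K : ℕ} {rs : List (List ℕ)} (hrs : ∀ r ∈ rs, ∀ i ∈ r, i < K)
    (h : ∀ i < K, (G i, (1 : Af)) ∈ Gm K rs) : Gm K rs = Full K := by
  apply le_antisymm (Gm_le hrs)
  intro g hg
  rw [mem_Full] at hg
  obtain ⟨h1, h2⟩ := hg
  have h3 : ∀ x ∈ FK K, (x, (1 : Af)) ∈ Gm K rs := by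
    intro x hx
    unfold FK at hx
    refine Subgroup.closure_induction (p := fun x _ => (x, (1 : Af)) ∈ Gm K rs) ?_ ?_ ?_ ?_ hx
    · rintro _ ⟨i, hi, rfl⟩
      exact h i hi
    · exact one_mem _
    · intro x y _ _ hx hy
      have := (Gm K rs).mul_mem hx hy
      rw [Prod.mk_mul_mk, one_mul] at this
      exact this
    · intro x _ hx
      have := (Gm K rs).inv_mem hx
      rw [Prod.inv_mk, inv_one] at this
      exact this
  have h4 : g = (g.1 * g.2⁻¹, 1) * (g.2, g.2) := by
    apply Prod.ext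
    · change g.1 = g.1 * g.2⁻¹ * g.2
      group
    · change g.2 = 1 * g.2
      group
  rw [h4]
  exact (Gm K rs).mul_mem (h3 _ ((FK K).mul_mem h1 ((FK K).inv_mem h2))) (FK_diag h2)

variable {m : ℕ} {R : List (List (Fin m × Bool))} {w : List (Fin m × Bool)}

theorem rels_lt : ∀ r ∈ rels (2 * m + 6) (RL R w), ∀ i ∈ r, i < 2 * (2 * m + 6) := by
  intro r hr
  rw [mem_rels] at hr
  rcases hr with ⟨i, hi, rfl⟩ | ⟨s, hs, rfl⟩
  · intro j hj
    simp only [List.mem_cons, List.not_mem_nil, or_false] at hj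
    rcases hj with rfl | rfl <;> omega
  · exact pos_lt (RL_lt s hs)

theorem yes_case (hw : FreeGroup.mk w ∈ Subgroup.normalClosure {x | ∃ r ∈ R, x = FreeGroup.mk r}) :
    Gm (2 * (2 * m + 6)) (rels (2 * m + 6) (RL R w)) = Full (2 * (2 * m + 6)) := by
  set N := 2 * m + 6 with hN
  set rs := rels N (RL R w) with hrs
  let γ : ℕ → (FK (2 * N)) ⧸ (Nh (2 * N) rs) := fun i =>
    if h : i < 2 * N then QuotientGroup.mk ⟨G i, G_mem h⟩ else 1
  have hγ : ∀ i (h : i < 2 * N), γ i = QuotientGroup.mk ⟨G i, G_mem h⟩ := fun i h => dif_pos h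
  have hprod : ∀ r : List ℕ, ∀ (hr : ∀ i ∈ r, i < 2 * N),
      (r.map γ).prod = QuotientGroup.mk (s := Nh (2 * N) rs) ⟨wd r, wd_FK r hr⟩ := by
    intro r
    induction r with
    | nil =>
      intro hr
      rfl
    | cons i r ih =>
      intro hr
      rw [List.map_cons, List.prod_cons, ih (fun j hj => hr j (List.mem_cons_of_mem _ hj)),
        hγ i (hr i List.mem_cons_self), ← QuotientGroup.mk_mul]
      congr 1
  have hrel : ∀ r ∈ rs, (r.map γ).prod = 1 := by
    intro r hr
    rw [hprod r (rels_lt r hr), QuotientGroup.eq_one_iff, mem_Nh]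
    exact wd_mem hr
  have hinv : ∀ i < N, γ (N + i) = (γ i)⁻¹ := by
    intro i hi
    have h1 := hrel [i, N + i] (mem_rels.mpr (Or.inl ⟨i, hi, rfl⟩))
    simp only [List.map_cons, List.map_nil, List.prod_cons, List.prod_nil, mul_one] at h1
    exact eq_inv_of_mul_eq_one_right h1
  have hev : ∀ r : List (ℕ × Bool), (∀ x ∈ r, x.1 < N) → ev γ r = ((pos N r).map γ).prod := by
    intro r
    induction r with
    | nil =>
      intro _
      rfl
    | cons x r ih =>
      intro hr
      have h1 := ih (fun y hy => hr y (List.mem_cons_of_mem _ hy))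
      have h2 := hinv x.1 (hr x List.mem_cons_self)
      unfold ev pos at h1 ⊢
      rw [List.map_cons, List.prod_cons, List.map_cons, List.map_cons, List.prod_cons, h1]
      congr 1
      split_ifs
      · rfl
      · exact h2.symm
  have hev1 : ∀ r ∈ RL R w, ev γ r = 1 := by
    intro r hr
    rw [hev r (RL_lt r hr)]
    exact hrel _ (mem_rels.mpr (Or.inr ⟨r, hr, rfl⟩))
  have hall := Pool.Agent.TH111.J524.result.1 m R w hw _ γ
    (fun h hh => hev1 _ (mem_RL.mpr (Or.inl ⟨h, hh, rfl⟩)))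
    (fun r hr h _ => by
      rw [hev1 _ (mem_RL.mpr (Or.inr hr))]
      exact Commute.one_left _)
  have hmem : ∀ i < 2 * N, γ i = 1 → (G i, (1 : Af)) ∈ Gm (2 * N) rs := by
    intro i hi h1
    rw [hγ i hi, QuotientGroup.eq_one_iff, mem_Nh] at h1
    exact h1
  refine Full_of rels_lt ?_
  intro i hi
  apply hmem i hi
  by_cases h : i < N
  · exact hall i h
  · obtain ⟨j, rfl⟩ : ∃ j, i = N + j := ⟨i - N, by omega⟩
    rw [hinv j (by omega), hall j (by omega), inv_one]

theorem no_case (hw : FreeGroup.mk w ∉ Subgroup.normalClosure {x | ∃ r ∈ R, x = FreeGroup.mk r}) :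
    (G 0, (1 : Af)) ∉ Gm (2 * (2 * m + 6)) (rels (2 * m + 6) (RL R w)) := by
  intro hmem
  obtain ⟨Q, _, γ, h1, h2, h3⟩ := Pool.Agent.TH111.J524.result.2 m R w hw
  set N := 2 * m + 6 with hN
  let γ' : ℕ → Q := fun i => if i < N then γ i else (γ (i - N))⁻¹
  have hev1 : ∀ r ∈ RL R w, ev γ r = 1 := by
    intro r hr
    rw [mem_RL] at hr
    rcases hr with ⟨h, hh, rfl⟩ | hr
    · exact h1 h hh
    · exact h2 r hr
  have hev : ∀ r : List (ℕ × Bool), (∀ x ∈ r, x.1 < N) → ((pos N r).map γ').prod = ev γ r := by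
    intro r
    induction r with
    | nil =>
      intro _
      rfl
    | cons x r ih =>
      intro hr
      have h1 := ih (fun y hy => hr y (List.mem_cons_of_mem _ hy))
      have h2 := hr x List.mem_cons_self
      unfold ev pos at h1 ⊢
      rw [List.map_cons, List.map_cons, List.prod_cons, List.map_cons, List.prod_cons, h1]
      congr 1
      split_ifs
      · simp only [γ']
        rw [if_pos h2]
      · have h4 : ¬ (N + x.1 < N) := by omega
        simp only [γ']
        rw [if_neg h4, Nat.add_sub_cancel_left]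
  let θ : FreeGroup ℕ →* Q := FreeGroup.lift γ'
  let ψ : FreeGroup ℕ →* Af := FreeGroup.lift G
  have hψ : Function.Injective ψ := free
  have hword : ∀ r : List ℕ, ∃ x : FreeGroup ℕ, ψ x = wd r ∧ θ x = (r.map γ').prod := by
    intro r
    refine ⟨(r.map FreeGroup.of).prod, ?_, ?_⟩
    · rw [map_list_prod, List.map_map]
      unfold wd
      congr 1
      apply List.map_congr_left
      intro i _
      exact FreeGroup.lift_apply_of
    · rw [map_list_prod, List.map_map]
      congr 1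
      apply List.map_congr_left
      intro i _
      exact FreeGroup.lift_apply_of
  have hall : ∀ g ∈ Gm (2 * N) (rels N (RL R w)), ∃ x y : FreeGroup ℕ, ψ x = g.1 ∧ ψ y = g.2 ∧
      θ x = θ y := by
    intro g hg
    unfold Gm at hg
    refine Subgroup.closure_induction (p := fun g _ => ∃ x y : FreeGroup ℕ, ψ x = g.1 ∧
      ψ y = g.2 ∧ θ x = θ y) ?_ ?_ ?_ ?_ hg
    · rintro _ (⟨i, hi, rfl⟩ | ⟨r, hr, rfl⟩)
      · exact ⟨FreeGroup.of i, FreeGroup.of i, FreeGroup.lift_apply_of, FreeGroup.lift_apply_of, rfl⟩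
      · obtain ⟨x, hx1, hx2⟩ := hword r
        refine ⟨x, 1, hx1, map_one _, ?_⟩
        rw [hx2, map_one]
        rw [mem_rels] at hr
        rcases hr with ⟨i, hi, rfl⟩ | ⟨s, hs, rfl⟩
        · simp only [List.map_cons, List.map_nil, List.prod_cons, List.prod_nil, mul_one, γ']
          rw [if_pos hi, if_neg (by omega), Nat.add_sub_cancel_left, mul_inv_cancel]
        · rw [hev s (RL_lt s hs), hev1 s hs]
    · exact ⟨1, 1, map_one _, map_one _, rfl⟩
    · rintro g g' _ _ ⟨x, y, hx, hy, hxy⟩ ⟨x', y', hx', hy', hxy'⟩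
      refine ⟨x * x', y * y', ?_, ?_, ?_⟩
      · rw [map_mul, hx, hx']
        rfl
      · rw [map_mul, hy, hy']
        rfl
      · rw [map_mul, map_mul, hxy, hxy']
    · rintro g _ ⟨x, y, hx, hy, hxy⟩
      refine ⟨x⁻¹, y⁻¹, ?_, ?_, ?_⟩
      · rw [map_inv, hx]
        rfl
      · rw [map_inv, hy]
        rfl
      · rw [map_inv, map_inv, hxy]
  obtain ⟨x, y, hx, hy, hxy⟩ := hall _ hmem
  have hx2 : x = FreeGroup.of 0 := by
    apply hψ
    rw [hx]
    exact FreeGroup.lift_apply_of.symm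
  have hy2 : y = 1 := by
    apply hψ
    rw [hy, map_one]
  rw [hx2, hy2, map_one] at hxy
  apply h3
  have h4 : θ (FreeGroup.of 0) = γ' 0 := FreeGroup.lift_apply_of
  rw [h4] at hxy
  simp only [γ'] at hxy
  rw [if_pos (by omega)] at hxy
  exact hxy

end Pool.Agent.Run7.h447
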