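import Pool.Agent.Run7.h447.AutStates
import Pool.Agent.Run7.h447.FibWord

/-!
# The isomorphism problem for automaton groups: reduction from the word problem
-/

set_option autoImplicit false

namespace Pool.Agent.Run7.h447

open Af V4
open Pool.Agent.TH716.C3 (ev rl gN rsn sw iw)

/-- the matrix of a generator -/
def gM (i : ℕ) : M4 := (2 * i + 1, 2 * (i * i) + 2 * i, 2, 2 * i + 1)

/-- the product of two matrices -/
def mulM (p q : M4) : M4 :=
  (p.1 * q.1 + p.2.1 * q.2.2.1, p.1 * q.2.1 + p.2.1 * q.2.2.2,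
    p.2.2.1 * q.1 + p.2.2.2 * q.2.2.1, p.2.2.1 * q.2.1 + p.2.2.2 * q.2.2.2)

/-- the matrix of a positive word -/
def wM (r : List ℕ) : M4 := r.foldr (fun i p => mulM (gM i) p) I4

/-- the matrices -/
def PP (K : ℕ) (rs : List (List ℕ)) : List MM :=
  (I4, I4) :: ((List.range K).map (fun i => (gM i, gM i)) ++ rs.map fun r => (wM r, I4))

theorem gM_spec (i : ℕ) : Det (gM i) ∧ mkAf (gM i) 0 0 = G i := by
  have h : Det (gM i) := by
    unfold Det gM
    push_cast
    ring
  refine ⟨h, ?_⟩
  rw [mkAf_eq h]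
  unfold gM
  ext <;> simp
  ring

theorem mulM_spec {p q : M4} (hp : Det p) (hq : Det q) :
    Det (mulM p q) ∧ mkAf (mulM p q) 0 0 = mkAf p 0 0 * mkAf q 0 0 := by
  have h : Det (mulM p q) := by
    unfold Det at hp hq
    unfold Det mulM
    push_cast
    linear_combination ((q.1 : ℤ) * q.2.2.2 - q.2.1 * q.2.2.1) * hp + hq
  refine ⟨h, ?_⟩
  rw [mkAf_eq h, mkAf_eq hp, mkAf_eq hq]
  unfold mulM
  ext <;> simp

theorem wM_spec (r : List ℕ) : Det (wM r) ∧ mkAf (wM r) 0 0 = wd r := by
  induction r with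
  | nil =>
    refine ⟨det_I4, ?_⟩
    change mkAf I4 0 0 = _
    rw [mkAf_I4]
    rfl
  | cons i r ih =>
    obtain ⟨h1, h2⟩ := mulM_spec (gM_spec i).1 ih.1
    refine ⟨h1, ?_⟩
    change mkAf (mulM (gM i) (wM r)) 0 0 = _
    rw [h2, (gM_spec i).2, ih.2]
    unfold wd
    rw [List.map_cons, List.prod_cons]

theorem mem_PP {K : ℕ} {rs : List (List ℕ)} {p : MM} : p ∈ PP K rs ↔
    p = (I4, I4) ∨ (∃ i < K, (gM i, gM i) = p) ∨ ∃ r ∈ rs, (wM r, I4) = p := by
  simp [PP]

theorem good_PP (K : ℕ) (rs : List (List ℕ)) : Good (PP K rs) := by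
  intro p hp
  rw [mem_PP] at hp
  rcases hp with rfl | ⟨i, -, rfl⟩ | ⟨r, -, rfl⟩
  · exact ⟨det_I4, det_I4⟩
  · exact ⟨(gM_spec i).1, (gM_spec i).1⟩
  · exact ⟨(wM_spec r).1, det_I4⟩

theorem ne_PP (K : ℕ) (rs : List (List ℕ)) : PP K rs ≠ [] := by
  unfold PP
  exact List.cons_ne_nil _ _

theorem I_PP (K : ℕ) (rs : List (List ℕ)) : (I4, I4) ∈ PP K rs := mem_PP.mpr (Or.inl rfl)

theorem mkAf_I4_one : mkAf I4 0 0 = 1 := by
  rw [mkAf_I4]
  rfl

theorem LP_PP (K : ℕ) (rs : List (List ℕ)) : LP (PP K rs) = Gm K rs := by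
  unfold LP Gm
  apply le_antisymm
  · rw [Subgroup.closure_le]
    rintro _ ⟨p, hp, rfl⟩
    rw [mem_PP] at hp
    rcases hp with rfl | ⟨i, hi, rfl⟩ | ⟨r, hr, rfl⟩
    · dsimp only
      rw [mkAf_I4_one]
      exact one_mem _
    · dsimp only
      rw [(gM_spec i).2]
      exact Subgroup.subset_closure (Or.inl ⟨i, hi, rfl⟩)
    · dsimp only
      rw [(wM_spec r).2, mkAf_I4_one]
      exact Subgroup.subset_closure (Or.inr ⟨r, hr, rfl⟩)
  · rw [Subgroup.closure_le]
    rintro _ (⟨i, hi, rfl⟩ | ⟨r, hr, rfl⟩)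
    · refine Subgroup.subset_closure ⟨(gM i, gM i), mem_PP.mpr (Or.inr (Or.inl ⟨i, hi, rfl⟩)), ?_⟩
      dsimp only
      rw [(gM_spec i).2]
    · refine Subgroup.subset_closure ⟨(wM r, I4), mem_PP.mpr (Or.inr (Or.inr ⟨r, hr, rfl⟩)), ?_⟩
      dsimp only
      rw [(wM_spec r).2, mkAf_I4_one]

/-! ### computability -/

theorem primrec_sw {m : ℕ} : Primrec (sw (m := m)) := by
  unfold sw
  refine Primrec.list_flatMap Primrec.id ?_
  have h1 : Primrec fun p : List (Fin m × Bool) × (Fin m × Bool) => p.2.1.1 + 1 :=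
    Primrec.succ.comp (Primrec.fin_val.comp (Primrec.fst.comp Primrec.snd))
  have h2 : ∀ (b c : Bool), Primrec fun p : List (Fin m × Bool) × (Fin m × Bool) =>
      [(p.2.1.1 + 1, b), (0, c)] := fun b c =>
    Primrec.list_cons.comp (Primrec.pair h1 (Primrec.const _)) (Primrec.const _)
  have h3 : ∀ (b c : Bool), Primrec fun p : List (Fin m × Bool) × (Fin m × Bool) =>
      [(0, b), (p.2.1.1 + 1, c)] := fun b c =>
    Primrec.list_cons.comp (Primrec.const _) (Primrec.list_cons.comp
      (Primrec.pair h1 (Primrec.const _)) (Primrec.const _))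
  exact Primrec.ite (PrimrecPred.comp (p := fun b : Bool => b = true)
    (Primrec.eq.comp Primrec.id (Primrec.const true)) (Primrec.snd.comp Primrec.snd))
    (h2 _ _) (h3 _ _)

theorem primrec_iw {m : ℕ} : Primrec (iw (m := m)) := by
  unfold iw
  refine Primrec.list_reverse.comp (Primrec.list_map Primrec.id ?_)
  exact Primrec.pair (Primrec.fst.comp Primrec.snd) (Primrec.not.comp (Primrec.snd.comp Primrec.snd))

theorem primrec_rsn {m : ℕ} (R : List (List (Fin m × Bool))) : Primrec (rsn R) := by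
  unfold rsn
  have hs := primrec_sw (m := m)
  have hi := primrec_iw (m := m)
  refine Primrec.list_append.comp (Primrec.const _) (Primrec.list_cons.comp ?_ (Primrec.const _))
  exact Primrec.list_append.comp (Primrec.list_append.comp (Primrec.list_append.comp
    (Primrec.list_append.comp (Primrec.const _) hs) (Primrec.const _)) (hs.comp hi))
    (Primrec.const _)

theorem primrec_RL {m : ℕ} (R : List (List (Fin m × Bool))) : Primrec (RL R) := by
  unfold RL
  exact Primrec.list_append.comp (Primrec.const _) (primrec_rsn R)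

theorem primrec_pos (N : ℕ) : Primrec (pos N) := by
  unfold pos
  refine Primrec.list_map Primrec.id ?_
  have h1 : Primrec fun p : List (ℕ × Bool) × (ℕ × Bool) => p.2.1 :=
    Primrec.fst.comp Primrec.snd
  have h2 : Primrec fun p : List (ℕ × Bool) × (ℕ × Bool) => N + p.2.1 :=
    Primrec.nat_add.comp (Primrec.const N) h1
  exact Primrec.ite (PrimrecPred.comp (p := fun b : Bool => b = true)
    (Primrec.eq.comp Primrec.id (Primrec.const true)) (Primrec.snd.comp Primrec.snd)) h1 h2

theorem primrec_rels (N : ℕ) : Primrec (rels N) := by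
  unfold rels
  refine Primrec.list_append.comp (Primrec.const _) ?_
  exact Primrec.list_map Primrec.id ((primrec_pos N).comp Primrec.snd)

theorem primrec_gM : Primrec gM := by
  unfold gM
  have h2 : Primrec fun i : ℕ => 2 * i := Primrec.nat_mul.comp (Primrec.const 2) Primrec.id
  have h3 : Primrec fun i : ℕ => 2 * i + 1 := Primrec.nat_add.comp h2 (Primrec.const 1)
  have h4 : Primrec fun i : ℕ => 2 * (i * i) + 2 * i :=
    Primrec.nat_add.comp (Primrec.nat_mul.comp (Primrec.const 2)
      (Primrec.nat_mul.comp Primrec.id Primrec.id)) h2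
  exact Primrec.pair h3 (Primrec.pair h4 (Primrec.pair (Primrec.const 2) h3))

section m4
variable {α : Type} [Primcodable α]

theorem p1 {f : α → M4} (hf : Primrec f) : Primrec fun a => (f a).1 := Primrec.fst.comp hf
theorem p2 {f : α → M4} (hf : Primrec f) : Primrec fun a => (f a).2.1 :=
  Primrec.fst.comp (Primrec.snd.comp hf)
theorem p3 {f : α → M4} (hf : Primrec f) : Primrec fun a => (f a).2.2.1 :=
  Primrec.fst.comp (Primrec.snd.comp (Primrec.snd.comp hf))
theorem p4 {f : α → M4} (hf : Primrec f) : Primrec fun a => (f a).2.2.2 :=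
  Primrec.snd.comp (Primrec.snd.comp (Primrec.snd.comp hf))

theorem pmul {f g : α → ℕ} (hf : Primrec f) (hg : Primrec g) : Primrec fun a => f a * g a :=
  Primrec.nat_mul.comp hf hg
theorem padd {f g : α → ℕ} (hf : Primrec f) (hg : Primrec g) : Primrec fun a => f a + g a :=
  Primrec.nat_add.comp hf hg
theorem pdiv {f g : α → ℕ} (hf : Primrec f) (hg : Primrec g) : Primrec fun a => f a / g a :=
  Primrec.nat_div.comp hf hg
theorem pmod {f g : α → ℕ} (hf : Primrec f) (hg : Primrec g) : Primrec fun a => f a % g a :=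
  Primrec.nat_mod.comp hf hg

theorem pmulM {f g : α → M4} (hf : Primrec f) (hg : Primrec g) :
    Primrec fun a => mulM (f a) (g a) := by
  unfold mulM
  exact Primrec.pair (padd (pmul (p1 hf) (p1 hg)) (pmul (p2 hf) (p3 hg)))
    (Primrec.pair (padd (pmul (p1 hf) (p2 hg)) (pmul (p2 hf) (p4 hg)))
    (Primrec.pair (padd (pmul (p3 hf) (p1 hg)) (pmul (p4 hf) (p3 hg)))
    (padd (pmul (p3 hf) (p2 hg)) (pmul (p4 hf) (p4 hg)))))

end m4

theorem primrec_wM : Primrec wM := by
  unfold wM
  refine Primrec.list_foldr (f := fun r : List ℕ => r) (g := fun _ => I4)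
    (h := fun _ q => mulM (gM q.1) q.2) Primrec.id (Primrec.const _) ?_
  exact pmulM (primrec_gM.comp (Primrec.fst.comp Primrec.snd)) (Primrec.snd.comp Primrec.snd)

theorem primrec_PP (K : ℕ) : Primrec (PP K) := by
  unfold PP
  refine Primrec.list_cons.comp (Primrec.const _) (Primrec.list_append.comp (Primrec.const _) ?_)
  exact Primrec.list_map Primrec.id (Primrec.pair (primrec_wM.comp Primrec.snd) (Primrec.const _))

theorem primrec_sm : Primrec sm := by
  unfold sm
  have h1 : Primrec (fun p : MM => p.1) := Primrec.fst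
  have h2 : Primrec (fun p : MM => p.2) := Primrec.snd
  exact padd (padd (padd (padd (p1 h1) (p2 h1)) (p3 h1)) (p4 h1))
    (padd (padd (padd (p1 h2) (p2 h2)) (p3 h2)) (p4 h2))

theorem primrec_qq : Primrec qq := by
  have h1 : ∀ P : List MM, qq P = P.foldr (fun p a => sm p + a) 0 + 2 := by
    intro P
    unfold qq
    congr 1
    induction P with
    | nil => rfl
    | cons p P ih => rw [List.map_cons, List.sum_cons, List.foldr_cons, ih]
  have h2 : Primrec fun P : List MM => P.foldr (fun p a => sm p + a) 0 := by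
    refine Primrec.list_foldr (f := fun r : List MM => r) (g := fun _ => 0)
      (h := fun _ q => sm q.1 + q.2) Primrec.id (Primrec.const _) ?_
    exact padd (primrec_sm.comp (Primrec.fst.comp Primrec.snd)) (Primrec.snd.comp Primrec.snd)
  exact (padd h2 (Primrec.const 2)).of_eq fun P => (h1 P).symm

section v
variable {α : Type} [Primcodable α] {P : α → List MM} {s x : α → ℕ} (hP : Primrec P)
  (hs : Primrec s) (hx : Primrec x)

include hP hs

theorem pd1 : Primrec fun a => s a / qq (P a) := pdiv hs (primrec_qq.comp hP)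
theorem pd2 : Primrec fun a => s a / qq (P a) / qq (P a) := pdiv (pd1 hP hs) (primrec_qq.comp hP)
theorem pd3 : Primrec fun a => s a / qq (P a) / qq (P a) / qq (P a) :=
  pdiv (pd2 hP hs) (primrec_qq.comp hP)
theorem pd4 : Primrec fun a => s a / qq (P a) / qq (P a) / qq (P a) / qq (P a) :=
  pdiv (pd3 hP hs) (primrec_qq.comp hP)

theorem pent : Primrec fun a => ent (P a) (s a / qq (P a) / qq (P a) / qq (P a) / qq (P a)) := by
  unfold ent
  exact (Primrec.list_getD _).comp hP (pd4 hP hs)

include hx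

omit hP hs in
theorem px1 : Primrec fun a => x a % 2 := pmod hx (Primrec.const 2)
omit hP hs in
theorem px2 : Primrec fun a => x a / 2 % 2 := pmod (pdiv hx (Primrec.const 2)) (Primrec.const 2)
omit hP hs in
theorem px4 : Primrec fun a => x a / 4 % 2 := pmod (pdiv hx (Primrec.const 4)) (Primrec.const 2)
omit hP hs in
theorem px8 : Primrec fun a => x a / 8 % 2 := pmod (pdiv hx (Primrec.const 8)) (Primrec.const 2)

theorem pv0 : Primrec fun a => v0 (P a) (s a) (x a) := by
  unfold v0
  have h1 := Primrec.fst.comp (pent hP hs)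
  exact padd (padd (pmul (p1 h1) (px1 hx)) (pmul (p2 h1) (px2 hx)))
    (pmod hs (primrec_qq.comp hP))

theorem pv1 : Primrec fun a => v1 (P a) (s a) (x a) := by
  unfold v1
  have h1 := Primrec.fst.comp (pent hP hs)
  exact padd (padd (pmul (p3 h1) (px1 hx)) (pmul (p4 h1) (px2 hx)))
    (pmod (pd1 hP hs) (primrec_qq.comp hP))

theorem pv2 : Primrec fun a => v2 (P a) (s a) (x a) := by
  unfold v2
  have h1 := Primrec.snd.comp (pent hP hs)
  exact padd (padd (pmul (p1 h1) (px4 hx)) (pmul (p2 h1) (px8 hx)))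
    (pmod (pd2 hP hs) (primrec_qq.comp hP))

theorem pv3 : Primrec fun a => v3 (P a) (s a) (x a) := by
  unfold v3
  have h1 := Primrec.snd.comp (pent hP hs)
  exact padd (padd (pmul (p3 h1) (px4 hx)) (pmul (p4 h1) (px8 hx)))
    (pmod (pd3 hP hs) (primrec_qq.comp hP))

theorem pnx : Primrec fun a => nx (P a) (s a) (x a) := by
  unfold nx num
  have hq : Primrec fun a => qq (P a) := primrec_qq.comp hP
  have c2 : Primrec fun _ : α => 2 := Primrec.const 2
  exact padd (pdiv (pv0 hP hs hx) c2) (pmul hq (padd (pdiv (pv1 hP hs hx) c2) (pmul hq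
    (padd (pdiv (pv2 hP hs hx) c2) (pmul hq (padd (pdiv (pv3 hP hs hx) c2)
    (pmul hq (pd4 hP hs))))))))

theorem pox : Primrec fun a => ox (P a) (s a) (x a) := by
  unfold ox
  have c2 : Primrec fun _ : α => 2 := Primrec.const 2
  exact padd (padd (padd (pmod (pv0 hP hs hx) c2) (pmul c2 (pmod (pv1 hP hs hx) c2)))
    (pmul (Primrec.const 4) (pmod (pv2 hP hs hx) c2)))
    (pmul (Primrec.const 8) (pmod (pv3 hP hs hx) c2))

end v

theorem primrec_ns : Primrec ns := by
  unfold ns
  exact pmul (pmul (pmul (pmul Primrec.list_length primrec_qq) primrec_qq) primrec_qq) primrec_qq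

theorem primrec_tab : Primrec tab := by
  unfold tab
  refine Primrec.pair (Primrec.const 16) ?_
  refine Primrec.list_map (Primrec.list_range.comp primrec_ns) ?_
  refine Primrec.list_map (Primrec.const _) ?_
  exact Primrec.pair
    (pnx (P := fun a : (List MM × ℕ) × ℕ => a.1.1) (s := fun a => a.1.2) (x := fun a => a.2)
      (Primrec.fst.comp Primrec.fst) (Primrec.snd.comp Primrec.fst) Primrec.snd)
    (pox (P := fun a : (List MM × ℕ) × ℕ => a.1.1) (s := fun a => a.1.2) (x := fun a => a.2)
      (Primrec.fst.comp Primrec.fst) (Primrec.snd.comp Primrec.fst) Primrec.snd)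

/-! ### the reduction -/

section red

variable {m : ℕ} (R : List (List (Fin m × Bool))) (w : List (Fin m × Bool))

/-- the matrices of the word `w` -/
def PW : List MM := PP (2 * (2 * m + 6)) (rels (2 * m + 6) (RL R w))

/-- the automaton of the word `w` -/
def aut : Automaton := autom (PW R w) (ne_PP _ _) (good_PP _ _)

theorem code_aut : (aut R w).code = tab (PW R w) := code_autom _ _ _

theorem n_aut : (aut R w).n = 16 := rfl

theorem primrec_code : Primrec fun w => (aut R w).code := by
  have h : Primrec fun w => tab (PW R w) :=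
    primrec_tab.comp ((primrec_PP _).comp ((primrec_rels _).comp (primrec_RL R)))
  exact h.of_eq fun w => (code_aut R w).symm

/-- the group of the automaton of `w` -/
noncomputable def grpAut : (aut R w).Grp ≃*
    GG (Gm (2 * (2 * m + 6)) (rels (2 * m + 6) (RL R w))) :=
  (grpEquiv (PW R w) (ne_PP _ _) (good_PP _ _) (I_PP _ _)).trans
    (MulEquiv.subgroupCongr (by unfold PW; rw [LP_PP]))

theorem iso_iff : Nonempty ((aut R w).Grp ≃* (aut R []).Grp) ↔
    FreeGroup.mk w ∈ Subgroup.normalClosure {x | ∃ r ∈ R, x = FreeGroup.mk r} := by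
  have h0 : (FreeGroup.mk [] : FreeGroup (Fin m)) ∈
      Subgroup.normalClosure {x | ∃ r ∈ R, x = FreeGroup.mk r} := one_mem _
  have e0 : (aut R []).Grp ≃* GG (Full (2 * (2 * m + 6))) :=
    (grpAut R []).trans (MulEquiv.subgroupCongr (by rw [yes_case h0]))
  constructor
  · rintro ⟨e⟩
    by_contra hw
    refine no_case hw (noniso (K := 2 * (2 * m + 6)) (by omega) _ (fun i hi => diag_mem hi) ?_)
    exact (e0.symm.trans e.symm).trans (grpAut R w)
  · intro hw
    have e1 : (aut R w).Grp ≃* GG (Full (2 * (2 * m + 6))) :=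
      (grpAut R w).trans (MulEquiv.subgroupCongr (by rw [yes_case hw]))
    exact ⟨e1.trans e0.symm⟩

end red

end Pool.Agent.Run7.h447
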