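import Pool.Agent.Run7.h447.Tree

/-!
# Fibre products and direct decompositions
-/

set_option autoImplicit false

namespace Pool.Agent.Run7.h447

open Af

/-- the pair of linear parts -/
def lin2 : AA →* AA := lin.prodMap lin

theorem lin2_apply (g : AA) : lin2 g = (lin g.1, lin g.2) := rfl

/-- all pairs of affine maps with linear parts in a given group -/
def GG (Γ : Subgroup AA) : Subgroup AA := Γ.comap lin2

theorem mem_GG (Γ : Subgroup AA) (g : AA) : g ∈ GG Γ ↔ (lin g.1, lin g.2) ∈ Γ := Iff.rfl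

/-- the group generated by the first `K` generators -/
def FK (K : ℕ) : Subgroup Af := Subgroup.closure {g | ∃ i < K, g = G i}

theorem G_mem {K i : ℕ} (hi : i < K) : G i ∈ FK K := Subgroup.subset_closure ⟨i, hi, rfl⟩

theorem lin_FK {K : ℕ} {g : Af} (hg : g ∈ FK K) : lin g = g := by
  unfold FK at hg
  refine Subgroup.closure_induction (p := fun g _ => lin g = g) ?_ ?_ ?_ ?_ hg
  · rintro _ ⟨i, -, rfl⟩
    rfl
  · rfl
  · intro x y _ _ hx hy
    rw [map_mul, hx, hy]
  · intro x _ hx
    rw [map_inv, hx]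

/-- the full product -/
def Full (K : ℕ) : Subgroup AA := (FK K).prod (FK K)

theorem mem_Full (K : ℕ) (g : AA) : g ∈ Full K ↔ g.1 ∈ FK K ∧ g.2 ∈ FK K := Subgroup.mem_prod

/-- conjugating a translation -/
theorem conj_tr (k : Af) (p q : ℤ) :
    k * tr p q * k⁻¹ = tr (k.a * p + k.b * q) (k.c * p + k.d * q) := by
  have h := k.det
  ext
  · simp; linear_combination h
  · simp; ring
  · simp; ring
  · simp; linear_combination h
  · simp; linear_combination -(k.s) * h
  · simp; linear_combination -(k.t) * h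

section key

variable {K : ℕ} (hK : 2 ≤ K) {A B : Subgroup Af} (hcomm : ∀ a ∈ A, ∀ b ∈ B, a * b = b * a)
  (hH : ∀ h : Af, lin h ∈ FK K → ∃ a ∈ A, ∃ b ∈ B, h = a * b)

include hcomm hH

theorem norm_A (h : Af) (hh : lin h ∈ FK K) (a : Af) (ha : a ∈ A) : h * a * h⁻¹ ∈ A := by
  obtain ⟨a0, ha0, b0, hb0, rfl⟩ := hH h hh
  have h1 : a0 * b0 * a * (a0 * b0)⁻¹ = a0 * a * a0⁻¹ := by
    have := hcomm a ha b0 hb0
    rw [mul_inv_rev]
    calc a0 * b0 * a * (b0⁻¹ * a0⁻¹) = a0 * (b0 * a) * b0⁻¹ * a0⁻¹ := by group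
      _ = a0 * (a * b0) * b0⁻¹ * a0⁻¹ := by rw [this]
      _ = a0 * a * a0⁻¹ := by group
  rw [h1]
  exact A.mul_mem (A.mul_mem ha0 ha) (A.inv_mem ha0)

theorem exists_tr (hA : A ≠ ⊥) : ∃ s t : ℤ, ¬ (s = 0 ∧ t = 0) ∧ tr s t ∈ A := by
  obtain ⟨⟨k, hk⟩, hk1⟩ := Subgroup.ne_bot_iff_exists_ne_one.mp hA
  have hk2 : k ≠ 1 := fun h => hk1 (Subtype.ext h)
  by_cases hl : lin k = 1
  · refine ⟨k.s, k.t, ?_, ?_⟩
    · rintro ⟨h1, h2⟩
      apply hk2
      rw [(lin_eq_one_iff k).mp hl, h1, h2]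
      rfl
    · rw [← (lin_eq_one_iff k).mp hl]
      exact hk
  · have hc : ∀ p q : ℤ, tr (k.a * p + k.b * q - p) (k.c * p + k.d * q - q) ∈ A := by
      intro p q
      have h1 : tr p q * k⁻¹ * (tr p q)⁻¹ ∈ A :=
        norm_A hcomm hH (tr p q) (by rw [lin_tr]; exact one_mem _) _ (A.inv_mem hk)
      have h2 := A.mul_mem hk h1
      have h3 : k * (tr p q * k⁻¹ * (tr p q)⁻¹) =
          tr (k.a * p + k.b * q - p) (k.c * p + k.d * q - q) := by
        have : k * (tr p q * k⁻¹ * (tr p q)⁻¹) = (k * tr p q * k⁻¹) * (tr p q)⁻¹ := by group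
        rw [this, conj_tr, tr_inv, tr_mul]
        rfl
      rwa [h3] at h2
    by_cases h1 : k.a - 1 = 0 ∧ k.c = 0
    · by_cases h2 : k.b = 0 ∧ k.d - 1 = 0
      · exfalso
        apply hl
        ext <;> simp <;> omega
      · refine ⟨_, _, ?_, hc 0 1⟩
        intro h3
        apply h2
        obtain ⟨h4, h5⟩ := h3
        constructor
        · linear_combination h4
        · linear_combination h5
    · refine ⟨_, _, ?_, hc 1 0⟩
      intro h3
      apply h1
      obtain ⟨h4, h5⟩ := h3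
      constructor
      · linear_combination h4
      · linear_combination h5

include hK in
theorem trans_B (hA : A ≠ ⊥) (m : Af) (hm : m ∈ B) : lin m = 1 := by
  obtain ⟨s, t, hst, hA1⟩ := exists_tr hcomm hH hA
  have fix : ∀ p q : ℤ, tr p q ∈ A → m.a * p + m.b * q = p ∧ m.c * p + m.d * q = q := by
    intro p q hpq
    have h1 := hcomm _ hpq m hm
    have h2 : m * tr p q * m⁻¹ = tr p q := by
      rw [← h1]
      group
    rw [conj_tr] at h2
    exact ⟨congrArg Af.s h2, congrArg Af.t h2⟩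
  have h0 := norm_A hcomm hH (G 0) (by rw [lin_G]; exact G_mem (by omega)) _ hA1
  have h1 := norm_A hcomm hH (G 1) (by rw [lin_G]; exact G_mem (by omega)) _ hA1
  rw [conj_tr] at h0 h1
  obtain ⟨f1, f2⟩ := fix _ _ hA1
  obtain ⟨f3, f4⟩ := fix _ _ h0
  obtain ⟨f5, f6⟩ := fix _ _ h1
  simp only [G_a, G_b, G_c, G_d] at f3 f4 f5 f6
  push_cast at f3 f4 f5 f6
  by_cases hs : s = 0
  · subst hs
    have ht : t ≠ 0 := fun h => hst ⟨rfl, h⟩
    have e1 : m.b = 0 := by
      have : m.b * t = 0 := by linear_combination f1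
      exact (mul_eq_zero.mp this).resolve_right ht
    have e2 : m.d = 1 := by
      have : (m.d - 1) * t = 0 := by linear_combination f2
      have := (mul_eq_zero.mp this).resolve_right ht
      omega
    have e3 : m.a = 1 := by
      rw [e1] at f5
      have : (m.a - 1) * (4 * t) = 0 := by linear_combination f5
      have := (mul_eq_zero.mp this).resolve_right (by omega)
      omega
    have e4 : m.c = 0 := by
      rw [e2] at f6
      have : m.c * (4 * t) = 0 := by linear_combination f6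
      exact (mul_eq_zero.mp this).resolve_right (by omega)
    ext <;> simp [e1, e2, e3, e4]
  · have e1 : m.b = 0 := by
      have : m.b * (2 * s) = 0 := by linear_combination f3 - f1
      rcases mul_eq_zero.mp this with h | h
      · exact h
      · omega
    have e2 : m.d = 1 := by
      have : (m.d - 1) * (2 * s) = 0 := by linear_combination f4 - f2
      rcases mul_eq_zero.mp this with h | h
      · omega
      · omega
    have e3 : m.a = 1 := by
      rw [e1] at f1
      have : (m.a - 1) * s = 0 := by linear_combination f1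
      have := (mul_eq_zero.mp this).resolve_right hs
      omega
    have e4 : m.c = 0 := by
      rw [e2] at f2
      have : m.c * s = 0 := by linear_combination f2
      exact (mul_eq_zero.mp this).resolve_right hs
    ext <;> simp [e1, e2, e3, e4]

include hK in
theorem key : A = ⊥ ∨ B = ⊥ := by
  by_contra hcon
  push Not at hcon
  obtain ⟨hA, hB⟩ := hcon
  have h1 := trans_B hK hcomm hH hA
  have h2 := trans_B hK (A := B) (B := A) (fun b hb a ha => (hcomm a ha b hb).symm)
    (fun h hh => by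
      obtain ⟨a, ha, b, hb, rfl⟩ := hH h hh
      exact ⟨b, hb, a, ha, hcomm a ha b hb⟩) hB
  obtain ⟨a, ha, b, hb, hab⟩ := hH (G 0) (by rw [lin_G]; exact G_mem (by omega))
  have h3 := congrArg lin hab
  rw [map_mul, h1 b hb, h2 a ha, lin_G] at h3
  have := congrArg Af.c h3
  simp at this

end key

/-- a direct decomposition of `GG Γ` coming from an isomorphism -/
theorem noniso {K : ℕ} (hK : 2 ≤ K) (Γ : Subgroup AA) (hΓ : ∀ i < K, (G i, G i) ∈ Γ)
    (e : GG (Full K) ≃* GG Γ) : (G 0, (1 : Af)) ∈ Γ := by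
  -- the two embeddings of the affine group with linear parts in `FK K`
  let H : Subgroup Af := (FK K).comap lin
  have hdiag : ∀ x ∈ FK K, (x, x) ∈ Γ := by
    intro x hx
    unfold FK at hx
    refine Subgroup.closure_induction (p := fun x _ => (x, x) ∈ Γ) ?_ ?_ ?_ ?_ hx
    · rintro _ ⟨i, hi, rfl⟩
      exact hΓ i hi
    · exact one_mem _
    · intro x y _ _ hx hy
      exact Γ.mul_mem hx hy
    · intro x _ hx
      exact Γ.inv_mem hx
  let i1 : H →* GG (Full K) :=
    { toFun := fun h => ⟨(h.1, 1), by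
        rw [mem_GG, mem_Full]
        exact ⟨h.2, by rw [map_one]; exact one_mem _⟩⟩
      map_one' := rfl
      map_mul' := fun x y => by
        apply Subtype.ext
        exact Prod.ext rfl (one_mul 1).symm }
  let i2 : H →* GG (Full K) :=
    { toFun := fun h => ⟨(1, h.1), by
        rw [mem_GG, mem_Full]
        exact ⟨by rw [map_one]; exact one_mem _, h.2⟩⟩
      map_one' := rfl
      map_mul' := fun x y => by
        apply Subtype.ext
        exact Prod.ext (one_mul 1).symm rfl }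
  let α : H →* AA := (GG Γ).subtype.comp (e.toMonoidHom.comp i1)
  let β : H →* AA := (GG Γ).subtype.comp (e.toMonoidHom.comp i2)
  have hαm : ∀ h, α h ∈ GG Γ := fun h => (e (i1 h)).2
  have hβm : ∀ h, β h ∈ GG Γ := fun h => (e (i2 h)).2
  have hαi : Function.Injective α := by
    intro x y hxy
    have h1 : e (i1 x) = e (i1 y) := Subtype.ext hxy
    have h2 := e.injective h1
    exact Subtype.ext (congrArg (fun g : GG (Full K) => g.1.1) h2)
  have hβi : Function.Injective β := by
    intro x y hxy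
    have h1 : e (i2 x) = e (i2 y) := Subtype.ext hxy
    have h2 := e.injective h1
    exact Subtype.ext (congrArg (fun g : GG (Full K) => g.1.2) h2)
  have hcomm : ∀ x y, α x * β y = β y * α x := by
    intro x y
    have h1 : i1 x * i2 y = i2 y * i1 x := by
      apply Subtype.ext
      exact Prod.ext (by change x.1 * 1 = 1 * x.1; rw [mul_one, one_mul])
        (by change 1 * y.1 = y.1 * 1; rw [mul_one, one_mul])
    have h2 := congrArg e h1
    rw [map_mul, map_mul] at h2
    exact congrArg Subtype.val h2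
  have hgen : ∀ g ∈ GG Γ, ∃ x y, g = α x * β y := by
    intro g hg
    obtain ⟨f, hf⟩ := e.surjective ⟨g, hg⟩
    have hf2 := f.2
    rw [mem_GG, mem_Full] at hf2
    refine ⟨⟨f.1.1, hf2.1⟩, ⟨f.1.2, hf2.2⟩, ?_⟩
    have h1 : f = i1 ⟨f.1.1, hf2.1⟩ * i2 ⟨f.1.2, hf2.2⟩ := by
      apply Subtype.ext
      exact Prod.ext (mul_one _).symm (one_mul _).symm
    have h2 := congrArg e h1
    rw [hf, map_mul] at h2
    exact congrArg Subtype.val h2
  have hdG : ∀ h : Af, lin h ∈ FK K → (h, h) ∈ GG Γ := fun h hh => hdiag _ hh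
  -- the key lemma in both coordinates
  have k1 := key hK (A := α.range.map (MonoidHom.fst Af Af)) (B := β.range.map (MonoidHom.fst Af Af))
    (by
      rintro _ ⟨_, ⟨x, rfl⟩, rfl⟩ _ ⟨_, ⟨y, rfl⟩, rfl⟩
      exact congrArg Prod.fst (hcomm x y))
    (by
      intro h hh
      obtain ⟨x, y, hxy⟩ := hgen _ (hdG h hh)
      exact ⟨_, ⟨_, ⟨x, rfl⟩, rfl⟩, _, ⟨_, ⟨y, rfl⟩, rfl⟩, congrArg Prod.fst hxy⟩)
  have k2 := key hK (A := α.range.map (MonoidHom.snd Af Af)) (B := β.range.map (MonoidHom.snd Af Af))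
    (by
      rintro _ ⟨_, ⟨x, rfl⟩, rfl⟩ _ ⟨_, ⟨y, rfl⟩, rfl⟩
      exact congrArg Prod.snd (hcomm x y))
    (by
      intro h hh
      obtain ⟨x, y, hxy⟩ := hgen _ (hdG h hh)
      exact ⟨_, ⟨_, ⟨x, rfl⟩, rfl⟩, _, ⟨_, ⟨y, rfl⟩, rfl⟩, congrArg Prod.snd hxy⟩)
  have hG0 : lin (G 0) ∈ FK K := by
    rw [lin_G]
    exact G_mem (by omega)
  have bot1 : ∀ f : H →* AA, f.range.map (MonoidHom.fst Af Af) = ⊥ → ∀ x, (f x).1 = 1 := by
    intro f hf x
    have : (f x).1 ∈ f.range.map (MonoidHom.fst Af Af) := ⟨_, ⟨x, rfl⟩, rfl⟩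
    rw [hf] at this
    exact this
  have bot2 : ∀ f : H →* AA, f.range.map (MonoidHom.snd Af Af) = ⊥ → ∀ x, (f x).2 = 1 := by
    intro f hf x
    have : (f x).2 ∈ f.range.map (MonoidHom.snd Af Af) := ⟨_, ⟨x, rfl⟩, rfl⟩
    rw [hf] at this
    exact this
  have hne : (⟨G 0, hG0⟩ : H) ≠ 1 := by
    intro h
    have h1 : G 0 = 1 := congrArg Subtype.val h
    have := congrArg Af.c h1
    simp at this
  have both : ∀ f : H →* AA, Function.Injective f → (∀ x, (f x).1 = 1) → (∀ x, (f x).2 = 1) →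
      False := by
    intro f hf h1 h2
    apply hne
    apply hf
    rw [map_one]
    exact Prod.ext (h1 _) (h2 _)
  obtain ⟨x, y, hxy⟩ := hgen _ (hdG (G 0) hG0)
  have hx1 : G 0 = (α x).1 * (β y).1 := congrArg Prod.fst hxy
  have hx2 : G 0 = (α x).2 * (β y).2 := congrArg Prod.snd hxy
  rcases k1 with h1 | h1 <;> rcases k2 with h2 | h2
  · exact (both α hαi (bot1 α h1) (bot2 α h2)).elim
  · rw [bot1 α h1, one_mul] at hx1
    have h3 := hβm y
    have h4 : β y = (G 0, 1) := Prod.ext hx1.symm (bot2 β h2 y)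
    rw [h4, mem_GG] at h3
    exact h3
  · rw [bot1 β h1, mul_one] at hx1
    have h3 := hαm x
    have h4 : α x = (G 0, 1) := Prod.ext hx1.symm (bot2 α h2 x)
    rw [h4, mem_GG] at h3
    exact h3
  · exact (both β hβi (bot1 β h1) (bot2 β h2)).elim

end Pool.Agent.Run7.h447
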