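import Pool.Agent.Run7.h447.AutDefs
import Pool.Agent.Run7.h447.FibCore

/-!
# The automata of affine maps
-/

set_option autoImplicit false

namespace Pool.Agent.Run7.h447

open Af V4

/-- four natural numbers, the entries of a matrix -/
abbrev M4 := ℕ × ℕ × ℕ × ℕ

/-- a pair of matrices -/
abbrev MM := M4 × M4

/-- the identity -/
def I4 : M4 := (1, 0, 0, 1)

/-- determinant one -/
def Det (p : M4) : Prop := (p.1 : ℤ) * p.2.2.2 - p.2.1 * p.2.2.1 = 1

instance (p : M4) : Decidable (Det p) := inferInstanceAs (Decidable (_ = _))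

/-- the affine map -/
def mkAf (p : M4) (s t : ℤ) : Af :=
  if h : Det p then ⟨p.1, p.2.1, p.2.2.1, p.2.2.2, s, t, h⟩ else 1

theorem mkAf_eq {p : M4} (h : Det p) (s t : ℤ) :
    mkAf p s t = ⟨p.1, p.2.1, p.2.2.1, p.2.2.2, s, t, h⟩ := dif_pos h

/-- the sum of the entries -/
def sm (p : MM) : ℕ :=
  p.1.1 + p.1.2.1 + p.1.2.2.1 + p.1.2.2.2 + (p.2.1 + p.2.2.1 + p.2.2.2.1 + p.2.2.2.2)

/-- the base of the numeration of the translation parts -/
def qq (P : List MM) : ℕ := (P.map sm).sum + 2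

/-- the entry with a given index -/
def ent (P : List MM) (i : ℕ) : MM := P.getD i (I4, I4)

/-- the coordinates of the image -/
def v0 (P : List MM) (s x : ℕ) : ℕ :=
  (ent P (s / qq P / qq P / qq P / qq P)).1.1 * (x % 2) +
    (ent P (s / qq P / qq P / qq P / qq P)).1.2.1 * (x / 2 % 2) + s % qq P
def v1 (P : List MM) (s x : ℕ) : ℕ :=
  (ent P (s / qq P / qq P / qq P / qq P)).1.2.2.1 * (x % 2) +
    (ent P (s / qq P / qq P / qq P / qq P)).1.2.2.2 * (x / 2 % 2) + s / qq P % qq P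
def v2 (P : List MM) (s x : ℕ) : ℕ :=
  (ent P (s / qq P / qq P / qq P / qq P)).2.1 * (x / 4 % 2) +
    (ent P (s / qq P / qq P / qq P / qq P)).2.2.1 * (x / 8 % 2) + s / qq P / qq P % qq P
def v3 (P : List MM) (s x : ℕ) : ℕ :=
  (ent P (s / qq P / qq P / qq P / qq P)).2.2.2.1 * (x / 4 % 2) +
    (ent P (s / qq P / qq P / qq P / qq P)).2.2.2.2 * (x / 8 % 2) + s / qq P / qq P / qq P % qq P

/-- the number of a state -/
def num (q d0 d1 d2 d3 i : ℕ) : ℕ := d0 + q * (d1 + q * (d2 + q * (d3 + q * i)))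

/-- next state -/
def nx (P : List MM) (s x : ℕ) : ℕ :=
  num (qq P) (v0 P s x / 2) (v1 P s x / 2) (v2 P s x / 2) (v3 P s x / 2)
    (s / qq P / qq P / qq P / qq P)

/-- output -/
def ox (P : List MM) (s x : ℕ) : ℕ :=
  v0 P s x % 2 + 2 * (v1 P s x % 2) + 4 * (v2 P s x % 2) + 8 * (v3 P s x % 2)

/-- the number of states -/
def ns (P : List MM) : ℕ := P.length * qq P * qq P * qq P * qq P

/-- the table -/
def tab (P : List MM) : ℕ × List (List (ℕ × ℕ)) :=
  (16, (List.range (ns P)).map fun s => (List.range 16).map fun x => (nx P s x, ox P s x))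

/-! ### digits -/

theorem qpos (P : List MM) : 2 ≤ qq P := by
  unfold qq
  omega

theorem step_div {q d n : ℕ} (hd : d < q) : (d + q * n) / q = n := by
  rw [Nat.add_mul_div_left _ _ (by omega), Nat.div_eq_of_lt hd, Nat.zero_add]

theorem step_mod {q d n : ℕ} (hd : d < q) : (d + q * n) % q = d := by
  rw [Nat.add_mul_mod_self_left, Nat.mod_eq_of_lt hd]

theorem num_digits {q d0 d1 d2 d3 i : ℕ} (h0 : d0 < q) (h1 : d1 < q) (h2 : d2 < q) (h3 : d3 < q) :
    num q d0 d1 d2 d3 i % q = d0 ∧ num q d0 d1 d2 d3 i / q % q = d1 ∧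
    num q d0 d1 d2 d3 i / q / q % q = d2 ∧ num q d0 d1 d2 d3 i / q / q / q % q = d3 ∧
    num q d0 d1 d2 d3 i / q / q / q / q = i := by
  unfold num
  rw [step_div h0, step_div h1, step_div h2, step_div h3]
  exact ⟨step_mod h0, step_mod h1, step_mod h2, step_mod h3, rfl⟩

theorem lt_ns_iff (P : List MM) (s : ℕ) :
    s < ns P ↔ s / qq P / qq P / qq P / qq P < P.length := by
  have hq := qpos P
  unfold ns
  rw [Nat.div_lt_iff_lt_mul (by omega), Nat.div_lt_iff_lt_mul (by omega),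
    Nat.div_lt_iff_lt_mul (by omega), Nat.div_lt_iff_lt_mul (by omega)]

/-- the state as a pair of affine maps -/
def st (P : List MM) (s : ℕ) : AA :=
  (mkAf (ent P (s / qq P / qq P / qq P / qq P)).1 (s % qq P : ℕ) (s / qq P % qq P : ℕ),
   mkAf (ent P (s / qq P / qq P / qq P / qq P)).2 (s / qq P / qq P % qq P : ℕ)
    (s / qq P / qq P / qq P % qq P : ℕ))

/-- all determinants are one -/
def Good (P : List MM) : Prop := ∀ p ∈ P, Det p.1 ∧ Det p.2

theorem ent_mem {P : List MM} {i : ℕ} (hi : i < P.length) : ent P i ∈ P := by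
  unfold ent
  rw [List.getD_eq_getElem _ _ hi]
  exact List.getElem_mem hi

theorem sm_le {P : List MM} {p : MM} (hp : p ∈ P) : sm p + 2 ≤ qq P := by
  unfold qq
  have := List.single_le_sum (l := P.map sm) (fun _ _ => Nat.zero_le _) (sm p)
    (List.mem_map_of_mem hp)
  omega

theorem half_lt {q a b x y d S : ℕ} (hS : a + b ≤ S) (hq : S + 2 ≤ q) (hd : d < q) (hx : x < 2)
    (hy : y < 2) : (a * x + b * y + d) / 2 < q := by
  have h1 : a * x ≤ a := by nlinarith
  have h2 : b * y ≤ b := by nlinarith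
  omega

section

variable {P : List MM} {s : ℕ} (hs : s < ns P)

include hs

theorem v_lt (x : ℕ) : v0 P s x / 2 < qq P ∧ v1 P s x / 2 < qq P ∧ v2 P s x / 2 < qq P ∧
    v3 P s x / 2 < qq P := by
  have hq := qpos P
  have h1 := sm_le (ent_mem ((lt_ns_iff P s).mp hs))
  have hm : ∀ y, y % qq P < qq P := fun y => Nat.mod_lt _ (by omega)
  have h2 : ∀ y, y % 2 < 2 := fun y => Nat.mod_lt _ (by omega)
  unfold sm at h1
  refine ⟨?_, ?_, ?_, ?_⟩
  · exact half_lt le_rfl (by omega) (hm _) (h2 _) (h2 _)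
  · exact half_lt le_rfl (by omega) (hm _) (h2 _) (h2 _)
  · exact half_lt le_rfl (by omega) (hm _) (h2 _) (h2 _)
  · exact half_lt le_rfl (by omega) (hm _) (h2 _) (h2 _)

theorem nx_lt (x : ℕ) : nx P s x < ns P := by
  obtain ⟨h0, h1, h2, h3⟩ := v_lt hs x
  rw [lt_ns_iff]
  unfold nx
  rw [(num_digits h0 h1 h2 h3).2.2.2.2]
  exact (lt_ns_iff P s).mp hs

omit hs in
theorem ox_lt (x : ℕ) : ox P s x < 16 := by
  unfold ox
  omega

variable (hP : Good P)

include hP

theorem ap_st (x : Fin 16) :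
    ap (st P s) (dec x) = ⟨v0 P s x, v1 P s x, v2 P s x, v3 P s x⟩ := by
  obtain ⟨d1, d2⟩ := hP _ (ent_mem ((lt_ns_iff P s).mp hs))
  unfold st
  rw [mkAf_eq d1, mkAf_eq d2]
  unfold ap dec v0 v1 v2 v3
  ext <;> push_cast <;> rfl

theorem enc_st (x : Fin 16) : (V4.enc (ap (st P s) (dec x)) : ℕ) = ox P s x := by
  rw [ap_st hs hP]
  unfold V4.enc ox
  dsimp only
  omega

theorem sec_st (x : Fin 16) : sec (st P s) x = st P (nx P s x) := by
  obtain ⟨d1, d2⟩ := hP _ (ent_mem ((lt_ns_iff P s).mp hs))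
  obtain ⟨h0, h1, h2, h3⟩ := v_lt hs x
  obtain ⟨e0, e1, e2, e3, e4⟩ := num_digits (i := s / qq P / qq P / qq P / qq P) h0 h1 h2 h3
  unfold sec
  rw [ap_st hs hP]
  have hn : nx P s x = num (qq P) (v0 P s x / 2) (v1 P s x / 2) (v2 P s x / 2) (v3 P s x / 2)
    (s / qq P / qq P / qq P / qq P) := rfl
  rw [hn]
  conv_rhs => unfold st
  rw [e0, e1, e2, e3, e4, mkAf_eq d1, mkAf_eq d2]
  unfold st
  simp only [mkAf_eq d1, mkAf_eq d2]
  unfold half
  push_cast
  rfl

end

/-- the automaton -/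
def autom (P : List MM) (h0 : P ≠ []) (hP : Good P) : Automaton where
  m := ns P
  n := 16
  one_le := by
    have h1 : 0 < P.length := List.length_pos_iff.mpr h0
    have := (lt_ns_iff P 0).mpr (by simpa using h1)
    omega
  two_le := by norm_num
  tr s x := ⟨nx P s x, nx_lt s.2 x⟩
  out s x := ⟨ox P s x, ox_lt x⟩
  bij s := by
    rw [← Finite.injective_iff_bijective]
    intro x y hxy
    have h1 : V4.enc (ap (st P s) (dec x)) = V4.enc (ap (st P s) (dec y)) := by
      apply Fin.ext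
      rw [enc_st s.2 hP, enc_st s.2 hP]
      exact congrArg Fin.val hxy
    have h2 : rho (st P s) [x] = rho (st P s) [y] := by
      rw [rho_apply, rho_apply]
      simp only [tw]
      rw [h1]
    have h3 := (rho (st P s)).injective h2
    simpa using h3

theorem ofFn_val {α : Type} (n : ℕ) (f : ℕ → α) :
    (List.ofFn fun i : Fin n => f i) = (List.range n).map f := by
  apply List.ext_getElem
  · simp
  · intro i h1 h2
    simp

theorem code_autom (P : List MM) (h0 : P ≠ []) (hP : Good P) :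
    (autom P h0 hP).code = tab P := by
  unfold Automaton.code tab
  refine Prod.ext rfl ?_
  change (List.ofFn fun s : Fin (ns P) => List.ofFn fun x : Fin 16 => (nx P s x, ox P s x)) = _
  rw [ofFn_val (ns P) (fun s => List.ofFn fun x : Fin 16 => (nx P s x, ox P s x))]
  apply List.map_congr_left
  intro s _
  exact ofFn_val 16 (fun x => (nx P s x, ox P s x))

theorem act_autom (P : List MM) (h0 : P ≠ []) (hP : Good P) (s : Fin (ns P))
    (w : List (Fin 16)) : (autom P h0 hP).act s w = tw (st P s) w := by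
  induction w generalizing s with
  | nil => rfl
  | cons x w ih =>
    refine congrArg₂ List.cons (Fin.ext (enc_st s.2 hP x).symm) ?_
    rw [sec_st s.2 hP]
    exact ih ⟨nx P s x, nx_lt s.2 x⟩

/-- the linear parts of a list of pairs of matrices -/
def LP (P : List MM) : Subgroup AA :=
  Subgroup.closure {g | ∃ p ∈ P, g = (mkAf p.1 0 0, mkAf p.2 0 0)}

/-- the set of the states -/
def Sts (P : List MM) : Set AA := {g | ∃ s < ns P, g = st P s}

theorem Grp_autom (P : List MM) (h0 : P ≠ []) (hP : Good P) :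
    (autom P h0 hP).Grp = (Subgroup.closure (Sts P)).map rho := by
  rw [MonoidHom.map_closure]
  unfold Automaton.Grp
  congr 1
  ext π
  constructor
  · rintro ⟨s, rfl⟩
    refine ⟨st P s, ⟨s.1, s.2, rfl⟩, ?_⟩
    apply Equiv.ext
    intro w
    exact (act_autom P h0 hP s w).symm
  · rintro ⟨_, ⟨s, hs, rfl⟩, rfl⟩
    refine ⟨⟨s, hs⟩, ?_⟩
    apply Equiv.ext
    intro w
    exact act_autom P h0 hP ⟨s, hs⟩ w

theorem lin_mkAf {p : M4} (h : Det p) (s t : ℤ) : lin (mkAf p s t) = mkAf p 0 0 := by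
  rw [mkAf_eq h, mkAf_eq h]
  rfl

theorem st_num {P : List MM} {d0 d1 d2 d3 i : ℕ} (h0 : d0 < qq P) (h1 : d1 < qq P)
    (h2 : d2 < qq P) (h3 : d3 < qq P) (hi : i < P.length) :
    num (qq P) d0 d1 d2 d3 i < ns P ∧
    st P (num (qq P) d0 d1 d2 d3 i) = (mkAf (ent P i).1 d0 d1, mkAf (ent P i).2 d2 d3) := by
  obtain ⟨e0, e1, e2, e3, e4⟩ := num_digits (i := i) h0 h1 h2 h3
  constructor
  · rw [lt_ns_iff, e4]
    exact hi
  · unfold st
    rw [e0, e1, e2, e3, e4]

theorem mem_iff_ent {P : List MM} {p : MM} (hp : p ∈ P) : ∃ i < P.length, ent P i = p := by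
  obtain ⟨i, hi, rfl⟩ := List.mem_iff_getElem.mp hp
  exact ⟨i, hi, List.getD_eq_getElem _ _ hi⟩

theorem det_I4 : Det I4 := by
  unfold Det I4
  norm_num

theorem mkAf_I4 (s t : ℤ) : mkAf I4 s t = tr s t := by
  rw [mkAf_eq det_I4]
  rfl

theorem tr_zpow (s t : ℤ) (n : ℤ) : tr s t ^ n = tr (n * s) (n * t) := by
  induction n using Int.induction_on with
  | zero =>
    rw [zpow_zero]
    ext <;> simp
  | succ n ih =>
    rw [zpow_add_one, ih, tr_mul]
    congr 1 <;> ring
  | pred n ih =>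
    rw [zpow_sub_one, ih, tr_inv, tr_mul]
    congr 1 <;> ring

theorem closure_Sts (P : List MM) (hP : Good P) (hI : (I4, I4) ∈ P) :
    Subgroup.closure (Sts P) = GG (LP P) := by
  have hq := qpos P
  apply le_antisymm
  · rw [Subgroup.closure_le]
    rintro _ ⟨s, hs, rfl⟩
    obtain ⟨d1, d2⟩ := hP _ (ent_mem ((lt_ns_iff P s).mp hs))
    change st P s ∈ GG (LP P)
    rw [mem_GG]
    unfold st
    rw [lin_mkAf d1, lin_mkAf d2]
    exact Subgroup.subset_closure ⟨_, ent_mem ((lt_ns_iff P s).mp hs), rfl⟩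
  · have hlin : LP P ≤ Subgroup.closure (Sts P) := by
      unfold LP
      rw [Subgroup.closure_le]
      rintro _ ⟨p, hp, rfl⟩
      obtain ⟨i, hi, rfl⟩ := mem_iff_ent hp
      obtain ⟨h1, h2⟩ := st_num (P := P) (d0 := 0) (d1 := 0) (d2 := 0) (d3 := 0) (by omega)
        (by omega) (by omega) (by omega) hi
      refine Subgroup.subset_closure ⟨_, h1, ?_⟩
      rw [h2]
      rfl
    obtain ⟨i, hi, hiI⟩ := mem_iff_ent hI
    have ht : ∀ a b c d : ℕ, a < 2 → b < 2 → c < 2 → d < 2 →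
        (tr a b, tr c d) ∈ Subgroup.closure (Sts P) := by
      intro a b c d ha hb hc hd
      obtain ⟨h1, h2⟩ := st_num (P := P) (d0 := a) (d1 := b) (d2 := c) (d3 := d) (by omega)
        (by omega) (by omega) (by omega) hi
      refine Subgroup.subset_closure ⟨_, h1, ?_⟩
      rw [h2, hiI, mkAf_I4, mkAf_I4]
    have hall : ∀ a b c d : ℤ, (tr a b, tr c d) ∈ Subgroup.closure (Sts P) := by
      intro a b c d
      have e1 := Subgroup.zpow_mem _ (ht 1 0 0 0 (by omega) (by omega) (by omega) (by omega)) a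
      have e2 := Subgroup.zpow_mem _ (ht 0 1 0 0 (by omega) (by omega) (by omega) (by omega)) b
      have e3 := Subgroup.zpow_mem _ (ht 0 0 1 0 (by omega) (by omega) (by omega) (by omega)) c
      have e4 := Subgroup.zpow_mem _ (ht 0 0 0 1 (by omega) (by omega) (by omega) (by omega)) d
      have h := Subgroup.mul_mem _ (Subgroup.mul_mem _ e1 e2) (Subgroup.mul_mem _ e3 e4)
      have e : (tr a b, tr c d) =
          ((tr ((1 : ℕ) : ℤ) ((0 : ℕ) : ℤ), tr ((0 : ℕ) : ℤ) ((0 : ℕ) : ℤ)) ^ a *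
          (tr ((0 : ℕ) : ℤ) ((1 : ℕ) : ℤ), tr ((0 : ℕ) : ℤ) ((0 : ℕ) : ℤ)) ^ b) *
          ((tr ((0 : ℕ) : ℤ) ((0 : ℕ) : ℤ), tr ((1 : ℕ) : ℤ) ((0 : ℕ) : ℤ)) ^ c *
          (tr ((0 : ℕ) : ℤ) ((0 : ℕ) : ℤ), tr ((0 : ℕ) : ℤ) ((1 : ℕ) : ℤ)) ^ d) := by
        apply Prod.ext
        · simp only [Prod.fst_mul, Prod.pow_fst, tr_zpow, tr_mul]
          congr 1 <;> push_cast <;> ring
        · simp only [Prod.snd_mul, Prod.pow_snd, tr_zpow, tr_mul]
          congr 1 <;> push_cast <;> ring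
      rw [e]
      exact h
    intro g hg
    rw [mem_GG] at hg
    have h1 := Subgroup.mul_mem _ (hall g.1.s g.1.t g.2.s g.2.t) (hlin hg)
    have h2 : (tr g.1.s g.1.t, tr g.2.s g.2.t) * (lin g.1, lin g.2) = g := by
      apply Prod.ext
      · exact (eq_tr_lin g.1).symm
      · exact (eq_tr_lin g.2).symm
    rwa [h2] at h1

/-- the group of the automaton -/
noncomputable def grpEquiv (P : List MM) (h0 : P ≠ []) (hP : Good P) (hI : (I4, I4) ∈ P) :
    (autom P h0 hP).Grp ≃* GG (LP P) :=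
  (MulEquiv.subgroupCongr (by rw [Grp_autom P h0 hP, closure_Sts P hP hI])).trans
    ((GG (LP P)).equivMapOfInjective rho rho_injective).symm

end Pool.Agent.Run7.h447
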