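import Mathlib

namespace Run7.h447.Sph

/-- A finite abstract simplicial complex (on a ground set `V`; the vertices are the `v` with
`{v} ∈ Δ`). -/
def IsComplex {V : Type} (Δ : Finset (Finset V)) : Prop :=
  ∅ ∈ Δ ∧ ∀ σ ∈ Δ, ∀ τ, τ ⊆ σ → τ ∈ Δ

/-- The link of `σ` in `Δ`. -/
def link {V : Type} [DecidableEq V] (Δ : Finset (Finset V)) (σ : Finset V) :
    Finset (Finset V) :=
  Δ.filter fun τ => Disjoint τ σ ∧ τ ∪ σ ∈ Δ

/-- A missing face: a non-face all of whose proper subsets are faces. -/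
def IsMissingFace {V : Type} (Δ : Finset (Finset V)) (τ : Finset V) : Prop :=
  τ ∉ Δ ∧ ∀ ρ, ρ ⊂ τ → ρ ∈ Δ

/-- The `ℤ/2`-chains of `Δ` spanned by the faces with `n` vertices. -/
def chains {V : Type} (Δ : Finset (Finset V)) (n : ℕ) :
    Submodule (ZMod 2) (Finset V → ZMod 2) where
  carrier := {c | ∀ σ, c σ ≠ 0 → σ ∈ Δ ∧ σ.card = n}
  zero_mem' := fun σ h => absurd rfl h
  add_mem' := by
    intro a b ha hb σ h
    by_cases h1 : a σ = 0
    · refine hb σ fun h2 => h ?_
      rw [Pi.add_apply, h1, h2, add_zero]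
    · exact ha σ h1
  smul_mem' := by
    intro r a ha σ h
    refine ha σ fun h2 => h ?_
    rw [Pi.smul_apply, h2, smul_zero]

/-- The simplicial boundary map over `ℤ/2`. -/
def bd {V : Type} [Fintype V] [DecidableEq V] :
    (Finset V → ZMod 2) →ₗ[ZMod 2] (Finset V → ZMod 2) where
  toFun c := fun τ => ∑ v ∈ Finset.univ.filter (fun v => v ∉ τ), c (insert v τ)
  map_add' := by
    intro a b
    funext τ
    simp [Finset.sum_add_distrib]
  map_smul' := by
    intro r a
    funext τ
    simp [Finset.mul_sum]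

/-- Cycles with `n`-vertex faces (for `n = 0` every chain is a cycle: augmented complex). -/
def cycles {V : Type} [Fintype V] [DecidableEq V] (Δ : Finset (Finset V)) (n : ℕ) :
    Submodule (ZMod 2) (Finset V → ZMod 2) :=
  chains Δ n ⊓ LinearMap.ker bd

/-- Boundaries with `n`-vertex faces. -/
def boundaries {V : Type} [Fintype V] [DecidableEq V] (Δ : Finset (Finset V)) (n : ℕ) :
    Submodule (ZMod 2) (Finset V → ZMod 2) :=
  (chains Δ (n + 1)).map bd

/-- `Δ` has the reduced `ℤ/2`-homology of the sphere of dimension `m - 1`: the reduced homology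
in dimension `n - 1` (faces with `n` vertices) has rank one for `n = m` and zero otherwise. -/
def HasSphereHomology {V : Type} [Fintype V] [DecidableEq V] (Δ : Finset (Finset V)) (m : ℕ) :
    Prop :=
  ∀ n, Module.finrank (ZMod 2) (cycles Δ n) =
    Module.finrank (ZMod 2) (boundaries Δ n) + if n = m then 1 else 0

/-- A `ℤ/2`-homology `(d-1)`-sphere. -/
def IsSphere {V : Type} [Fintype V] [DecidableEq V] (Δ : Finset (Finset V)) (d : ℕ) : Prop :=
  IsComplex Δ ∧ (∀ σ ∈ Δ, ∃ τ ∈ Δ, σ ⊆ τ ∧ τ.card = d) ∧ (∀ σ ∈ Δ, σ.card ≤ d) ∧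
    ∀ σ ∈ Δ, HasSphereHomology (link Δ σ) (d - σ.card)

/-- The number of faces with `k` vertices, i.e. `f_{k-1}`. -/
def fnum {V : Type} (Δ : Finset (Finset V)) (k : ℕ) : ℕ :=
  (Δ.filter fun σ => σ.card = k).card

/-- The `h`-numbers of a `(d-1)`-dimensional complex. -/
def hnum {V : Type} (Δ : Finset (Finset V)) (d j : ℕ) : ℤ :=
  ∑ k ∈ Finset.range (j + 1), (-1) ^ (j - k) * ((d - k).choose (d - j) : ℤ) * (fnum Δ k : ℤ)

/-- The `g`-numbers of a `(d-1)`-dimensional complex. -/
def gnum {V : Type} (Δ : Finset (Finset V)) (d j : ℕ) : ℤ :=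
  if j = 0 then 1 else hnum Δ d j - hnum Δ d (j - 1)

/-- The join of `q` copies of the boundary of the `i`-simplex and the boundary of the
`r`-simplex. -/
def KK (q i r : ℕ) : Finset (Finset (Fin q × Fin (i + 1) ⊕ Fin (r + 1))) :=
  Finset.univ.filter fun F =>
    (∀ a : Fin q, ∃ t : Fin (i + 1), Sum.inl (a, t) ∉ F) ∧ ∃ t : Fin (r + 1), Sum.inr t ∉ F

/-- `Δ` is isomorphic to the complex `K`, all elements of whose ground set are vertices:
the faces of `Δ` are the images of the faces of `K` under an injection of the ground sets. -/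
def IsIsoTo {V W : Type} (Δ : Finset (Finset V)) (K : Finset (Finset W)) : Prop :=
  ∃ f : W ↪ V, ∀ F : Finset V, F ∈ Δ ↔ ∃ G ∈ K, F = G.map f

end Run7.h447.Sph
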