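import Pool.Agent.Run7.h447.SphFacets

namespace Run7.h447.Sph

variable {V : Type} [Fintype V] [DecidableEq V]

theorem mem_chains {Δ : Finset (Finset V)} {n : ℕ} {c : Finset V → ZMod 2} :
    c ∈ chains Δ n ↔ ∀ σ, c σ ≠ 0 → σ ∈ Δ ∧ σ.card = n := Iff.rfl

/-- chains are functions on the faces -/
noncomputable def chainsEquiv (Δ : Finset (Finset V)) (n : ℕ) :
    chains Δ n ≃ₗ[ZMod 2] ({σ : Finset V // σ ∈ Δ.filter fun σ => σ.card = n} → ZMod 2) where
  toFun c := fun σ => c.1 σ.1
  map_add' := fun a b => rfl
  map_smul' := fun r a => rfl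
  invFun g := ⟨fun σ => if h : σ ∈ Δ.filter (fun σ => σ.card = n) then g ⟨σ, h⟩ else 0, by
    intro σ hσ
    by_contra hcon
    apply hσ
    exact dif_neg (by rw [Finset.mem_filter]; exact hcon)⟩
  left_inv := by
    intro c
    apply Subtype.ext
    funext σ
    by_cases h : σ ∈ Δ.filter (fun σ => σ.card = n)
    · simp only [dif_pos h]
    · simp only [dif_neg h]
      by_contra hcon
      apply h
      rw [Finset.mem_filter]
      exact c.2 σ (fun h0 => hcon h0.symm)
  right_inv := by
    intro g
    funext σ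
    simp only [dif_pos σ.2]

theorem finrank_chains (Δ : Finset (Finset V)) (n : ℕ) :
    Module.finrank (ZMod 2) (chains Δ n) = fnum Δ n := by
  rw [LinearEquiv.finrank_eq (chainsEquiv Δ n), Module.finrank_fintype_fun_eq_card]
  simp only [Fintype.card_coe, fnum]

theorem finrank_succ (Δ : Finset (Finset V)) (n : ℕ) :
    fnum Δ (n + 1) = Module.finrank (ZMod 2) (cycles Δ (n + 1)) +
      Module.finrank (ZMod 2) (boundaries Δ n) := by
  rw [← finrank_chains]
  have h := LinearMap.finrank_range_add_finrank_ker
    ((bd (V := V)).domRestrict (chains Δ (n + 1)))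
  rw [← h, add_comm]
  congr 1
  · rw [LinearMap.ker_domRestrict]
    have e : Submodule.map (chains Δ (n + 1)).subtype
        (Submodule.comap (chains Δ (n + 1)).subtype (LinearMap.ker bd)) = cycles Δ (n + 1) := by
      rw [Submodule.map_comap_subtype]; rfl
    rw [← e]
    exact (Submodule.finrank_map_subtype_eq _ _).symm
  · rw [LinearMap.range_domRestrict]
    rfl

theorem finrank_zero (Δ : Finset (Finset V)) :
    fnum Δ 0 = Module.finrank (ZMod 2) (cycles Δ 0) := by
  rw [← finrank_chains]
  have : cycles Δ 0 = chains Δ 0 := by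
    apply le_antisymm inf_le_left
    refine le_inf le_rfl ?_
    intro c hc
    rw [LinearMap.mem_ker]
    funext τ
    change ∑ v ∈ Finset.univ.filter (fun v => v ∉ τ), c (insert v τ) = 0
    refine Finset.sum_eq_zero fun v _ => ?_
    by_contra hcon
    have := (hc _ hcon).2
    rw [Finset.card_eq_zero] at this
    exact Finset.insert_ne_empty _ _ this
  rw [this]

theorem sum_range (Δ : Finset (Finset V)) (m : ℕ) (h : HasSphereHomology Δ m) (N : ℕ) :
    ∑ n ∈ Finset.range (N + 1), (-1 : ℤ) ^ n * fnum Δ n =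
      (if m ≤ N then (-1) ^ m else 0) +
        (-1) ^ N * Module.finrank (ZMod 2) (boundaries Δ N) := by
  induction N with
  | zero =>
    rw [zero_add, Finset.sum_range_one, finrank_zero, h 0]
    by_cases hm : m = 0
    · subst hm; simp; ring
    · rw [if_neg (Ne.symm hm), if_neg (by omega)]; simp
  | succ N ih =>
    rw [Finset.sum_range_succ, ih, finrank_succ, h (N + 1)]
    by_cases hm : m ≤ N
    · have e1 : (if N + 1 = m then 1 else 0) = 0 := if_neg (by omega)
      rw [e1, if_pos hm, if_pos (by omega)]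
      push_cast
      ring
    · by_cases hm' : m = N + 1
      · subst hm'
        rw [if_neg (by omega), if_pos le_rfl, if_pos rfl]
        push_cast
        ring
      · have e1 : (if N + 1 = m then 1 else 0) = 0 := if_neg (by omega)
        rw [e1, if_neg hm, if_neg (by omega)]
        push_cast
        ring

theorem fnum_zero_of_lt (Δ : Finset (Finset V)) (n : ℕ) (h : Fintype.card V < n) :
    fnum Δ n = 0 := by
  rw [fnum, Finset.card_eq_zero, Finset.filter_eq_empty_iff]
  intro σ _ hσ
  have := Finset.card_le_univ σ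
  omega

theorem euler (Δ : Finset (Finset V)) (m : ℕ) (h : HasSphereHomology Δ m) :
    ∑ F ∈ Δ, (-1 : ℤ) ^ F.card = (-1) ^ m := by
  have h1 := sum_range Δ m h (max m (Fintype.card V))
  rw [if_pos (le_max_left _ _)] at h1
  have h2 : Module.finrank (ZMod 2) (boundaries Δ (max m (Fintype.card V))) = 0 := by
    have := finrank_succ Δ (max m (Fintype.card V))
    rw [fnum_zero_of_lt Δ _ (by have := le_max_right m (Fintype.card V); omega)] at this
    omega
  rw [h2, Nat.cast_zero, mul_zero, add_zero] at h1
  rw [← h1]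
  rw [← Finset.sum_fiberwise_of_maps_to
    (t := Finset.range (max m (Fintype.card V) + 1)) (g := fun F => F.card)]
  · refine Finset.sum_congr rfl fun n _ => ?_
    rw [Finset.sum_congr rfl (g := fun _ => (-1 : ℤ) ^ n)]
    · rw [Finset.sum_const, nsmul_eq_mul, mul_comm]; rfl
    · intro F hF
      rw [(Finset.mem_filter.1 hF).2]
  · intro F _
    rw [Finset.mem_range]
    have := Finset.card_le_univ F
    have := le_max_right m (Fintype.card V)
    omega

/-- the sum over the faces containing a given one -/
theorem euler_above {Δ : Finset (Finset V)} {d : ℕ} (h : IsSphere Δ d) {σ : Finset V}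
    (hσ : σ ∈ Δ) :
    ∑ F ∈ Δ.filter (fun F => σ ⊆ F), (-1 : ℤ) ^ F.card = (-1) ^ d := by
  have h1 := euler _ _ (h.2.2.2 σ hσ)
  have hle := h.2.2.1 σ hσ
  have h2 : (-1 : ℤ) ^ d = (-1) ^ σ.card * (-1) ^ (d - σ.card) := by
    rw [← pow_add]; congr 1; omega
  rw [h2, ← h1, Finset.mul_sum]
  symm
  refine Finset.sum_bij (fun F _ => F ∪ σ) ?_ ?_ ?_ ?_
  · intro F hF
    rw [mem_link' h.1] at hF
    exact Finset.mem_filter.2 ⟨hF.2, Finset.subset_union_right⟩
  · intro F hF G hG hFG
    have hF' := ((mem_link' h.1).1 hF).1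
    have hG' := ((mem_link' h.1).1 hG).1
    have : (F ∪ σ) \ σ = (G ∪ σ) \ σ := by rw [hFG]
    rwa [Finset.union_sdiff_cancel_right hF', Finset.union_sdiff_cancel_right hG'] at this
  · intro F hF
    rw [Finset.mem_filter] at hF
    refine ⟨F \ σ, ?_, Finset.sdiff_union_of_subset hF.2⟩
    rw [mem_link' h.1, Finset.sdiff_union_of_subset hF.2]
    exact ⟨Finset.sdiff_disjoint, hF.1⟩
  · intro F hF
    rw [Finset.card_union_of_disjoint ((mem_link' h.1).1 hF).1, pow_add, mul_comm]

theorem sphere_cls {Δ : Finset (Finset V)} {d : ℕ} (h : IsSphere Δ d) : Cls Δ d := by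
  refine ⟨h.1, h.2.1, h.2.2.1, ?_⟩
  intro F hF hc u hu
  have hσ : F.erase u ∈ Δ := h.1.2 _ hF _ (Finset.erase_subset _ _)
  have hcard : (F.erase u).card = d - 1 := by rw [Finset.card_erase_of_mem hu, hc]
  have hd : 0 < d := by rw [← hc]; exact Finset.card_pos.2 ⟨u, hu⟩
  by_contra hcon
  push Not at hcon
  have h1 := euler_above h hσ
  have h2 : Δ.filter (fun G => F.erase u ⊆ G) = {F.erase u, F} := by
    ext G
    rw [Finset.mem_filter, Finset.mem_insert, Finset.mem_singleton]
    constructor
    · rintro ⟨hG, hs⟩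
      by_cases hGe : G = F.erase u
      · exact Or.inl hGe
      right
      obtain ⟨w, hw, hw'⟩ := Finset.exists_of_ssubset (Finset.ssubset_iff_subset_ne.2
        ⟨hs, fun h => hGe h.symm⟩)
      have hGc := h.2.2.1 G hG
      have hi : insert w (F.erase u) ⊆ G := Finset.insert_subset hw hs
      have hic : (insert w (F.erase u)).card = d := by
        rw [Finset.card_insert_of_notMem hw', hcard]; omega
      have hGi : insert w (F.erase u) = G := Finset.eq_of_subset_of_card_le hi (by omega)
      by_cases hwF : w ∈ F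
      · have : w = u := by
          by_contra hne
          exact hw' (Finset.mem_erase.2 ⟨hne, hwF⟩)
        rw [← hGi, this, Finset.insert_erase hu]
      · exact absurd (hGi ▸ hG) (hcon w hwF)
    · rintro (rfl | rfl)
      · exact ⟨hσ, le_refl _⟩
      · exact ⟨hF, Finset.erase_subset _ _⟩
  have hne : F.erase u ≠ F := by
    intro h
    have := Finset.erase_eq_self.1 h
    exact this hu
  rw [h2, Finset.sum_pair hne, hcard, hc] at h1
  have h3 : (-1 : ℤ) ^ (d - 1) = 0 := by omega
  exact absurd h3 (by positivity)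

end Run7.h447.Sph
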