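import Pool.Agent.Run7.h447.SphDefs

namespace Run7.h447.Sph

variable {V : Type} [DecidableEq V]

/-- pure `(d-1)`-dimensional complexes all of whose ridges are in two facets -/
structure Cls (Δ : Finset (Finset V)) (d : ℕ) : Prop where
  cx : IsComplex Δ
  pure : ∀ σ ∈ Δ, ∃ τ ∈ Δ, σ ⊆ τ ∧ τ.card = d
  le : ∀ σ ∈ Δ, σ.card ≤ d
  ridge : ∀ F ∈ Δ, F.card = d → ∀ u ∈ F, ∃ w, w ∉ F ∧ insert w (F.erase u) ∈ Δ

theorem mem_link {Δ : Finset (Finset V)} {σ τ : Finset V} :
    τ ∈ link Δ σ ↔ τ ∈ Δ ∧ Disjoint τ σ ∧ τ ∪ σ ∈ Δ := by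
  simp [link]

theorem mem_link' {Δ : Finset (Finset V)} (h : IsComplex Δ) {σ τ : Finset V} :
    τ ∈ link Δ σ ↔ Disjoint τ σ ∧ τ ∪ σ ∈ Δ := by
  rw [mem_link]
  exact ⟨fun h => h.2, fun h' => ⟨h.2 _ h'.2 _ Finset.subset_union_left, h'⟩⟩

theorem link_complex {Δ : Finset (Finset V)} (h : IsComplex Δ) {σ : Finset V} (hσ : σ ∈ Δ) :
    IsComplex (link Δ σ) := by
  constructor
  · rw [mem_link' h]; simpa using hσ
  · intro τ hτ ρ hρ
    rw [mem_link' h] at hτ ⊢
    exact ⟨Disjoint.mono_left hρ hτ.1,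
      h.2 _ hτ.2 _ (Finset.union_subset_union hρ (le_refl _))⟩

theorem link_cls {Δ : Finset (Finset V)} {d : ℕ} (h : Cls Δ d) {σ : Finset V} (hσ : σ ∈ Δ) :
    Cls (link Δ σ) (d - σ.card) := by
  refine ⟨link_complex h.cx hσ, ?_, ?_, ?_⟩
  · intro τ hτ
    rw [mem_link' h.cx] at hτ
    obtain ⟨F, hF, hs, hc⟩ := h.pure _ hτ.2
    refine ⟨F \ σ, ?_, ?_, ?_⟩
    · rw [mem_link' h.cx]
      refine ⟨Finset.sdiff_disjoint, ?_⟩
      rw [Finset.sdiff_union_of_subset (Finset.subset_union_right.trans hs)]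
      exact hF
    · intro x hx
      rw [Finset.mem_sdiff]
      exact ⟨hs (Finset.mem_union_left _ hx), fun hx' => Finset.disjoint_left.1 hτ.1 hx hx'⟩
    · rw [Finset.card_sdiff_of_subset (Finset.subset_union_right.trans hs), hc]
  · intro τ hτ
    rw [mem_link' h.cx] at hτ
    have := h.le _ hτ.2
    rw [Finset.card_union_of_disjoint hτ.1] at this
    omega
  · intro F hF hc u hu
    rw [mem_link' h.cx] at hF
    have hle := h.le _ hσ
    have hc' : (F ∪ σ).card = d := by
      rw [Finset.card_union_of_disjoint hF.1, hc]; omega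
    obtain ⟨w, hw, hw'⟩ := h.ridge _ hF.2 hc' u (Finset.mem_union_left _ hu)
    rw [Finset.mem_union, not_or] at hw
    have huσ : u ∉ σ := Finset.disjoint_left.1 hF.1 hu
    refine ⟨w, hw.1, ?_⟩
    rw [mem_link' h.cx]
    constructor
    · rw [Finset.disjoint_left]
      intro x hx hxσ
      rw [Finset.mem_insert] at hx
      rcases hx with rfl | hx
      · exact hw.2 hxσ
      · exact Finset.disjoint_left.1 hF.1 (Finset.mem_of_mem_erase hx) hxσ
    · convert hw' using 1
      ext x
      simp only [Finset.mem_union, Finset.mem_insert, Finset.mem_erase]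
      constructor
      · rintro ((h | h) | h)
        · exact Or.inl h
        · exact Or.inr ⟨h.1, Or.inl h.2⟩
        · exact Or.inr ⟨fun hx => huσ (hx ▸ h), Or.inr h⟩
      · rintro (h | ⟨h1, h2 | h2⟩)
        · exact Or.inl (Or.inl h)
        · exact Or.inl (Or.inr ⟨h1, h2⟩)
        · exact Or.inr h2

/-- every non-face contains a missing face -/
theorem exists_missing (Δ : Finset (Finset V)) (τ : Finset V) (h : τ ∉ Δ) :
    ∃ ρ, ρ ⊆ τ ∧ IsMissingFace Δ ρ := by
  induction τ using Finset.strongInduction with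
  | _ τ ih =>
    by_cases h' : ∀ ρ, ρ ⊂ τ → ρ ∈ Δ
    · exact ⟨τ, le_refl _, h, h'⟩
    · push Not at h'
      obtain ⟨ρ, hρ, hρ'⟩ := h'
      obtain ⟨μ, hμ, hμ'⟩ := ih ρ hρ hρ'
      exact ⟨μ, hμ.trans hρ.1, hμ'⟩

theorem link_missing {Δ : Finset (Finset V)} (h : IsComplex Δ) {i : ℕ} (hi : 1 ≤ i)
    (hm : ∀ τ, IsMissingFace Δ τ → τ.card ≤ i + 1) {σ : Finset V} (hσ : σ ∈ Δ) :
    ∀ τ, IsMissingFace (link Δ σ) τ → τ.card ≤ i + 1 := by
  intro τ hτ
  by_contra hcon
  push Not at hcon
  have hdis : Disjoint τ σ := by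
    rw [Finset.disjoint_left]
    intro x hx hxσ
    have h1 : (({x} : Finset V)) ⊂ τ := by
      rw [Finset.ssubset_iff_subset_ne]
      refine ⟨by simpa using hx, ?_⟩
      rintro rfl
      simp at hcon
    have := hτ.2 _ h1
    rw [mem_link' h] at this
    exact Finset.disjoint_left.1 this.1 (Finset.mem_singleton_self x) hxσ
  have hnot : τ ∪ σ ∉ Δ := fun h' => hτ.1 ((mem_link' h).2 ⟨hdis, h'⟩)
  obtain ⟨ρ, hρ, hρm⟩ := exists_missing Δ _ hnot
  have hsub : τ ⊆ ρ := by
    intro v hv
    by_contra hvρ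
    have h1 : τ.erase v ⊂ τ := Finset.erase_ssubset hv
    have := hτ.2 _ h1
    rw [mem_link' h] at this
    refine hρm.1 (h.2 _ this.2 _ ?_)
    intro x hx
    rcases Finset.mem_union.1 (hρ hx) with h2 | h2
    · refine Finset.mem_union_left _ (Finset.mem_erase.2 ⟨?_, h2⟩)
      rintro rfl
      exact hvρ hx
    · exact Finset.mem_union_right _ h2
  have := Finset.card_le_card hsub
  have := hm _ hρm
  omega

/-- the minimal number of facets -/
def NN (i d : ℕ) : ℕ := (i + 1) ^ (d / i) * (d % i + 1)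

theorem NN_le (i d a : ℕ) (ha : 1 ≤ a) (hai : a ≤ i) (had : a ≤ d) :
    NN i d ≤ (a + 1) * NN i (d - a) ∧
      (NN i d = (a + 1) * NN i (d - a) → a = i ∨ (d - a) % i = 0) := by
  obtain ⟨e, rfl⟩ : ∃ e, d = e + a := ⟨d - a, by omega⟩
  have hi : 0 < i := by omega
  rw [Nat.add_sub_cancel]
  set q := e / i with hq
  set r := e % i with hr
  have he : e = q * i + r := by rw [hq, hr, mul_comm]; exact (Nat.div_add_mod e i).symm
  have hri : r < i := Nat.mod_lt _ hi
  unfold NN
  rw [← hq, ← hr]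
  rcases Nat.lt_or_ge (r + a) i with h | h
  · have h1 : (e + a) / i = q := by
      rw [he, add_assoc, mul_comm, Nat.mul_add_div hi, Nat.div_eq_of_lt h, add_zero]
    have h2 : (e + a) % i = r + a := by
      rw [he, add_assoc, mul_comm, Nat.mul_add_mod, Nat.mod_eq_of_lt h]
    rw [h1, h2]
    have key : (a + 1) * (r + 1) = (r + a + 1) + a * r := by ring
    have h3 : (a + 1) * ((i + 1) ^ q * (r + 1)) = (i + 1) ^ q * (r + a + 1) +
        (i + 1) ^ q * (a * r) := by
      rw [← mul_add, ← key]; ring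
    rw [h3]
    refine ⟨Nat.le_add_right _ _, fun h4 => ?_⟩
    have h5 : (i + 1) ^ q * (a * r) = 0 := by omega
    rcases Nat.mul_eq_zero.1 h5 with h6 | h6
    · exact absurd h6 (by positivity)
    · rcases Nat.mul_eq_zero.1 h6 with h7 | h7
      · omega
      · exact Or.inr h7
  · obtain ⟨c, hc⟩ : ∃ c, r + a = i + c := ⟨r + a - i, by omega⟩
    have hci : c < i := by omega
    have h1 : (e + a) / i = q + 1 := by
      have : e + a = i * (q + 1) + c := by rw [he, add_assoc, hc]; ring
      rw [this, Nat.mul_add_div hi, Nat.div_eq_of_lt hci, add_zero]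
    have h2 : (e + a) % i = c := by
      have : e + a = i * (q + 1) + c := by rw [he, add_assoc, hc]; ring
      rw [this, Nat.mul_add_mod, Nat.mod_eq_of_lt hci]
    rw [h1, h2]
    obtain ⟨s, hs⟩ : ∃ s, i = a + s := ⟨i - a, by omega⟩
    obtain ⟨t, ht⟩ : ∃ t, i = r + t := ⟨i - r, by omega⟩
    have key : (a + 1) * (r + 1) = (i + 1) * (c + 1) + s * t := by
      have e1 : (a : ℤ) = i - s := by omega
      have e2 : (r : ℤ) = i - t := by omega
      have e3 : (c : ℤ) = i - s - t := by omega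
      have : ((a + 1) * (r + 1) : ℤ) = (i + 1) * (c + 1) + s * t := by
        rw [e1, e2, e3]; ring
      exact_mod_cast this
    have h3 : (a + 1) * ((i + 1) ^ q * (r + 1)) = (i + 1) ^ (q + 1) * (c + 1) +
        (i + 1) ^ q * (s * t) := by
      rw [pow_succ, mul_assoc, ← mul_add, ← key]; ring
    rw [h3]
    refine ⟨Nat.le_add_right _ _, fun h4 => ?_⟩
    have h5 : (i + 1) ^ q * (s * t) = 0 := by omega
    rcases Nat.mul_eq_zero.1 h5 with h6 | h6
    · exact absurd h6 (by positivity)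
    · rcases Nat.mul_eq_zero.1 h6 with h7 | h7
      · left; omega
      · omega

/-- facets -/
def facets (Δ : Finset (Finset V)) (d : ℕ) : Finset (Finset V) := Δ.filter fun σ => σ.card = d

theorem cls_missing {Δ : Finset (Finset V)} {d : ℕ} (h : Cls Δ (d + 1)) :
    ∃ τ, IsMissingFace Δ τ ∧ 2 ≤ τ.card := by
  -- a facet and the opposite vertex of a neighbouring facet
  obtain ⟨F, hF, -, hc⟩ := h.pure ∅ h.cx.1
  have hne : F.Nonempty := by rw [← Finset.card_pos]; omega
  obtain ⟨u, hu⟩ := hne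
  obtain ⟨w, hw, hw'⟩ := h.ridge F hF hc u hu
  have hnot : insert w F ∉ Δ := by
    intro h'
    have := h.le _ h'
    rw [Finset.card_insert_of_notMem hw, hc] at this
    omega
  obtain ⟨τ, hτ, hm⟩ := exists_missing Δ _ hnot
  refine ⟨τ, hm, ?_⟩
  by_contra hcon
  push Not at hcon
  have h1 : τ.card = 0 ∨ τ.card = 1 := by omega
  rcases h1 with h1 | h1
  · rw [Finset.card_eq_zero] at h1
    exact hm.1 (h1 ▸ h.cx.1)
  · obtain ⟨x, rfl⟩ := Finset.card_eq_one.1 h1
    have hx : x ∈ insert w F := hτ (Finset.mem_singleton_self x)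
    rcases Finset.mem_insert.1 hx with rfl | hx
    · exact hm.1 (h.cx.2 _ hw' _ (by simp))
    · exact hm.1 (h.cx.2 _ hF _ (by simpa using hx))

/-- the facets of `Δ` meeting a missing face `τ` in `τ \ {v}` are as many as the facets of the
link of `τ \ {v}` -/
theorem card_facets_link {Δ : Finset (Finset V)} {d : ℕ} (h : Cls Δ d) {τ : Finset V}
    (hτ : IsMissingFace Δ τ) {v : V} (hv : v ∈ τ) :
    (facets (link Δ (τ.erase v)) (d - (τ.erase v).card)).card =
      ((facets Δ d).filter fun F => F ∩ τ = τ.erase v).card := by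
  have hσ : τ.erase v ∈ Δ := hτ.2 _ (Finset.erase_ssubset hv)
  have hle := h.le _ hσ
  refine Finset.card_bij (fun F _ => F ∪ τ.erase v) ?_ ?_ ?_
  · intro F hF
    simp only [facets, Finset.mem_filter] at hF ⊢
    obtain ⟨hF, hc⟩ := hF
    rw [mem_link' h.cx] at hF
    refine ⟨⟨hF.2, by rw [Finset.card_union_of_disjoint hF.1, hc]; omega⟩, ?_⟩
    have hvF : v ∉ F := by
      intro hvF
      apply hτ.1
      refine h.cx.2 _ hF.2 _ ?_
      intro x hx
      by_cases hxv : x = v
      · exact Finset.mem_union_left _ (hxv ▸ hvF)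
      · exact Finset.mem_union_right _ (Finset.mem_erase.2 ⟨hxv, hx⟩)
    ext x
    simp only [Finset.mem_inter, Finset.mem_union, Finset.mem_erase]
    constructor
    · rintro ⟨h1 | h1, h2⟩
      · exact ⟨fun hx => hvF (hx ▸ h1), h2⟩
      · exact h1
    · rintro ⟨h1, h2⟩
      exact ⟨Or.inr ⟨h1, h2⟩, h2⟩
  · intro F hF G hG hFG
    simp only [facets, Finset.mem_filter] at hF hG
    have h1 := ((mem_link' h.cx).1 hF.1).1
    have h2 := ((mem_link' h.cx).1 hG.1).1
    have : (F ∪ τ.erase v) \ τ.erase v = (G ∪ τ.erase v) \ τ.erase v := by rw [hFG]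
    rwa [Finset.union_sdiff_cancel_right h1, Finset.union_sdiff_cancel_right h2] at this
  · intro F hF
    simp only [facets, Finset.mem_filter] at hF
    obtain ⟨⟨hF, hc⟩, hi⟩ := hF
    have hsub : τ.erase v ⊆ F := by
      rw [← hi]; exact Finset.inter_subset_left
    refine ⟨F \ τ.erase v, ?_, ?_⟩
    · simp only [facets, Finset.mem_filter]
      rw [mem_link' h.cx]
      refine ⟨⟨Finset.sdiff_disjoint, ?_⟩, ?_⟩
      · rw [Finset.sdiff_union_of_subset hsub]; exact hF
      · rw [Finset.card_sdiff_of_subset hsub, hc]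
    · exact Finset.sdiff_union_of_subset hsub

/-- sum over the vertices of a missing face -/
theorem sum_facets_le {Δ : Finset (Finset V)} {d : ℕ} (h : Cls Δ d) {τ : Finset V}
    (hτ : IsMissingFace Δ τ) :
    ∑ v ∈ τ, (facets (link Δ (τ.erase v)) (d - (τ.erase v).card)).card ≤ (facets Δ d).card ∧
    ((∑ v ∈ τ, (facets (link Δ (τ.erase v)) (d - (τ.erase v).card)).card = (facets Δ d).card) →
      ∀ F ∈ facets Δ d, ∃ v ∈ τ, F ∩ τ = τ.erase v) := by
  have h1 : ∑ v ∈ τ, (facets (link Δ (τ.erase v)) (d - (τ.erase v).card)).card =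
      (τ.biUnion fun v => (facets Δ d).filter fun F => F ∩ τ = τ.erase v).card := by
    rw [Finset.card_biUnion]
    · exact Finset.sum_congr rfl fun v hv => card_facets_link h hτ hv
    · intro v hv w hw hvw
      rw [Function.onFun, Finset.disjoint_left]
      intro F hF hF'
      simp only [Finset.mem_filter] at hF hF'
      have : τ.erase v = τ.erase w := by rw [← hF.2, hF'.2]
      have hw' : w ∈ τ.erase v := Finset.mem_erase.2 ⟨hvw.symm, hw⟩
      rw [this] at hw'
      simp at hw'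
  have hsub : (τ.biUnion fun v => (facets Δ d).filter fun F => F ∩ τ = τ.erase v) ⊆
      facets Δ d := by
    intro F hF
    simp only [Finset.mem_biUnion, Finset.mem_filter] at hF
    obtain ⟨_, _, hF, _⟩ := hF
    exact hF
  refine ⟨by rw [h1]; exact Finset.card_le_card hsub, fun heq F hF => ?_⟩
  rw [h1] at heq
  have := Finset.eq_of_subset_of_card_le hsub heq.ge
  rw [← this] at hF
  simp only [Finset.mem_biUnion, Finset.mem_filter] at hF
  obtain ⟨v, hv, _, hF⟩ := hF
  exact ⟨v, hv, hF⟩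

theorem lower_bound (i : ℕ) (hi : 1 ≤ i) (d : ℕ) : ∀ (Δ : Finset (Finset V)), Cls Δ d →
    (∀ τ, IsMissingFace Δ τ → τ.card ≤ i + 1) → NN i d ≤ (facets Δ d).card := by
  induction d using Nat.strong_induction_on with
  | _ d ih =>
    intro Δ h hm
    rcases Nat.eq_zero_or_pos d with rfl | hd
    · have : ∅ ∈ facets Δ 0 := by simp [facets, h.cx.1]
      have := Finset.card_pos.2 ⟨_, this⟩
      have h0 : NN i 0 = 1 := by simp [NN]
      omega
    · obtain ⟨e, rfl⟩ : ∃ e, d = e + 1 := ⟨d - 1, by omega⟩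
      obtain ⟨τ, hτ, h2⟩ := cls_missing h
      have hcard := hm τ hτ
      obtain ⟨a, ha⟩ : ∃ a, τ.card = a + 1 := ⟨τ.card - 1, by omega⟩
      have hne : τ.Nonempty := by rw [← Finset.card_pos]; omega
      obtain ⟨v0, hv0⟩ := hne
      have hle : a ≤ e + 1 := by
        have := h.le _ (hτ.2 _ (Finset.erase_ssubset hv0))
        rw [Finset.card_erase_of_mem hv0, ha] at this
        omega
      refine le_trans ((NN_le i (e + 1) a (by omega) (by omega) hle).1) ?_
      refine le_trans ?_ (sum_facets_le h hτ).1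
      rw [← ha, ← smul_eq_mul]
      refine Finset.card_nsmul_le_sum _ _ _ fun v hv => ?_
      have hc : (τ.erase v).card = a := by rw [Finset.card_erase_of_mem hv, ha]; rfl
      have hσ : τ.erase v ∈ Δ := hτ.2 _ (Finset.erase_ssubset hv)
      have := link_cls h hσ
      rw [hc] at this ⊢
      exact ih _ (by omega) _ this (link_missing h.cx hi hm hσ)

/-- join structure -/
def IsJoin (Δ : Finset (Finset V)) (l : List (Finset V)) : Prop :=
  l.Pairwise Disjoint ∧ ∀ F, F ∈ Δ ↔ (∀ x ∈ F, ∃ τ ∈ l, x ∈ τ) ∧ ∀ τ ∈ l, ¬ τ ⊆ F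

/-- the standard list of sizes -/
def std (i d : ℕ) : List ℕ :=
  List.replicate (d / i) (i + 1) ++ if d % i = 0 then [] else [d % i + 1]

theorem std_zero (i : ℕ) : std i 0 = [] := by simp [std]

theorem std_cons (i d : ℕ) (hi : 1 ≤ i) (hd : i ≤ d) : std i d = (i + 1) :: std i (d - i) := by
  obtain ⟨e, rfl⟩ : ∃ e, d = e + i := ⟨d - i, by omega⟩
  rw [Nat.add_sub_cancel]
  unfold std
  rw [Nat.add_div_right _ (by omega), Nat.add_mod_right, List.replicate_succ,
    List.cons_append]

theorem std_snoc (i d a : ℕ) (ha : 1 ≤ a) (hai : a ≤ i) (had : a ≤ d) (h : (d - a) % i = 0) :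
    std i d = std i (d - a) ++ [a + 1] := by
  obtain ⟨e, rfl⟩ : ∃ e, d = e + a := ⟨d - a, by omega⟩
  rw [Nat.add_sub_cancel] at h ⊢
  have hi : 0 < i := by omega
  obtain ⟨q, rfl⟩ := Nat.dvd_of_mod_eq_zero h
  have h1 : std i (i * q) = List.replicate q (i + 1) := by
    simp [std, Nat.mul_div_cancel_left q hi]
  rw [h1]
  rcases Nat.lt_or_ge a i with h2 | h2
  · unfold std
    rw [Nat.mul_add_div hi, Nat.div_eq_of_lt h2, Nat.mul_add_mod, Nat.mod_eq_of_lt h2, add_zero,
      if_neg (by omega)]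
  · obtain rfl : a = i := by omega
    have : a * q + a = a * (q + 1) := by ring
    rw [this]
    unfold std
    rw [Nat.mul_div_cancel_left _ hi, Nat.mul_mod_right, if_pos rfl, List.append_nil]
    exact List.replicate_succ'

theorem isJoin_perm {Δ : Finset (Finset V)} {l l' : List (Finset V)} (h : IsJoin Δ l)
    (hp : l.Perm l') : IsJoin Δ l' := by
  refine ⟨hp.pairwise h.1 (fun h => Disjoint.symm h), fun F => ?_⟩
  rw [h.2 F]
  simp only [hp.mem_iff]

/-- splitting off a missing face in the case of equality -/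
theorem join_split {Δ : Finset (Finset V)} {d : ℕ} (h : Cls Δ d) {τ : Finset V}
    (hτ : IsMissingFace Δ τ) (hall : ∀ F ∈ facets Δ d, ∃ v ∈ τ, F ∩ τ = τ.erase v)
    {v0 : V} (hv0 : v0 ∈ τ) (F : Finset V) :
    F ∈ Δ ↔ ¬ τ ⊆ F ∧ F \ τ ∈ link Δ (τ.erase v0) := by
  -- facets of the links for different vertices agree
  have key : ∀ u ∈ τ, ∀ v ∈ τ, ∀ G, Disjoint G τ → G ∪ τ.erase u ∈ facets Δ d →
      G ∪ τ.erase v ∈ facets Δ d := by
    intro u hu v hv G hG hF
    by_cases huv : u = v
    · rw [← huv]; exact hF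
    simp only [facets, Finset.mem_filter] at hF ⊢
    obtain ⟨hF, hc⟩ := hF
    have hvF : v ∈ G ∪ τ.erase u := Finset.mem_union_right _ (Finset.mem_erase.2 ⟨Ne.symm huv, hv⟩)
    obtain ⟨w, hw, hw'⟩ := h.ridge _ hF hc v hvF
    have hcard : (insert w ((G ∪ τ.erase u).erase v)).card = d := by
      rw [Finset.card_insert_of_notMem (fun h => hw (Finset.mem_of_mem_erase h)),
        Finset.card_erase_of_mem hvF, hc]
      have : 0 < (G ∪ τ.erase u).card := Finset.card_pos.2 ⟨v, hvF⟩
      omega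
    obtain ⟨x, hx, hx'⟩ := hall _ (by simp only [facets, Finset.mem_filter]; exact ⟨hw', hcard⟩)
    have hvG : v ∉ G := fun h => Finset.disjoint_left.1 hG h hv
    have hwv : w ≠ v := fun h => hw (h ▸ hvF)
    have hxv : x = v := by
      by_contra hxv
      have : v ∈ τ.erase x := Finset.mem_erase.2 ⟨Ne.symm hxv, hv⟩
      rw [← hx', Finset.mem_inter, Finset.mem_insert, Finset.mem_erase] at this
      rcases this.1 with h1 | h1
      · exact hwv h1.symm
      · exact h1.1 rfl
    subst hxv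
    have hwu : w = u := by
      have : u ∈ τ.erase x := Finset.mem_erase.2 ⟨huv, hu⟩
      rw [← hx', Finset.mem_inter, Finset.mem_insert, Finset.mem_erase] at this
      rcases this.1 with h1 | h1
      · exact h1.symm
      · exfalso
        rcases Finset.mem_union.1 h1.2 with h2 | h2
        · exact Finset.disjoint_left.1 hG h2 hu
        · simp at h2
    subst hwu
    have heq : insert w ((G ∪ τ.erase w).erase x) = G ∪ τ.erase x := by
      ext y
      simp only [Finset.mem_insert, Finset.mem_erase, Finset.mem_union]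
      constructor
      · rintro (rfl | ⟨h1, h2 | h2⟩)
        · exact Or.inr ⟨huv, hu⟩
        · exact Or.inl h2
        · exact Or.inr ⟨h1, h2.2⟩
      · rintro (h1 | ⟨h1, h2⟩)
        · right
          exact ⟨fun hy => hvG (hy ▸ h1), Or.inl h1⟩
        · by_cases hyw : y = w
          · exact Or.inl hyw
          · exact Or.inr ⟨h1, Or.inr ⟨hyw, h2⟩⟩
    rw [heq] at hw' hcard
    exact ⟨hw', hcard⟩
  constructor
  · intro hF
    refine ⟨fun hs => hτ.1 (h.cx.2 _ hF _ hs), ?_⟩
    obtain ⟨F', hF', hs, hc⟩ := h.pure _ hF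
    have hmem : F' ∈ facets Δ d := by simp only [facets, Finset.mem_filter]; exact ⟨hF', hc⟩
    obtain ⟨v, hv, hv'⟩ := hall _ hmem
    have hd : Disjoint (F' \ τ) τ := Finset.sdiff_disjoint
    have heq : (F' \ τ) ∪ τ.erase v = F' := by
      rw [← hv', Finset.inter_comm, Finset.union_comm]
      ext x
      simp only [Finset.mem_union, Finset.mem_inter, Finset.mem_sdiff]
      tauto
    have := key v hv v0 hv0 (F' \ τ) hd (by rw [heq]; exact hmem)
    simp only [facets, Finset.mem_filter] at this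
    rw [mem_link' h.cx]
    constructor
    · exact Disjoint.mono_right (Finset.erase_subset _ _) Finset.sdiff_disjoint
    · exact h.cx.2 _ this.1 _ (Finset.union_subset_union (Finset.sdiff_subset_sdiff hs (le_refl _))
        (le_refl _))
  · rintro ⟨hn, hF⟩
    obtain ⟨u, hu, huF⟩ := Finset.not_subset.1 hn
    rw [mem_link' h.cx] at hF
    obtain ⟨F', hF', hs, hc⟩ := h.pure _ hF.2
    have hmem : F' ∈ facets Δ d := by simp only [facets, Finset.mem_filter]; exact ⟨hF', hc⟩
    obtain ⟨v, hv, hv'⟩ := hall _ hmem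
    have heq : (F' \ τ) ∪ τ.erase v = F' := by
      rw [← hv', Finset.inter_comm, Finset.union_comm]
      ext x
      simp only [Finset.mem_union, Finset.mem_inter, Finset.mem_sdiff]
      tauto
    have := key v hv u hu (F' \ τ) Finset.sdiff_disjoint (by rw [heq]; exact hmem)
    simp only [facets, Finset.mem_filter] at this
    refine h.cx.2 _ this.1 _ ?_
    intro x hx
    by_cases hxτ : x ∈ τ
    · exact Finset.mem_union_right _ (Finset.mem_erase.2 ⟨fun h => huF (h ▸ hx), hxτ⟩)
    · refine Finset.mem_union_left _ (Finset.mem_sdiff.2 ⟨hs ?_, hxτ⟩)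
      exact Finset.mem_union_left _ (Finset.mem_sdiff.2 ⟨hx, hxτ⟩)

theorem join_cons {Δ : Finset (Finset V)} {d : ℕ} (h : Cls Δ d) {τ : Finset V}
    (hτ : IsMissingFace Δ τ) (hall : ∀ F ∈ facets Δ d, ∃ v ∈ τ, F ∩ τ = τ.erase v)
    {v0 : V} (hv0 : v0 ∈ τ) (l : List (Finset V)) (hl : IsJoin (link Δ (τ.erase v0)) l)
    (hl2 : ∀ ρ ∈ l, 2 ≤ ρ.card) :
    IsJoin Δ (τ :: l) := by
  have hσ : τ.erase v0 ∈ Δ := hτ.2 _ (Finset.erase_ssubset hv0)
  -- every member of `l` is disjoint from `τ`
  have hdis : ∀ ρ ∈ l, Disjoint τ ρ := by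
    intro ρ hρ
    rw [Finset.disjoint_left]
    intro x hx hxρ
    have hxl : ({x} : Finset V) ∈ link Δ (τ.erase v0) := by
      rw [hl.2]
      refine ⟨fun y hy => ⟨ρ, hρ, by rw [Finset.mem_singleton] at hy; rw [hy]; exact hxρ⟩, ?_⟩
      intro μ hμ hs
      have := Finset.card_le_card hs
      have := hl2 μ hμ
      simp at *
      omega
    rw [mem_link' h.cx] at hxl
    have hxv : x = v0 := by
      by_contra hne
      exact Finset.disjoint_left.1 hxl.1 (Finset.mem_singleton_self x)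
        (Finset.mem_erase.2 ⟨hne, hx⟩)
    apply hτ.1
    refine h.cx.2 _ hxl.2 _ ?_
    intro y hy
    by_cases hyv : y = v0
    · exact Finset.mem_union_left _ (by rw [Finset.mem_singleton, hxv, hyv])
    · exact Finset.mem_union_right _ (Finset.mem_erase.2 ⟨hyv, hy⟩)
  refine ⟨List.pairwise_cons.2 ⟨hdis, hl.1⟩, fun F => ?_⟩
  rw [join_split h hτ hall hv0 F, hl.2]
  constructor
  · rintro ⟨h1, h2, h3⟩
    refine ⟨fun x hx => ?_, fun ρ hρ => ?_⟩
    · by_cases hxτ : x ∈ τ
      · exact ⟨τ, List.mem_cons_self, hxτ⟩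
      · obtain ⟨ρ, hρ, hxρ⟩ := h2 x (Finset.mem_sdiff.2 ⟨hx, hxτ⟩)
        exact ⟨ρ, List.mem_cons_of_mem _ hρ, hxρ⟩
    · rcases List.mem_cons.1 hρ with rfl | hρ
      · exact h1
      · intro hs
        refine h3 ρ hρ fun x hx => Finset.mem_sdiff.2 ⟨hs hx, fun hxτ => ?_⟩
        exact Finset.disjoint_left.1 (hdis ρ hρ) hxτ hx
  · rintro ⟨h1, h2⟩
    refine ⟨h2 τ List.mem_cons_self, fun x hx => ?_, fun ρ hρ hs => ?_⟩
    · rw [Finset.mem_sdiff] at hx
      obtain ⟨ρ, hρ, hxρ⟩ := h1 x hx.1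
      rcases List.mem_cons.1 hρ with rfl | hρ
      · exact absurd hxρ hx.2
      · exact ⟨ρ, hρ, hxρ⟩
    · exact h2 ρ (List.mem_cons_of_mem _ hρ) (hs.trans Finset.sdiff_subset)

theorem std_ge (i d : ℕ) (hi : 1 ≤ i) : ∀ n ∈ std i d, 2 ≤ n := by
  intro n hn
  unfold std at hn
  rw [List.mem_append] at hn
  rcases hn with hn | hn
  · have := List.eq_of_mem_replicate hn
    omega
  · split_ifs at hn with h
    · simp at hn
    · simp only [List.mem_singleton] at hn
      omega

theorem unique_join (i : ℕ) (hi : 1 ≤ i) (d : ℕ) : ∀ (Δ : Finset (Finset V)), Cls Δ d →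
    (∀ τ, IsMissingFace Δ τ → τ.card ≤ i + 1) → (facets Δ d).card = NN i d →
    ∃ l : List (Finset V), IsJoin Δ l ∧ l.map Finset.card = std i d := by
  induction d using Nat.strong_induction_on with
  | _ d ih =>
    intro Δ h hm heq
    rcases Nat.eq_zero_or_pos d with rfl | hd
    · refine ⟨[], ⟨List.Pairwise.nil, fun F => ?_⟩, by simp [std_zero]⟩
      constructor
      · intro hF
        have := h.le F hF
        have : F = ∅ := Finset.card_eq_zero.1 (by omega)
        subst this
        simp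
      · rintro ⟨h1, -⟩
        have : F = ∅ := by
          rw [Finset.eq_empty_iff_forall_notMem]
          intro x hx
          obtain ⟨τ, hτ, -⟩ := h1 x hx
          simp at hτ
        rw [this]
        exact h.cx.1
    · obtain ⟨e, rfl⟩ : ∃ e, d = e + 1 := ⟨d - 1, by omega⟩
      obtain ⟨τ, hτ, h2⟩ := cls_missing h
      have hcard := hm τ hτ
      obtain ⟨a, ha⟩ : ∃ a, τ.card = a + 1 := ⟨τ.card - 1, by omega⟩
      have hne : τ.Nonempty := by rw [← Finset.card_pos]; omega
      obtain ⟨v0, hv0⟩ := hne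
      have hle : a ≤ e + 1 := by
        have := h.le _ (hτ.2 _ (Finset.erase_ssubset hv0))
        rw [Finset.card_erase_of_mem hv0, ha] at this
        omega
      have hc : ∀ v ∈ τ, (τ.erase v).card = a := by
        intro v hv
        rw [Finset.card_erase_of_mem hv, ha]; rfl
      have hlow : ∀ v ∈ τ, NN i (e + 1 - a) ≤
          (facets (link Δ (τ.erase v)) (e + 1 - (τ.erase v).card)).card := by
        intro v hv
        have hσ : τ.erase v ∈ Δ := hτ.2 _ (Finset.erase_ssubset hv)
        have := link_cls h hσ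
        rw [hc v hv] at this ⊢
        exact lower_bound i hi _ _ this (link_missing h.cx hi hm hσ)
      have hN := NN_le i (e + 1) a (by omega) (by omega) hle
      have hS := sum_facets_le h hτ
      have hsum : (a + 1) * NN i (e + 1 - a) ≤
          ∑ v ∈ τ, (facets (link Δ (τ.erase v)) (e + 1 - (τ.erase v).card)).card := by
        rw [← ha, ← smul_eq_mul]
        exact Finset.card_nsmul_le_sum _ _ _ hlow
      have hall := hS.2 (by have := hS.1; have := hN.1; omega)
      have hNN := hN.2 (by have := hS.1; have := hN.1; omega)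
      have hv0eq : (facets (link Δ (τ.erase v0)) (e + 1 - (τ.erase v0).card)).card =
          NN i (e + 1 - a) := by
        by_contra hne
        have hlt : NN i (e + 1 - a) <
            (facets (link Δ (τ.erase v0)) (e + 1 - (τ.erase v0).card)).card :=
          lt_of_le_of_ne (hlow v0 hv0) (Ne.symm hne)
        have : ∑ v ∈ τ, NN i (e + 1 - a) <
            ∑ v ∈ τ, (facets (link Δ (τ.erase v)) (e + 1 - (τ.erase v).card)).card :=
          Finset.sum_lt_sum hlow ⟨v0, hv0, hlt⟩
        rw [Finset.sum_const, smul_eq_mul, ha] at this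
        have := hS.1
        have := hN.1
        omega
      have hσ : τ.erase v0 ∈ Δ := hτ.2 _ (Finset.erase_ssubset hv0)
      have hcls := link_cls h hσ
      rw [hc v0 hv0] at hcls hv0eq
      obtain ⟨l, hl, hlc⟩ := ih _ (by omega) _ hcls (link_missing h.cx hi hm hσ) hv0eq
      have hl2 : ∀ ρ ∈ l, 2 ≤ ρ.card := by
        intro ρ hρ
        apply std_ge i (e + 1 - a) hi
        rw [← hlc]
        exact List.mem_map_of_mem hρ
      have hj := join_cons h hτ hall hv0 l hl hl2
      rcases hNN with rfl | hNN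
      · refine ⟨τ :: l, hj, ?_⟩
        rw [List.map_cons, hlc, ha, std_cons a (e + 1) hi hle]
      · refine ⟨l ++ [τ], isJoin_perm hj (List.perm_append_singleton τ l).symm, ?_⟩
        rw [List.map_append, hlc, List.map_cons, List.map_nil, ha]
        exact (std_snoc i (e + 1) a (by omega) (by omega) hle hNN).symm

end Run7.h447.Sph
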