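import Pool.Agent.Run7.h447.SphPoly

namespace Run7.h447.Sph

open Polynomial

theorem std_eq (q i r : ℕ) (hr : 1 ≤ r) (hri : r ≤ i) :
    std i (q * i + r) = List.replicate q (i + 1) ++ [r + 1] := by
  have hi : 0 < i := by omega
  have h1 : (q * i + r - r) % i = 0 := by rw [Nat.add_sub_cancel, Nat.mul_mod_left]
  rw [std_snoc i (q * i + r) r hr hri (by omega) h1, Nat.add_sub_cancel]
  congr 1
  unfold std
  rw [Nat.mul_div_cancel _ hi, Nat.mul_mod_left, if_pos rfl, List.append_nil]

theorem NN_eq (q i r : ℕ) (hr : 1 ≤ r) (hri : r ≤ i) :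
    NN i (q * i + r) = (List.replicate q (i + 1) ++ [r + 1]).prod := by
  rw [← std_eq q i r hr hri]
  unfold NN std
  split_ifs with h
  · rw [h]; simp
  · simp

theorem sz_eq (q i r : ℕ) : sz (List.replicate q (i + 1) ++ [r + 1]) = q * i + r := by
  simp [sz]

/-- blocks of `KK` -/
def blkA (q i r : ℕ) (a : Fin q) : Finset (Fin q × Fin (i + 1) ⊕ Fin (r + 1)) :=
  Finset.univ.map ⟨fun t : Fin (i + 1) => Sum.inl (a, t), fun s t h => by simpa using h⟩

def blkB (q i r : ℕ) : Finset (Fin q × Fin (i + 1) ⊕ Fin (r + 1)) :=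
  Finset.univ.map ⟨fun t : Fin (r + 1) => Sum.inr t, fun s t h => by simpa using h⟩

theorem mem_blkA (q i r : ℕ) (a : Fin q) (x : Fin q × Fin (i + 1) ⊕ Fin (r + 1)) :
    x ∈ blkA q i r a ↔ ∃ t, Sum.inl (a, t) = x := by
  unfold blkA
  rw [Finset.mem_map]
  exact ⟨fun ⟨t, _, h⟩ => ⟨t, h⟩, fun ⟨t, h⟩ => ⟨t, Finset.mem_univ _, h⟩⟩

theorem mem_blkB (q i r : ℕ) (x : Fin q × Fin (i + 1) ⊕ Fin (r + 1)) :
    x ∈ blkB q i r ↔ ∃ t, Sum.inr t = x := by
  unfold blkB
  rw [Finset.mem_map]
  exact ⟨fun ⟨t, _, h⟩ => ⟨t, h⟩, fun ⟨t, h⟩ => ⟨t, Finset.mem_univ _, h⟩⟩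

theorem KK_join (q i r : ℕ) :
    IsJoin (KK q i r) (List.ofFn (blkA q i r) ++ [blkB q i r]) := by
  constructor
  · rw [List.pairwise_append]
    refine ⟨?_, List.pairwise_singleton _ _, ?_⟩
    · rw [List.pairwise_ofFn]
      intro a b hab
      rw [Finset.disjoint_left]
      intro x hx hx'
      rw [mem_blkA] at hx hx'
      obtain ⟨s, rfl⟩ := hx
      obtain ⟨t, ht⟩ := hx'
      simp only [Sum.inl.injEq, Prod.mk.injEq] at ht
      exact hab.ne' ht.1
    · intro σ hσ ρ hρ
      rw [List.mem_ofFn] at hσ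
      obtain ⟨a, rfl⟩ := hσ
      rw [List.mem_singleton] at hρ
      subst hρ
      rw [Finset.disjoint_left]
      intro x hx hx'
      rw [mem_blkA] at hx
      rw [mem_blkB] at hx'
      obtain ⟨s, rfl⟩ := hx
      obtain ⟨t, ht⟩ := hx'
      cases ht
  · intro F
    unfold KK
    rw [Finset.mem_filter]
    constructor
    · rintro ⟨-, h1, h2⟩
      refine ⟨fun x _ => ?_, fun σ hσ hs => ?_⟩
      · rcases x with ⟨a, t⟩ | t
        · refine ⟨blkA q i r a, ?_, ?_⟩
          · rw [List.mem_append, List.mem_ofFn]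
            exact Or.inl ⟨a, rfl⟩
          · rw [mem_blkA]; exact ⟨t, rfl⟩
        · refine ⟨blkB q i r, ?_, ?_⟩
          · rw [List.mem_append, List.mem_singleton]
            exact Or.inr rfl
          · rw [mem_blkB]; exact ⟨t, rfl⟩
      · rw [List.mem_append, List.mem_ofFn, List.mem_singleton] at hσ
        rcases hσ with ⟨a, rfl⟩ | rfl
        · obtain ⟨t, ht⟩ := h1 a
          exact ht (hs ((mem_blkA _ _ _ _ _).2 ⟨t, rfl⟩))
        · obtain ⟨t, ht⟩ := h2
          exact ht (hs ((mem_blkB _ _ _ _).2 ⟨t, rfl⟩))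
    · rintro ⟨-, h⟩
      refine ⟨Finset.mem_univ _, fun a => ?_, ?_⟩
      · have h1 := h (blkA q i r a) (by
          rw [List.mem_append, List.mem_ofFn]
          exact Or.inl ⟨a, rfl⟩)
        rw [Finset.not_subset] at h1
        obtain ⟨x, hx, hxF⟩ := h1
        rw [mem_blkA] at hx
        obtain ⟨t, rfl⟩ := hx
        exact ⟨t, hxF⟩
      · have h1 := h (blkB q i r) (by
          rw [List.mem_append, List.mem_singleton]
          exact Or.inr rfl)
        rw [Finset.not_subset] at h1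
        obtain ⟨x, hx, hxF⟩ := h1
        rw [mem_blkB] at hx
        obtain ⟨t, rfl⟩ := hx
        exact ⟨t, hxF⟩

theorem KK_cards (q i r : ℕ) :
    (List.ofFn (blkA q i r) ++ [blkB q i r]).map Finset.card =
      List.replicate q (i + 1) ++ [r + 1] := by
  rw [List.map_append, List.map_ofFn, List.map_singleton]
  have h1 : (Finset.card ∘ blkA q i r) = fun _ => i + 1 := by
    funext a
    simp [blkA]
  have h2 : (blkB q i r).card = r + 1 := by simp [blkB]
  rw [h1, h2, List.ofFn_const]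

theorem iso_of_join {V : Type} [DecidableEq V] (q i r : ℕ) (Δ : Finset (Finset V))
    (l : List (Finset V)) (hl : IsJoin Δ l)
    (hc : l.map Finset.card = List.replicate q (i + 1) ++ [r + 1]) : IsIsoTo Δ (KK q i r) := by
  obtain ⟨a, b, rfl, ha, hb⟩ := List.map_eq_append_iff.1 hc
  obtain ⟨τ, rfl⟩ : ∃ τ, b = [τ] := by
    rcases b with _ | ⟨τ, b⟩
    · simp at hb
    · rcases b with _ | ⟨τ', b⟩
      · exact ⟨τ, rfl⟩
      · simp at hb
  have hτ : τ.card = r + 1 := by simpa using hb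
  have hal : a.length = q := by
    have := congrArg List.length ha
    simpa using this
  have hac : ∀ ρ ∈ a, ρ.card = i + 1 := by
    intro ρ hρ
    have : ρ.card ∈ a.map Finset.card := List.mem_map_of_mem hρ
    rw [ha] at this
    exact List.eq_of_mem_replicate this
  subst hal
  have hpw := List.pairwise_append.1 hl.1
  have hdis : ∀ k m : Fin a.length, k ≠ m → Disjoint (a.get k) (a.get m) := by
    intro k m hkm
    rcases lt_or_gt_of_ne hkm with h | h
    · exact List.pairwise_iff_get.1 hpw.1 k m h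
    · exact (List.pairwise_iff_get.1 hpw.1 m k h).symm
  have hdisτ : ∀ k : Fin a.length, Disjoint (a.get k) τ := fun k =>
    hpw.2.2 _ (List.get_mem a k) _ (List.mem_singleton.2 rfl)
  let eA : ∀ k : Fin a.length, {x // x ∈ a.get k} ≃ Fin (i + 1) := fun k =>
    (a.get k).equivFinOfCardEq (hac _ (List.get_mem a k))
  let eB : {x // x ∈ τ} ≃ Fin (r + 1) := τ.equivFinOfCardEq hτ
  let f : Fin a.length × Fin (i + 1) ⊕ Fin (r + 1) → V :=
    Sum.elim (fun p => ((eA p.1).symm p.2).1) (fun t => (eB.symm t).1)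
  have hfA : ∀ k t, f (Sum.inl (k, t)) ∈ a.get k := fun k t => ((eA k).symm t).2
  have hfB : ∀ t, f (Sum.inr t) ∈ τ := fun t => (eB.symm t).2
  have hsA : ∀ k, ∀ x ∈ a.get k, ∃ t, f (Sum.inl (k, t)) = x := by
    intro k x hx
    refine ⟨eA k ⟨x, hx⟩, ?_⟩
    change ((eA k).symm (eA k ⟨x, hx⟩)).1 = x
    rw [Equiv.symm_apply_apply]
  have hsB : ∀ x ∈ τ, ∃ t, f (Sum.inr t) = x := by
    intro x hx
    refine ⟨eB ⟨x, hx⟩, ?_⟩
    change (eB.symm (eB ⟨x, hx⟩)).1 = x
    rw [Equiv.symm_apply_apply]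
  have hinj : Function.Injective f := by
    rintro (⟨k, s⟩ | s) (⟨m, t⟩ | t) h
    · by_cases hkm : k = m
      · subst hkm
        have h' : ((eA k).symm s).1 = ((eA k).symm t).1 := h
        have := (eA k).symm.injective (Subtype.ext h')
        rw [this]
      · exfalso
        exact Finset.disjoint_left.1 (hdis k m hkm) (hfA k s) (h ▸ hfA m t)
    · exfalso
      exact Finset.disjoint_left.1 (hdisτ k) (hfA k s) (h ▸ hfB t)
    · exfalso
      exact Finset.disjoint_left.1 (hdisτ m) (hfA m t) (h ▸ hfB s)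
    · have h' : (eB.symm s).1 = (eB.symm t).1 := h
      have := eB.symm.injective (Subtype.ext h')
      rw [this]
  refine ⟨⟨f, hinj⟩, fun F => ?_⟩
  rw [hl.2]
  constructor
  · rintro ⟨h1, h2⟩
    refine ⟨Finset.univ.filter (fun w => f w ∈ F), ?_, ?_⟩
    · unfold KK
      rw [Finset.mem_filter]
      refine ⟨Finset.mem_univ _, fun k => ?_, ?_⟩
      · have h3 := h2 (a.get k) (List.mem_append_left _ (List.get_mem a k))
        rw [Finset.not_subset] at h3
        obtain ⟨x, hx, hxF⟩ := h3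
        obtain ⟨t, rfl⟩ := hsA k x hx
        refine ⟨t, ?_⟩
        rw [Finset.mem_filter]
        exact fun h => hxF h.2
      · have h3 := h2 τ (List.mem_append_right _ (List.mem_singleton.2 rfl))
        rw [Finset.not_subset] at h3
        obtain ⟨x, hx, hxF⟩ := h3
        obtain ⟨t, rfl⟩ := hsB x hx
        refine ⟨t, ?_⟩
        rw [Finset.mem_filter]
        exact fun h => hxF h.2
    · ext x
      rw [Finset.mem_map]
      constructor
      · intro hx
        obtain ⟨ρ, hρ, hxρ⟩ := h1 x hx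
        rcases List.mem_append.1 hρ with hρ | hρ
        · obtain ⟨k, rfl⟩ := List.get_of_mem hρ
          obtain ⟨t, rfl⟩ := hsA k x hxρ
          exact ⟨Sum.inl (k, t), Finset.mem_filter.2 ⟨Finset.mem_univ _, hx⟩, rfl⟩
        · rw [List.mem_singleton] at hρ
          subst hρ
          obtain ⟨t, rfl⟩ := hsB x hxρ
          exact ⟨Sum.inr t, Finset.mem_filter.2 ⟨Finset.mem_univ _, hx⟩, rfl⟩
      · rintro ⟨w, hw, rfl⟩
        exact (Finset.mem_filter.1 hw).2
  · rintro ⟨G, hG, rfl⟩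
    unfold KK at hG
    rw [Finset.mem_filter] at hG
    obtain ⟨-, hG1, hG2⟩ := hG
    refine ⟨fun x hx => ?_, fun ρ hρ hs => ?_⟩
    · rw [Finset.mem_map] at hx
      obtain ⟨w, -, rfl⟩ := hx
      rcases w with ⟨k, t⟩ | t
      · exact ⟨a.get k, List.mem_append_left _ (List.get_mem a k), hfA k t⟩
      · exact ⟨τ, List.mem_append_right _ (List.mem_singleton.2 rfl), hfB t⟩
    · rcases List.mem_append.1 hρ with hρ | hρ
      · obtain ⟨k, rfl⟩ := List.get_of_mem hρ
        obtain ⟨t, ht⟩ := hG1 k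
        have := hs (hfA k t)
        rw [Finset.mem_map] at this
        obtain ⟨w, hw, hw'⟩ := this
        exact ht ((hinj hw') ▸ hw)
      · rw [List.mem_singleton] at hρ
        subst hρ
        obtain ⟨t, ht⟩ := hG2
        have := hs (hfB t)
        rw [Finset.mem_map] at this
        obtain ⟨w, hw, hw'⟩ := this
        exact ht ((hinj hw') ▸ hw)

theorem g_unique {V : Type} [Fintype V] [DecidableEq V] (i d q r : ℕ) (hr : 1 ≤ r)
    (hri : r ≤ i) (hd : d = q * i + r) (Δ : Finset (Finset V)) (hS : IsSphere Δ d)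
    (hm : ∀ τ, IsMissingFace Δ τ → τ.card ≤ i + 1)
    (hg : ∀ j ≤ d / 2, gnum Δ d j = gnum (KK q i r) d j) : IsIsoTo Δ (KK q i r) := by
  subst hd
  have hK := fpoly_join (List.ofFn (blkA q i r) ++ [blkB q i r]) (KK q i r) (by
    intro τ hτ
    have : τ.card ∈ (List.ofFn (blkA q i r) ++ [blkB q i r]).map Finset.card :=
      List.mem_map_of_mem hτ
    rw [KK_cards, List.mem_append, List.mem_singleton] at this
    rcases this with h | h
    · have := List.eq_of_mem_replicate h
      omega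
    · omega) (KK_join q i r)
  rw [KK_cards] at hK
  have hl1 : ∀ n ∈ List.replicate q (i + 1) ++ [r + 1], 1 ≤ n := by
    intro n hn
    rw [List.mem_append, List.mem_singleton] at hn
    rcases hn with h | h
    · have := List.eq_of_mem_replicate h
      omega
    · omega
  have hKs := prod_symm _ hl1
  have hKd := prod_natDegree _ hl1
  have hKc := prod_coeff _ hl1
  rw [sz_eq] at hKs hKd hKc
  rw [← hK] at hKs hKd hKc
  have h0 : fnum Δ 0 = fnum (KK q i r) 0 := by
    have e1 : Δ.filter (fun σ => σ.card = 0) = {∅} := by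
      ext σ
      rw [Finset.mem_filter, Finset.card_eq_zero, Finset.mem_singleton]
      exact ⟨fun h => h.2, fun h => ⟨h ▸ hS.1.1, h⟩⟩
    have e2 : (KK q i r).filter (fun σ => σ.card = 0) = {∅} := by
      ext σ
      rw [Finset.mem_filter, Finset.card_eq_zero, Finset.mem_singleton]
      refine ⟨fun h => h.2, fun h => ⟨?_, h⟩⟩
      subst h
      unfold KK
      rw [Finset.mem_filter]
      exact ⟨Finset.mem_univ _, fun a => ⟨0, by simp⟩, ⟨0, by simp⟩⟩
    unfold fnum
    rw [e1, e2]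
    rfl
  have hf := fnum_eq h0 hg
  have hPQ := symm_eq (fpoly Δ) (fpoly (KK q i r)) (q * i + r) (fpoly_symm hS) hKs
    (fpoly_natDegree _ _ hS.2.2.1) hKd (by
      intro j hj
      rw [fpoly_coeff, fpoly_coeff, hf j hj])
  have hfac : (facets Δ (q * i + r)).card = NN i (q * i + r) := by
    have h1 : ((fnum Δ (q * i + r) : ℕ) : ℤ) =
        ((List.replicate q (i + 1) ++ [r + 1]).prod : ℕ) := by
      rw [← fpoly_coeff, hPQ, hKc]
    rw [NN_eq q i r hr hri]
    exact_mod_cast h1
  obtain ⟨l, hl, hlc⟩ := unique_join i (by omega) _ Δ (sphere_cls hS) hm hfac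
  rw [std_eq q i r hr hri] at hlc
  exact iso_of_join q i r Δ l hl hlc

end Run7.h447.Sph
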