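import Pool.Agent.Run7.h447.SphEuler

namespace Run7.h447.Sph

open Polynomial

/-- the face polynomial -/
noncomputable def fpoly {V : Type} (Δ : Finset (Finset V)) : ℤ[X] := ∑ F ∈ Δ, X ^ F.card

theorem fpoly_coeff {V : Type} (Δ : Finset (Finset V)) (k : ℕ) :
    (fpoly Δ).coeff k = fnum Δ k := by
  unfold fpoly fnum
  rw [Polynomial.finsetSum_coeff, Finset.card_filter, Nat.cast_sum]
  refine Finset.sum_congr rfl fun F _ => ?_
  rw [Polynomial.coeff_X_pow]
  by_cases h : k = F.card
  · rw [if_pos h, if_pos h.symm]; rfl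
  · rw [if_neg h, if_neg (Ne.symm h)]; rfl

theorem fpoly_symm {V : Type} [Fintype V] [DecidableEq V] {Δ : Finset (Finset V)} {d : ℕ}
    (h : IsSphere Δ d) : (fpoly Δ).comp (-1 - X) = (-1) ^ d * fpoly Δ := by
  unfold fpoly
  rw [Polynomial.sum_comp, Finset.mul_sum]
  have h1 : ∀ F ∈ Δ, ((X : ℤ[X]) ^ F.card).comp (-1 - X) =
      ∑ σ ∈ Δ, if σ ⊆ F then (-1) ^ F.card * X ^ σ.card else 0 := by
    intro F hF
    rw [Polynomial.X_pow_comp]
    have e1 : (-1 - X : ℤ[X]) = (-1) * (X + 1) := by ring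
    rw [e1, mul_pow, ← Finset.sum_pow_mul_eq_add_pow, Finset.mul_sum, ← Finset.sum_filter]
    have e2 : F.powerset = Δ.filter (fun σ => σ ⊆ F) := by
      ext σ
      rw [Finset.mem_powerset, Finset.mem_filter]
      exact ⟨fun hs => ⟨h.1.2 _ hF _ hs, hs⟩, fun hs => hs.2⟩
    rw [e2]
    refine Finset.sum_congr rfl fun σ _ => ?_
    rw [one_pow, mul_one]
  rw [Finset.sum_congr rfl h1, Finset.sum_comm]
  refine Finset.sum_congr rfl fun σ hσ => ?_
  rw [← Finset.sum_filter, ← Finset.sum_mul]
  congr 1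
  have h2 := euler_above h hσ
  have h3 := congrArg (Int.castRingHom ℤ[X]) h2
  rw [map_sum] at h3
  simpa using h3

/-- the factor of a boundary of a simplex with `n` vertices -/
noncomputable def pp (n : ℕ) : ℤ[X] := (X + 1) ^ n - X ^ n

theorem pp_symm (n : ℕ) (hn : 1 ≤ n) : (pp n).comp (-1 - X) = (-1) ^ (n - 1) * pp n := by
  obtain ⟨k, rfl⟩ : ∃ k, n = k + 1 := ⟨n - 1, by omega⟩
  unfold pp
  rw [Polynomial.sub_comp, Polynomial.pow_comp, Polynomial.pow_comp, Polynomial.add_comp,
    Polynomial.X_comp, Polynomial.one_comp, Nat.add_sub_cancel]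
  have e1 : (-1 - X + 1 : ℤ[X]) = (-1) * X := by ring
  have e2 : (-1 - X : ℤ[X]) = (-1) * (X + 1) := by ring
  rw [e1, e2, mul_pow, mul_pow]
  ring

theorem pp_natDegree (n : ℕ) (hn : 1 ≤ n) : (pp n).natDegree ≤ n - 1 := by
  rw [Polynomial.natDegree_le_iff_coeff_eq_zero]
  intro N hN
  unfold pp
  rw [Polynomial.coeff_sub, Polynomial.coeff_X_add_one_pow, Polynomial.coeff_X_pow]
  by_cases h : N = n
  · subst h; simp
  · rw [if_neg h, Nat.choose_eq_zero_of_lt (by omega)]; simp

theorem pp_coeff (n : ℕ) (hn : 1 ≤ n) : (pp n).coeff (n - 1) = n := by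
  unfold pp
  rw [Polynomial.coeff_sub, Polynomial.coeff_X_add_one_pow, Polynomial.coeff_X_pow,
    if_neg (by omega), sub_zero]
  obtain ⟨k, rfl⟩ : ∃ k, n = k + 1 := ⟨n - 1, by omega⟩
  rw [Nat.add_sub_cancel, Nat.choose_succ_self_right]

/-- sum of a list of `n - 1` -/
def sz (l : List ℕ) : ℕ := (l.map fun n => n - 1).sum

theorem prod_symm (l : List ℕ) (hl : ∀ n ∈ l, 1 ≤ n) :
    ((l.map pp).prod).comp (-1 - X) = (-1) ^ (sz l) * (l.map pp).prod := by
  induction l with
  | nil => simp [sz]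
  | cons n l ih =>
    have h1 := hl n List.mem_cons_self
    have h2 : ∀ m ∈ l, 1 ≤ m := fun m hm => hl m (List.mem_cons_of_mem _ hm)
    have h3 : sz (n :: l) = (n - 1) + sz l := by simp [sz]
    rw [List.map_cons, List.prod_cons, Polynomial.mul_comp, ih h2, pp_symm n h1, h3, pow_add]
    ring

theorem prod_natDegree (l : List ℕ) (hl : ∀ n ∈ l, 1 ≤ n) :
    ((l.map pp).prod).natDegree ≤ sz l := by
  induction l with
  | nil => simp [sz]
  | cons n l ih =>
    have h1 := hl n List.mem_cons_self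
    have h2 : ∀ m ∈ l, 1 ≤ m := fun m hm => hl m (List.mem_cons_of_mem _ hm)
    have h3 : sz (n :: l) = (n - 1) + sz l := by simp [sz]
    rw [List.map_cons, List.prod_cons, h3]
    exact Polynomial.natDegree_mul_le.trans (Nat.add_le_add (pp_natDegree n h1) (ih h2))

theorem prod_coeff (l : List ℕ) (hl : ∀ n ∈ l, 1 ≤ n) :
    ((l.map pp).prod).coeff (sz l) = (l.prod : ℤ) := by
  induction l with
  | nil => simp [sz]
  | cons n l ih =>
    have h1 := hl n List.mem_cons_self
    have h2 : ∀ m ∈ l, 1 ≤ m := fun m hm => hl m (List.mem_cons_of_mem _ hm)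
    have h3 : sz (n :: l) = (n - 1) + sz l := by simp [sz]
    rw [List.map_cons, List.prod_cons, h3, Polynomial.coeff_mul_add_eq_of_natDegree_le
      (pp_natDegree n h1) (prod_natDegree l h2), ih h2, pp_coeff n h1, List.prod_cons]
    push_cast
    ring

theorem fpoly_join {V : Type} [DecidableEq V] (l : List (Finset V)) :
    ∀ (Δ : Finset (Finset V)), (∀ τ ∈ l, 1 ≤ τ.card) → IsJoin Δ l →
      fpoly Δ = ((l.map Finset.card).map pp).prod := by
  induction l with
  | nil =>
    intro Δ _ h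
    have : Δ = {∅} := by
      ext F
      rw [h.2, Finset.mem_singleton]
      constructor
      · rintro ⟨h1, -⟩
        rw [Finset.eq_empty_iff_forall_notMem]
        intro x hx
        obtain ⟨τ, hτ, -⟩ := h1 x hx
        simp at hτ
      · rintro rfl
        simp
    rw [this]
    simp [fpoly]
  | cons τ l ih =>
    intro Δ hne h
    have hpw := List.pairwise_cons.1 h.1
    have hτ1 := hne τ List.mem_cons_self
    have hj : IsJoin (Δ.filter fun F => Disjoint F τ) l := by
      refine ⟨hpw.2, fun F => ?_⟩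
      rw [Finset.mem_filter, h.2]
      constructor
      · rintro ⟨⟨h1, h2⟩, h3⟩
        refine ⟨fun x hx => ?_, fun ρ hρ => h2 ρ (List.mem_cons_of_mem _ hρ)⟩
        obtain ⟨ρ, hρ, hxρ⟩ := h1 x hx
        rcases List.mem_cons.1 hρ with rfl | hρ
        · exact absurd hxρ (Finset.disjoint_left.1 h3 hx)
        · exact ⟨ρ, hρ, hxρ⟩
      · rintro ⟨h1, h2⟩
        have hd : Disjoint F τ := by
          rw [Finset.disjoint_left]
          intro x hx hxτ
          obtain ⟨ρ, hρ, hxρ⟩ := h1 x hx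
          exact Finset.disjoint_left.1 (hpw.1 ρ hρ) hxτ hxρ
        refine ⟨⟨fun x hx => ?_, fun ρ hρ => ?_⟩, hd⟩
        · obtain ⟨ρ, hρ, hxρ⟩ := h1 x hx
          exact ⟨ρ, List.mem_cons_of_mem _ hρ, hxρ⟩
        · rcases List.mem_cons.1 hρ with rfl | hρ
          · intro hs
            obtain ⟨x, hx⟩ := Finset.card_pos.1 (show 0 < ρ.card by omega)
            exact Finset.disjoint_left.1 hd (hs hx) hx
          · exact h2 ρ hρ
    have ih' := ih _ (fun ρ hρ => hne ρ (List.mem_cons_of_mem _ hρ)) hj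
    rw [List.map_cons, List.map_cons, List.prod_cons, ← ih']
    have hpp : pp τ.card = ∑ S ∈ τ.ssubsets, X ^ S.card := by
      unfold pp
      rw [← Finset.sum_pow_mul_eq_add_pow, Finset.ssubsets,
        ← Finset.sum_erase_add _ _ (Finset.mem_powerset_self τ)]
      simp
    rw [hpp]
    unfold fpoly
    rw [Finset.sum_mul_sum, ← Finset.sum_product']
    refine Finset.sum_bij' (fun F _ => (F ∩ τ, F \ τ)) (fun p _ => p.1 ∪ p.2) ?_ ?_ ?_ ?_ ?_
    · intro F hF
      rw [h.2] at hF
      rw [Finset.mem_product, Finset.mem_ssubsets, hj.2, Finset.ssubset_iff_subset_ne]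
      refine ⟨⟨Finset.inter_subset_right, ?_⟩, ?_, ?_⟩
      · intro he
        apply hF.2 τ List.mem_cons_self
        exact Finset.inter_eq_right.1 he
      · intro x hx
        rw [Finset.mem_sdiff] at hx
        obtain ⟨ρ, hρ, hxρ⟩ := hF.1 x hx.1
        rcases List.mem_cons.1 hρ with rfl | hρ
        · exact absurd hxρ hx.2
        · exact ⟨ρ, hρ, hxρ⟩
      · intro ρ hρ hs
        exact hF.2 ρ (List.mem_cons_of_mem _ hρ) (hs.trans Finset.sdiff_subset)
    · rintro ⟨S, G⟩ hp
      rw [Finset.mem_product, Finset.mem_ssubsets, Finset.mem_filter,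
        Finset.ssubset_iff_subset_ne] at hp
      obtain ⟨⟨hs, hne'⟩, hG, hd⟩ := hp
      have hs : S ⊆ τ := hs
      have hne' : S ≠ τ := hne'
      have hd : Disjoint G τ := hd
      have hG : G ∈ Δ := hG
      change S ∪ G ∈ Δ
      rw [h.2] at hG ⊢
      refine ⟨fun x hx => ?_, fun ρ hρ hsub => ?_⟩
      · rcases Finset.mem_union.1 hx with hx | hx
        · exact ⟨τ, List.mem_cons_self, hs hx⟩
        · exact hG.1 x hx
      · rcases List.mem_cons.1 hρ with rfl | hρ'
        · apply hne'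
          refine Finset.Subset.antisymm hs fun x hx => ?_
          rcases Finset.mem_union.1 (hsub hx) with h1 | h1
          · exact h1
          · exact absurd hx (Finset.disjoint_left.1 hd h1)
        · apply hG.2 ρ hρ
          intro x hx
          rcases Finset.mem_union.1 (hsub hx) with h1 | h1
          · exact absurd hx (Finset.disjoint_left.1 (hpw.1 ρ hρ') (hs h1))
          · exact h1
    · intro F _
      change F ∩ τ ∪ F \ τ = F
      ext x
      simp only [Finset.mem_union, Finset.mem_inter, Finset.mem_sdiff]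
      tauto
    · rintro ⟨S, G⟩ hp
      rw [Finset.mem_product, Finset.mem_ssubsets, Finset.mem_filter,
        Finset.ssubset_iff_subset_ne] at hp
      obtain ⟨⟨hs, _⟩, _, hd⟩ := hp
      have hs : S ⊆ τ := hs
      have hd : Disjoint G τ := hd
      change ((S ∪ G) ∩ τ, (S ∪ G) \ τ) = (S, G)
      rw [Prod.mk.injEq]
      constructor
      · ext x
        simp only [Finset.mem_union, Finset.mem_inter]
        constructor
        · rintro ⟨h1 | h1, h2⟩
          · exact h1
          · exact absurd h2 (Finset.disjoint_left.1 hd h1)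
        · exact fun h1 => ⟨Or.inl h1, hs h1⟩
      · ext x
        simp only [Finset.mem_union, Finset.mem_sdiff]
        constructor
        · rintro ⟨h1 | h1, h2⟩
          · exact absurd (hs h1) h2
          · exact h1
        · exact fun h1 => ⟨Or.inr h1, Finset.disjoint_left.1 hd h1⟩
    · intro F _
      change X ^ F.card = X ^ (F ∩ τ).card * X ^ (F \ τ).card
      rw [← pow_add, Finset.card_inter_add_card_sdiff]

/-- equality of the `g`-numbers gives equality of the `f`-numbers up to the middle -/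
theorem fnum_eq {V W : Type} {Δ : Finset (Finset V)} {K : Finset (Finset W)} {d : ℕ}
    (h0 : fnum Δ 0 = fnum K 0)
    (hg : ∀ j ≤ d / 2, gnum Δ d j = gnum K d j) : ∀ j ≤ d / 2, fnum Δ j = fnum K j := by
  have hh : ∀ j ≤ d / 2, hnum Δ d j = hnum K d j := by
    intro j
    induction j with
    | zero =>
      intro _
      simp [hnum, h0]
    | succ j ih =>
      intro hj
      have h1 := hg (j + 1) hj
      unfold gnum at h1
      rw [if_neg (by omega), if_neg (by omega), Nat.add_sub_cancel, ih (by omega)] at h1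
      omega
  intro j
  induction j using Nat.strong_induction_on with
  | _ j ih =>
    intro hj
    have h1 := hh j hj
    unfold hnum at h1
    rw [Finset.sum_range_succ, Finset.sum_range_succ] at h1
    have h2 : ∑ k ∈ Finset.range j, (-1 : ℤ) ^ (j - k) * ((d - k).choose (d - j) : ℤ) *
        (fnum Δ k : ℤ) = ∑ k ∈ Finset.range j, (-1 : ℤ) ^ (j - k) *
        ((d - k).choose (d - j) : ℤ) * (fnum K k : ℤ) := by
      refine Finset.sum_congr rfl fun k hk => ?_
      rw [Finset.mem_range] at hk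
      rw [ih k hk (by omega)]
    rw [h2, Nat.sub_self, pow_zero, Nat.choose_self] at h1
    have h3 := add_left_cancel h1
    simpa using h3

/-- two polynomials with the Dehn–Sommerville symmetry and the same lower half agree -/
theorem symm_eq (P Q : ℤ[X]) (d : ℕ) (hP : P.comp (-1 - X) = (-1) ^ d * P)
    (hQ : Q.comp (-1 - X) = (-1) ^ d * Q) (hPd : P.natDegree ≤ d) (hQd : Q.natDegree ≤ d)
    (h : ∀ j ≤ d / 2, P.coeff j = Q.coeff j) : P = Q := by
  by_contra hne
  have hD : P - Q ≠ 0 := sub_ne_zero.2 hne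
  have h1 : (X : ℤ[X]) ^ (d / 2 + 1) ∣ P - Q := by
    rw [Polynomial.X_pow_dvd_iff]
    intro k hk
    rw [Polynomial.coeff_sub, h k (by omega), sub_self]
  have h2 : (X + 1 : ℤ[X]) ^ (d / 2 + 1) ∣ P - Q := by
    obtain ⟨R, hR⟩ := h1
    have h3 : (P - Q).comp (-1 - X) = (-1) ^ d * (P - Q) := by
      rw [Polynomial.sub_comp, hP, hQ]; ring
    have h4 : P - Q = (-1) ^ d * (P - Q).comp (-1 - X) := by
      rw [h3, ← mul_assoc, ← mul_pow]; simp
    rw [h4]
    apply Dvd.dvd.mul_left
    rw [hR, Polynomial.mul_comp, Polynomial.X_pow_comp]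
    apply Dvd.dvd.mul_right
    have e2 : (-1 - X : ℤ[X]) = (-1) * (X + 1) := by ring
    rw [e2, mul_pow]
    exact Dvd.intro_left _ rfl
  have hco : IsCoprime ((X : ℤ[X]) ^ (d / 2 + 1)) ((X + 1) ^ (d / 2 + 1)) := by
    apply IsCoprime.pow
    exact ⟨-1, 1, by ring⟩
  have h5 := hco.mul_dvd h1 h2
  have h6 := Polynomial.natDegree_le_of_dvd h5 hD
  have h7 : ((X : ℤ[X]) ^ (d / 2 + 1) * (X + 1) ^ (d / 2 + 1)).natDegree =
      2 * (d / 2 + 1) := by
    have e3 : (X + 1 : ℤ[X]) = X + C 1 := by simp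
    rw [Polynomial.natDegree_mul (pow_ne_zero _ Polynomial.X_ne_zero)
      (pow_ne_zero _ (by rw [e3]; exact Polynomial.X_add_C_ne_zero 1)),
      Polynomial.natDegree_pow, Polynomial.natDegree_pow, Polynomial.natDegree_X, e3,
      Polynomial.natDegree_X_add_C]
    ring
  have h8 := (Polynomial.natDegree_sub_le P Q)
  have h9 : max P.natDegree Q.natDegree ≤ d := max_le hPd hQd
  omega

theorem fpoly_natDegree {V : Type} (Δ : Finset (Finset V)) (d : ℕ)
    (h : ∀ σ ∈ Δ, σ.card ≤ d) : (fpoly Δ).natDegree ≤ d := by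
  unfold fpoly
  refine Polynomial.natDegree_sum_le_of_forall_le _ _ fun F hF => ?_
  rw [Polynomial.natDegree_X_pow]
  exact h F hF

end Run7.h447.Sph
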