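import Pool.Agent.Run7.h447.SymNetDefs

namespace Run7.h447.SN

/-- fibres of a surjective homomorphism of finite groups -/
theorem card_fiber {A B : Type*} [AddCommGroup A] [AddCommGroup B] [Finite A]
    (f : A →+ B) (hf : Function.Surjective f) (b : B) :
    Nat.card {a // f a = b} * Nat.card B = Nat.card A := by
  obtain ⟨a0, rfl⟩ := hf b
  have h1 : Nat.card {a // f a = f a0} = Nat.card f.ker := by
    refine Nat.card_congr ⟨fun a => ⟨a.1 - a0, ?_⟩, fun k => ⟨k.1 + a0, ?_⟩, ?_, ?_⟩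
    · rw [AddMonoidHom.mem_ker, map_sub, a.2, sub_self]
    · rw [map_add, (AddMonoidHom.mem_ker).1 k.2, zero_add]
    · intro a; simp
    · intro a; simp
  have h2 : Nat.card B = Nat.card (A ⧸ f.ker) :=
    (Nat.card_congr (QuotientAddGroup.quotientKerEquivOfSurjective f hf).toEquiv).symm
  rw [h1, h2, mul_comm]
  exact (AddSubgroup.card_eq_card_quotient_mul_card_addSubgroup f.ker).symm

section Bil

variable {X M Y : Type} [AddCommGroup X] [AddCommGroup M] [AddCommGroup Y]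

/-- incidence of the net of a biadditive map -/
def Inc (B : X →+ M →+ Y) (v : X × Y) (w : M × Y) : Prop := v.2 = B v.1 w.1 + w.2

theorem isNet_of_bil [Finite X] [Finite M] [Finite Y] (B : X →+ M →+ Y)
    (h1 : ∀ m, m ≠ 0 → ∀ y, ∃ x, B x m = y) (s r μ : ℕ) (hs : 2 ≤ s) (hμ : 1 ≤ μ)
    (hr : 3 ≤ r) (cX : Nat.card X = s * μ) (cM : Nat.card M = r) (cY : Nat.card Y = s) :
    IsNet (Inc B) s r μ := by
  refine ⟨hs, hμ, hr, ?_, ?_, ?_⟩
  · rw [Nat.card_prod, cX, cY]; ring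
  · intro w
    rw [← cX]
    refine Nat.card_congr ⟨fun v => v.1.1, fun x => ⟨(x, B x w.1 + w.2), rfl⟩, ?_, ?_⟩
    · rintro ⟨⟨x, y⟩, h⟩
      simp only [Inc] at h
      simp [h]
    · intro x; rfl
  · have e : M ≃ Fin r := Finite.equivFinOfCardEq cM
    refine ⟨fun w => e w.1, ?_, ?_⟩
    · intro c v
      refine ⟨(e.symm c, v.2 - B v.1 (e.symm c)), ⟨by simp, by simp [Inc]⟩, ?_⟩
      rintro ⟨m, b⟩ ⟨h, h'⟩
      simp only [Inc] at h h'
      subst h
      simp [h']
    · rintro ⟨m, b⟩ ⟨m', b'⟩ h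
      have hm : m - m' ≠ 0 := by
        intro h0
        exact h (by simp [sub_eq_zero.1 h0])
      have hsurj : Function.Surjective (B.flip (m - m')) := fun y => by
        obtain ⟨x, hx⟩ := h1 _ hm y
        exact ⟨x, by simpa using hx⟩
      have hc := card_fiber (B.flip (m - m')) hsurj (b' - b)
      rw [cX, cY] at hc
      have hc' : Nat.card {a // (B.flip (m - m')) a = b' - b} = μ := by
        have : 0 < s := by omega
        rw [mul_comm s μ] at hc
        exact Nat.eq_of_mul_eq_mul_right this hc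
      rw [← hc']
      refine Nat.card_congr ⟨fun v => ⟨v.1.1, ?_⟩, fun x => ⟨(x.1, B x.1 m + b), rfl, ?_⟩, ?_, ?_⟩
      · obtain ⟨⟨x, y⟩, h1, h2⟩ := v
        simp only [Inc] at h1 h2
        rw [map_sub, AddMonoidHom.sub_apply, AddMonoidHom.flip_apply, AddMonoidHom.flip_apply,
          sub_eq_sub_iff_add_eq_add, ← h1, add_comm b', ← h2]
      · obtain ⟨x, hx⟩ := x
        rw [map_sub, AddMonoidHom.sub_apply, AddMonoidHom.flip_apply, AddMonoidHom.flip_apply,
          sub_eq_sub_iff_add_eq_add] at hx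
        simp only [Inc]
        rw [hx, add_comm]
      · rintro ⟨⟨x, y⟩, h1, h2⟩
        simp only [Inc] at h1
        simp [h1]
      · intro x; rfl

theorem isSymmetricNet_of_bil [Finite X] [Finite M] [Finite Y] (B : X →+ M →+ Y)
    (h1 : ∀ m, m ≠ 0 → ∀ y, ∃ x, B x m = y) (h2 : ∀ x, x ≠ 0 → ∀ y, ∃ m, B x m = y)
    (s μ : ℕ) (hs : 2 ≤ s) (hμ : 1 ≤ μ)
    (hr : 3 ≤ s * μ) (cX : Nat.card X = s * μ) (cM : Nat.card M = s * μ) (cY : Nat.card Y = s) :
    IsSymmetricNet (Inc B) s μ := by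
  refine ⟨isNet_of_bil B h1 s _ μ hs hμ hr cX cM cY, ?_⟩
  have := isNet_of_bil (-B.flip) (by
    intro x hx y
    obtain ⟨m, hm⟩ := h2 x hx (-y)
    exact ⟨m, by simp [hm]⟩) s _ μ hs hμ hr cM cX cY
  convert this using 1
  funext w v
  simp only [Inc, AddMonoidHom.neg_apply, AddMonoidHom.flip_apply, eq_iff_iff]
  constructor
  · intro h; rw [h]; abel
  · intro h; rw [h]; abel

end Bil

/-- The group of all automorphisms. -/
def autGroup {V W : Type} (I : V → W → Prop) : Subgroup (Equiv.Perm V) where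
  carrier := {g | IsAutomorphism I g}
  mul_mem' := by
    rintro a b ⟨h, hh⟩ ⟨k, hk⟩
    exact ⟨h * k, fun v w => by rw [hk v w, hh]; rfl⟩
  one_mem' := ⟨1, fun v w => Iff.rfl⟩
  inv_mem' := by
    rintro a ⟨h, hh⟩
    refine ⟨h⁻¹, fun v w => ?_⟩
    rw [hh (a⁻¹ v) (h⁻¹ w)]
    simp

section Auts

variable {X M Y : Type} [AddCommGroup X] [AddCommGroup M] [AddCommGroup Y] (B : X →+ M →+ Y)

theorem aut_trans (u : X) (t : Y) :
    ((Equiv.addRight u).prodCongr (Equiv.addRight t) : Equiv.Perm (X × Y)) ∈ autGroup (Inc B) := by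
  refine ⟨⟨fun w => (w.1, w.2 + (t - B u w.1)), fun w => (w.1, w.2 - (t - B u w.1)), ?_, ?_⟩, ?_⟩
  · intro w; simp
  · intro w; simp
  · rintro ⟨x, y⟩ ⟨m, b⟩
    simp only [Inc, Equiv.prodCongr_apply, Prod.map, Equiv.coe_addRight, Equiv.coe_fn_mk, map_add,
      AddMonoidHom.add_apply]
    constructor
    · intro h; rw [h]; abel
    · intro h
      have : y = (B x m + B u m + (b + (t - B u m))) - t := by rw [← h]; abel
      rw [this]; abel

/-- shears -/
def shear (a : M) : Equiv.Perm (X × Y) where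
  toFun v := (v.1, v.2 + B v.1 a)
  invFun v := (v.1, v.2 - B v.1 a)
  left_inv v := by simp
  right_inv v := by simp

theorem aut_shear (a : M) : shear B a ∈ autGroup (Inc B) := by
  refine ⟨(Equiv.addRight a).prodCongr (Equiv.refl Y), ?_⟩
  rintro ⟨x, y⟩ ⟨m, b⟩
  simp only [Inc, shear, Equiv.coe_fn_mk, Equiv.prodCongr_apply, Prod.map, Equiv.coe_addRight,
    map_add, Equiv.refl_apply]
  constructor
  · intro h; rw [h]; abel
  · intro h
    have : y = (B x m + B x a + b) - B x a := by rw [← h]; abel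
    rw [this]; abel

theorem aut_lin (α : X ≃+ X) (β : M ≃+ M) (γ : Y ≃+ Y) (h : ∀ x m, γ (B x m) = B (α x) (β m)) :
    (α.toEquiv.prodCongr γ.toEquiv : Equiv.Perm (X × Y)) ∈ autGroup (Inc B) := by
  refine ⟨β.toEquiv.prodCongr γ.toEquiv, ?_⟩
  rintro ⟨x, y⟩ ⟨m, b⟩
  simp only [Inc, Equiv.prodCongr_apply, Prod.map, AddEquiv.toEquiv_eq_coe, EquivLike.coe_coe]
  rw [← h, ← map_add, γ.injective.eq_iff]

end Auts

end Run7.h447.SN
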