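import Mathlib

namespace Run7.h447.SN

/-- The incidence structure with points `V`, blocks `W` and incidence relation `I`
is an `(s, r, μ)`-net. -/
def IsNet {V W : Type} (I : V → W → Prop) (s r μ : ℕ) : Prop :=
  2 ≤ s ∧ 1 ≤ μ ∧ 3 ≤ r ∧
  Nat.card V = s ^ 2 * μ ∧
  (∀ w, Nat.card {v // I v w} = s * μ) ∧
  ∃ cls : W → Fin r,
    (∀ (c : Fin r) (v : V), ∃! w, cls w = c ∧ I v w) ∧
    ∀ w w', cls w ≠ cls w' → Nat.card {v // I v w ∧ I v w'} = μ

/-- A symmetric `(s, μ)`-net: an `(s, sμ, μ)`-net whose dual is an `(s, sμ, μ)`-net. -/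
def IsSymmetricNet {V W : Type} (I : V → W → Prop) (s μ : ℕ) : Prop :=
  IsNet I s (s * μ) μ ∧ IsNet (fun (w : W) (v : V) => I v w) s (s * μ) μ

/-- Two distinct points are joined if some block contains both. -/
def Joined {V W : Type} (I : V → W → Prop) (p q : V) : Prop :=
  p ≠ q ∧ ∃ w, I p w ∧ I q w

/-- Two distinct points that are not joined. -/
def NonJoined {V W : Type} (I : V → W → Prop) (p q : V) : Prop :=
  p ≠ q ∧ ¬ ∃ w, I p w ∧ I q w

/-- A permutation of the points that maps blocks to blocks. -/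
def IsAutomorphism {V W : Type} (I : V → W → Prop) (g : Equiv.Perm V) : Prop :=
  ∃ h : Equiv.Perm W, ∀ v w, I v w ↔ I (g v) (h w)

/-- `G` is transitive on the ordered pairs `(p, q)` with `R p q`. -/
def TransitiveOn {V : Type} (G : Subgroup (Equiv.Perm V)) (R : V → V → Prop) : Prop :=
  ∀ p q p' q', R p q → R p' q' → ∃ g ∈ G, g p = p' ∧ g q = q'

/-- The classical symmetric nets: the points of `AG(d, q)`, and the hyperplanes that do not
contain a translate of the line spanned by `l`. -/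
def IsClassical {V W : Type} (I : V → W → Prop) : Prop :=
  ∃ (F : Type) (_ : Field F) (_ : Finite F) (d : ℕ) (l : Fin d → F), 2 ≤ d ∧ l ≠ 0 ∧
    ∃ (e : V ≃ (Fin d → F))
      (e' : W ≃ {H : Set (Fin d → F) //
        ∃ (f : (Fin d → F) →ₗ[F] F) (c : F), f l ≠ 0 ∧ H = {x | f x = c}}),
      ∀ v w, I v w ↔ e v ∈ (e' w).1

end Run7.h447.SN
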