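import Pool.Agent.Run7.h447.SymNet

namespace Run7.h447.SN

section Fld

variable (E K : Type) [Field E] [Field K] [Algebra E K] [Finite E] [Finite K] [CharP E 2]
  [CharP K 2]

/-- the Artin-Schreier map `a ↦ a² + a` -/
def as : E →+ E := (frobenius E 2 : E →+* E).toAddMonoidHom + AddMonoidHom.id E

omit [Finite E] in
theorem as_apply (a : E) : as E a = a ^ 2 + a := by
  simp [as, frobenius_def]

omit [Finite E] in
theorem as_eq_zero {a : E} (h : as E a = 0) : a = 0 ∨ a = 1 := by
  rw [as_apply] at h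
  have : a * (a + 1) = 0 := by linear_combination h
  rcases mul_eq_zero.1 this with h | h
  · exact Or.inl h
  · right
    rw [← CharTwo.sub_eq_add, sub_eq_zero] at h
    exact h

/-- the value group of the net -/
abbrev YY : Type := (as E).range

theorem card_Y (hE : Nat.card E = 8) : Nat.card (YY E) = 4 := by
  have h := card_fiber (as E).rangeRestrict (as E).rangeRestrict_surjective 0
  have h2 : Nat.card {a // (as E).rangeRestrict a = 0} = 2 := by
    have : Nat.card {a // (as E).rangeRestrict a = 0} = Nat.card ({0, 1} : Set E) := by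
      refine Nat.card_congr (Equiv.subtypeEquivRight fun a => ?_)
      constructor
      · intro h
        have h' : as E a = 0 := by
          have := congrArg Subtype.val h
          simpa using this
        simpa using as_eq_zero E h'
      · intro h
        apply Subtype.ext
        have : a = 0 ∨ a = 1 := by simpa using h
        rcases this with rfl | rfl
        · simp
        · simp [as_apply, CharTwo.add_self_eq_zero]
    rw [this, Nat.card_coe_set_eq, Set.ncard_pair zero_ne_one]
  rw [h2, hE] at h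
  change 2 * Nat.card (YY E) = 8 at h
  omega

/-- composite of trace and the Artin-Schreier map -/
noncomputable def gg : K →+ YY E :=
  (as E).rangeRestrict.comp (Algebra.trace E K).toAddMonoidHom

theorem gg_apply (x : K) : (gg E K x : E) = as E (Algebra.trace E K x) := rfl

/-- the biadditive map -/
noncomputable def BB : K →+ K →+ YY E :=
  (AddMonoidHom.compHom (gg E K)).comp AddMonoidHom.mul

theorem BB_apply (x m : K) : BB E K x m = gg E K (x * m) := rfl

theorem gg_surj : Function.Surjective (gg E K) := by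
  intro y
  obtain ⟨a, ha⟩ := (as E).rangeRestrict_surjective y
  obtain ⟨x, hx⟩ := Algebra.trace_surjective E K a
  exact ⟨x, by rw [← ha, ← hx]; rfl⟩

theorem BB_surj1 (m : K) (hm : m ≠ 0) (y : YY E) : ∃ x, BB E K x m = y := by
  obtain ⟨z, hz⟩ := gg_surj E K y
  exact ⟨z * m⁻¹, by rw [BB_apply, mul_assoc, inv_mul_cancel₀ hm, mul_one, hz]⟩

theorem BB_surj2 (x : K) (hx : x ≠ 0) (y : YY E) : ∃ m, BB E K x m = y := by
  obtain ⟨z, hz⟩ := gg_surj E K y
  exact ⟨x⁻¹ * z, by rw [BB_apply, ← mul_assoc, mul_inv_cancel₀ hx, one_mul, hz]⟩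

theorem trace_sq (x : K) : Algebra.trace E K (x ^ 2) = (Algebra.trace E K x) ^ 2 := by
  apply (algebraMap E K).injective
  rw [trace_eq_sum_automorphisms, map_pow (algebraMap E K), trace_eq_sum_automorphisms]
  have := map_sum (frobenius K 2) (fun σ : Gal(K/E) => σ x) Finset.univ
  simp only [frobenius_def] at this
  rw [this]
  simp

/-- squaring on the value group -/
def sqHom : YY E →+ YY E where
  toFun y := ⟨(y : E) ^ 2, by
    obtain ⟨a, ha⟩ := y.2
    refine ⟨a ^ 2, ?_⟩
    rw [← ha, as_apply, as_apply, CharTwo.add_sq]⟩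
  map_zero' := by ext; simp
  map_add' := by
    intro x y
    ext
    simp [CharTwo.add_sq]

/-- squaring on the value group, as an equivalence -/
noncomputable def sqY : YY E ≃+ YY E := by
  refine AddEquiv.ofBijective (sqHom E) ?_
  have : Function.Injective (sqHom E) := by
    intro x y h
    have h' : (x : E) ^ 2 = (y : E) ^ 2 := congrArg Subtype.val h
    exact Subtype.ext (frobenius_inj E 2 h')
  exact Finite.injective_iff_bijective.1 this

theorem sqY_apply (y : YY E) : (sqY E y : E) = (y : E) ^ 2 := rfl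

theorem gg_sq (x : K) : gg E K (x ^ 2) = sqY E (gg E K x) := by
  apply Subtype.ext
  rw [sqY_apply, gg_apply, gg_apply, trace_sq, as_apply, as_apply, CharTwo.add_sq]

theorem card_K_pos_lemma (hE : Nat.card E = 8) : 2 ≤ Nat.card (YY E) := by
  rw [card_Y E hE]; norm_num

/-- two points with the same first coordinate are not joined, and conversely -/
theorem joined_iff (p q : K × YY E) : Joined (Inc (BB E K)) p q ↔ p.1 ≠ q.1 := by
  constructor
  · rintro ⟨hne, ⟨m, b⟩, h1, h2⟩ h
    apply hne
    simp only [Inc] at h1 h2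
    exact Prod.ext h (by rw [h1, h2, h])
  · intro h
    refine ⟨fun h' => h (by rw [h']), ?_⟩
    obtain ⟨m, hm⟩ := BB_surj2 E K (p.1 - q.1) (sub_ne_zero.2 h) (p.2 - q.2)
    refine ⟨(m, p.2 - BB E K p.1 m), by simp [Inc], ?_⟩
    simp only [Inc]
    rw [map_sub, AddMonoidHom.sub_apply, sub_eq_sub_iff_add_eq_add] at hm
    have : q.2 = BB E K p.1 m + q.2 - BB E K p.1 m := by abel
    rw [this, hm]
    abel

theorem nonjoined_iff (p q : K × YY E) :
    NonJoined (Inc (BB E K)) p q ↔ p.1 = q.1 ∧ p.2 ≠ q.2 := by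
  constructor
  · rintro ⟨hne, h⟩
    have h1 : p.1 = q.1 := by
      by_contra h'
      exact h ((joined_iff E K p q).2 h').2
    exact ⟨h1, fun h2 => hne (Prod.ext h1 h2)⟩
  · rintro ⟨h1, h2⟩
    refine ⟨fun h => h2 (by rw [h]), fun h => ?_⟩
    exact (joined_iff E K p q).1 ⟨fun h => h2 (by rw [h]), h⟩ h1

/-- multiplication by a nonzero field element -/
def mulE (c : K) (hc : c ≠ 0) : K ≃+ K where
  toFun x := c * x
  invFun x := c⁻¹ * x
  left_inv x := inv_mul_cancel_left₀ hc x
  right_inv x := mul_inv_cancel_left₀ hc x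
  map_add' x y := mul_add c x y

/-- scaling by a nonzero field element -/
noncomputable def scal (c : K) (hc : c ≠ 0) : Equiv.Perm (K × YY E) :=
  ((mulE K c hc).toEquiv.prodCongr (AddEquiv.refl (YY E)).toEquiv)

theorem scal_apply (c : K) (hc : c ≠ 0) (v : K × YY E) : scal E K c hc v = (c * v.1, v.2) := rfl

theorem aut_scal (c : K) (hc : c ≠ 0) : scal E K c hc ∈ autGroup (Inc (BB E K)) := by
  refine aut_lin (BB E K) (mulE K c hc) (mulE K c⁻¹ (inv_ne_zero hc))
    (AddEquiv.refl _) ?_
  intro x m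
  change gg E K (x * m) = gg E K ((c * x) * (c⁻¹ * m))
  congr 1
  field_simp

/-- the Frobenius automorphism of the net -/
noncomputable def frob : Equiv.Perm (K × YY E) :=
  ((frobeniusEquiv K 2).toAddEquiv.toEquiv.prodCongr (sqY E).toEquiv)

theorem aut_frob : frob E K ∈ autGroup (Inc (BB E K)) := by
  refine aut_lin (BB E K) (frobeniusEquiv K 2).toAddEquiv (frobeniusEquiv K 2).toAddEquiv
    (sqY E) ?_
  intro x m
  rw [BB_apply, BB_apply, ← gg_sq]
  simp [frobenius_def, mul_pow]

/-- every joined pair can be moved to the standard one -/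
theorem joined_std (p q : K × YY E) (h : Joined (Inc (BB E K)) p q) :
    ∃ g ∈ autGroup (Inc (BB E K)), g p = (0, 0) ∧ g q = (1, 0) := by
  rw [joined_iff] at h
  have hx : q.1 - p.1 ≠ 0 := sub_ne_zero.2 (Ne.symm h)
  obtain ⟨a, ha⟩ := BB_surj2 E K 1 one_ne_zero (-(q.2 - p.2))
  refine ⟨shear (BB E K) a * (scal E K (q.1 - p.1)⁻¹ (inv_ne_zero hx) *
    ((Equiv.addRight (-p.1)).prodCongr (Equiv.addRight (-p.2)))),
    mul_mem (aut_shear _ _) (mul_mem (aut_scal _ _ _ _) (aut_trans _ _ _)), ?_, ?_⟩
  · change ((q.1 - p.1)⁻¹ * (p.1 + -p.1), p.2 + -p.2 + BB E K ((q.1 - p.1)⁻¹ * (p.1 + -p.1)) a) =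
      ((0, 0) : K × YY E)
    simp
  · change ((q.1 - p.1)⁻¹ * (q.1 + -p.1), q.2 + -p.2 + BB E K ((q.1 - p.1)⁻¹ * (q.1 + -p.1)) a) =
      ((1, 0) : K × YY E)
    have h1 : (q.1 - p.1)⁻¹ * (q.1 + -p.1) = 1 := by
      rw [← sub_eq_add_neg, inv_mul_cancel₀ hx]
    rw [h1, ha]
    refine Prod.ext rfl ?_
    change q.2 + -p.2 + -(q.2 - p.2) = 0
    abel

theorem trans_joined : TransitiveOn (autGroup (Inc (BB E K))) (Joined (Inc (BB E K))) := by
  intro p q p' q' h h'
  obtain ⟨g, hg, h1, h2⟩ := joined_std E K p q h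
  obtain ⟨g', hg', h1', h2'⟩ := joined_std E K p' q' h'
  refine ⟨g'⁻¹ * g, mul_mem (inv_mem hg') hg, ?_, ?_⟩
  · rw [Equiv.Perm.mul_apply, h1, ← h1']; exact g'.symm_apply_apply p'
  · rw [Equiv.Perm.mul_apply, h2, ← h2']; exact g'.symm_apply_apply q'

/-- the three nonzero elements of the value group are cyclically permuted by squaring -/
theorem Y_orbit (hE : Nat.card E = 8) (y z : YY E) (hy : y ≠ 0) (hz : z ≠ 0) :
    z = y ∨ z = sqY E y ∨ z = sqY E (sqY E y) := by
  by_contra hcon
  push Not at hcon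
  obtain ⟨h1, h2, h3⟩ := hcon
  have hy0 : (y : E) ≠ 0 := fun h => hy (Subtype.ext h)
  have h7 : ∀ a : E, a ≠ 0 → a ^ 7 = 1 := by
    intro a ha
    have : Fintype E := Fintype.ofFinite E
    have hc : Fintype.card E = 8 := by rw [← Nat.card_eq_fintype_card, hE]
    have := FiniteField.pow_card_sub_one_eq_one a ha
    rwa [hc] at this
  have hone : ∀ b : YY E, (b : E) ≠ 1 := by
    intro b hb
    obtain ⟨a, ha⟩ := b.2
    rw [hb, as_apply] at ha
    have ha0 : a ≠ 0 := by rintro rfl; simp at ha
    have h8 := h7 a ha0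
    have h2 : (2 : E) = 0 := CharTwo.two_eq_zero
    have h3 : a ^ 3 = 1 := by
      have : a ^ 3 = (a ^ 2 + a) * (a + 1) - 2 * a ^ 2 - a := by ring
      rw [this, ha, h2]; ring
    have h1 : a = 1 := by
      have : a ^ 7 = (a ^ 3) ^ 2 * a := by ring
      rw [h3, h8] at this
      simpa using this.symm
    rw [h1] at ha
    have : (1 : E) ^ 2 + 1 = 2 := by ring
    rw [this, h2] at ha
    exact zero_ne_one ha
  have hsq : ∀ b : YY E, b ≠ 0 → sqY E b ≠ b := by
    intro b hb h
    have h' : (b : E) ^ 2 = b := congrArg Subtype.val h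
    have hb0 : (b : E) ≠ 0 := fun h => hb (Subtype.ext h)
    apply hone b
    have : (b : E) * ((b : E) - 1) = 0 := by linear_combination h'
    rcases mul_eq_zero.1 this with h | h
    · exact absurd h hb0
    · exact sub_eq_zero.1 h
  have hsq2 : sqY E (sqY E y) ≠ y := by
    intro h
    have h' : ((y : E) ^ 2) ^ 2 = y := congrArg Subtype.val h
    have h3 : (y : E) ^ 3 = 1 := by
      have : (y : E) * ((y : E) ^ 3 - 1) = 0 := by linear_combination h'
      rcases mul_eq_zero.1 this with h | h
      · exact absurd h hy0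
      · exact sub_eq_zero.1 h
    have h8 := h7 y hy0
    apply hone y
    have : (y : E) ^ 7 = (y ^ 3) ^ 2 * y := by ring
    rw [h3, h8] at this
    simpa using this.symm
  have hsy : sqY E y ≠ 0 := by
    intro h
    exact hy ((sqY E).injective (by rw [h, map_zero]))
  have hssy : sqY E (sqY E y) ≠ 0 := by
    intro h
    exact hsy ((sqY E).injective (by rw [h, map_zero]))
  have hn : List.Nodup [z, y, sqY E y, sqY E (sqY E y), 0] := by
    simp only [List.nodup_cons, List.mem_cons, List.not_mem_nil, or_false, not_or]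
    exact ⟨⟨h1, h2, h3, hz⟩, ⟨(hsq y hy).symm, hsq2.symm, hy⟩, ⟨(hsq _ hsy).symm, hsy⟩, hssy,
      not_false, List.nodup_nil⟩
  have : Fintype (YY E) := Fintype.ofFinite _
  have hle := hn.length_le_card
  rw [← Nat.card_eq_fintype_card, card_Y E hE] at hle
  simp at hle

theorem nonjoined_std (hE : Nat.card E = 8) (y0 : YY E) (hy0 : y0 ≠ 0) (p q : K × YY E)
    (h : NonJoined (Inc (BB E K)) p q) :
    ∃ g ∈ autGroup (Inc (BB E K)), g p = (0, 0) ∧ g q = (0, y0) := by
  rw [nonjoined_iff] at h
  obtain ⟨h1, h2⟩ := h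
  have hy : q.2 - p.2 ≠ 0 := sub_ne_zero.2 (Ne.symm h2)
  have base : ((Equiv.addRight (-p.1)).prodCongr (Equiv.addRight (-p.2)) :
      Equiv.Perm (K × YY E)) ∈ autGroup (Inc (BB E K)) := aut_trans _ _ _
  have b1 : ((Equiv.addRight (-p.1)).prodCongr (Equiv.addRight (-p.2)) :
      Equiv.Perm (K × YY E)) p = (0, 0) := by
    change (p.1 + -p.1, p.2 + -p.2) = ((0, 0) : K × YY E)
    simp
  have b2 : ((Equiv.addRight (-p.1)).prodCongr (Equiv.addRight (-p.2)) :
      Equiv.Perm (K × YY E)) q = (0, q.2 - p.2) := by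
    change (q.1 + -p.1, q.2 + -p.2) = ((0, q.2 - p.2) : K × YY E)
    rw [h1, ← sub_eq_add_neg, ← sub_eq_add_neg, sub_self]
  have f0 : frob E K (0, 0) = (0, 0) := by simp [frob]
  have f1 : ∀ y, frob E K (0, y) = (0, sqY E y) := by intro y; simp [frob]
  rcases Y_orbit E hE (q.2 - p.2) y0 hy hy0 with h | h | h
  · exact ⟨_, base, b1, by rw [b2, h]⟩
  · exact ⟨frob E K * _, mul_mem (aut_frob E K) base, by rw [Equiv.Perm.mul_apply, b1, f0],
      by rw [Equiv.Perm.mul_apply, b2, f1, h]⟩
  · exact ⟨frob E K * (frob E K * _), mul_mem (aut_frob E K) (mul_mem (aut_frob E K) base),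
      by rw [Equiv.Perm.mul_apply, Equiv.Perm.mul_apply, b1, f0, f0],
      by rw [Equiv.Perm.mul_apply, Equiv.Perm.mul_apply, b2, f1, f1, h]⟩

theorem trans_nonjoined (hE : Nat.card E = 8) :
    TransitiveOn (autGroup (Inc (BB E K))) (NonJoined (Inc (BB E K))) := by
  have : Nontrivial (YY E) := by
    rw [← Finite.one_lt_card_iff_nontrivial, card_Y E hE]; norm_num
  obtain ⟨y0, hy0⟩ := exists_ne (0 : YY E)
  intro p q p' q' h h'
  obtain ⟨g, hg, h1, h2⟩ := nonjoined_std E K hE y0 hy0 p q h
  obtain ⟨g', hg', h1', h2'⟩ := nonjoined_std E K hE y0 hy0 p' q' h'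
  refine ⟨g'⁻¹ * g, mul_mem (inv_mem hg') hg, ?_, ?_⟩
  · rw [Equiv.Perm.mul_apply, h1, ← h1']; exact g'.symm_apply_apply p'
  · rw [Equiv.Perm.mul_apply, h2, ← h2']; exact g'.symm_apply_apply q'

/-- the line through `(0,0)` and `(1,0)` has only these two points -/
theorem line_two (hE : Nat.card E = 8) (r : K × YY E)
    (h : ∀ w, Inc (BB E K) (0, 0) w → Inc (BB E K) (1, 0) w → Inc (BB E K) r w) :
    r = (0, 0) ∨ r = (1, 0) := by
  obtain ⟨x, y⟩ := r
  have hy : y = 0 := by
    have := h (0, 0) (by simp [Inc]) (by simp [Inc])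
    simpa [Inc] using this
  subst hy
  -- property of `x`
  have hP : ∀ m : K, (Algebra.trace E K m = 0 ∨ Algebra.trace E K m = 1) →
      (Algebra.trace E K (x * m) = 0 ∨ Algebra.trace E K (x * m) = 1) := by
    intro m hm
    have h0 : gg E K m = 0 := by
      apply Subtype.ext
      rw [gg_apply, as_apply]
      rcases hm with h | h
      · rw [h]; simp
      · rw [h]; simp [CharTwo.add_self_eq_zero]
    have := h (m, 0) (by simp [Inc]) (by simp [Inc, BB_apply, h0])
    have h1 : gg E K (x * m) = 0 := by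
      simp only [Inc, add_zero, BB_apply] at this
      exact this.symm
    have h2 : as E (Algebra.trace E K (x * m)) = 0 := by
      rw [← gg_apply, h1]; rfl
    exact as_eq_zero E h2
  have hP0 : ∀ m : K, Algebra.trace E K m = 0 → Algebra.trace E K (x * m) = 0 := by
    intro m hm
    rcases hP m (Or.inl hm) with h1 | h1
    · exact h1
    · exfalso
      -- scale by an element outside {0,1}
      have hex : ∃ a : E, a ≠ 0 ∧ a ≠ 1 := by
        by_contra hcon
        push Not at hcon
        have hsub : (Set.univ : Set E) ⊆ {0, 1} := by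
          intro a _
          by_cases ha : a = 0
          · simp [ha]
          · simp [hcon a ha]
        have := Set.ncard_le_ncard hsub
        rw [Set.ncard_univ, hE, Set.ncard_pair zero_ne_one] at this
        omega
      obtain ⟨a, ha0, ha1⟩ := hex
      have h2 := hP (a • m) (Or.inl (by rw [map_smul, hm, smul_zero]))
      rw [mul_smul_comm, map_smul, h1, smul_eq_mul, mul_one] at h2
      rcases h2 with h2 | h2
      · exact ha0 h2
      · exact ha1 h2
  obtain ⟨m0, hm0⟩ := Algebra.trace_surjective E K 1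
  set c := Algebra.trace E K (x * m0) with hc
  have hc01 : c = 0 ∨ c = 1 := hP m0 (Or.inr hm0)
  have hlin : ∀ m : K, Algebra.trace E K (x * m) = c * Algebra.trace E K m := by
    intro m
    have := hP0 (m - (Algebra.trace E K m) • m0) (by
      rw [map_sub, map_smul, hm0, smul_eq_mul, mul_one, sub_self])
    rw [mul_sub, mul_smul_comm, map_sub, map_smul, smul_eq_mul, sub_eq_zero] at this
    rw [this, hc, mul_comm]
  have hx : x = algebraMap E K c := by
    by_contra hne
    have hz : x - algebraMap E K c ≠ 0 := sub_ne_zero.2 hne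
    obtain ⟨t, ht⟩ := Algebra.trace_surjective E K 1
    have h1 := hlin ((x - algebraMap E K c)⁻¹ * t)
    have h2 : Algebra.trace E K ((x - algebraMap E K c) * ((x - algebraMap E K c)⁻¹ * t)) = 0 := by
      rw [sub_mul, map_sub, h1, ← Algebra.smul_def, map_smul, smul_eq_mul, sub_self]
    rw [← mul_assoc, mul_inv_cancel₀ hz, one_mul, ht] at h2
    exact one_ne_zero h2
  rcases hc01 with h | h
  · left; rw [hx, h]; simp
  · right; rw [hx, h]; simp

theorem not_classical (hE : Nat.card E = 8) : ¬ IsClassical (Inc (BB E K)) := by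
  rintro ⟨F, hF, hfin, d, l, hd, hl, e, e', he⟩
  -- card F = 4
  have cV : Nat.card (Fin d → F) = Nat.card K * 4 := by
    rw [← Nat.card_congr e, Nat.card_prod, card_Y E hE]
  obtain ⟨f, c, hfl, hH⟩ := (e' (0, 0)).2
  have hsurj : Function.Surjective f.toAddMonoidHom := by
    intro b
    refine ⟨(b * (f l)⁻¹) • l, ?_⟩
    change f _ = b
    rw [map_smul, smul_eq_mul, mul_assoc, inv_mul_cancel₀ hfl, mul_one]
  have hfib := card_fiber f.toAddMonoidHom hsurj c
  have hblock : Nat.card {a // f.toAddMonoidHom a = c} = Nat.card K := by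
    have h1 : Nat.card {v // Inc (BB E K) v (0, 0)} = Nat.card {a // f.toAddMonoidHom a = c} := by
      refine Nat.card_congr (e.subtypeEquiv fun v => ?_)
      rw [he, hH]
      rfl
    rw [← h1]
    refine Nat.card_congr ⟨fun v => v.1.1, fun x => ⟨(x, 0), by simp [Inc]⟩, ?_, ?_⟩
    · rintro ⟨⟨x, y⟩, h⟩
      simp only [Inc, map_zero, add_zero] at h
      simp [h]
    · intro x; rfl
  rw [hblock, cV] at hfib
  have hq : Nat.card F = 4 := by
    have : 0 < Nat.card K := Nat.card_pos
    exact Nat.eq_of_mul_eq_mul_left this hfib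
  have hex : ∃ a : F, a ≠ 0 ∧ a ≠ 1 := by
    by_contra hcon
    push Not at hcon
    have hsub : (Set.univ : Set F) ⊆ {0, 1} := by
      intro a _
      by_cases ha : a = 0
      · simp [ha]
      · simp [hcon a ha]
    have := Set.ncard_le_ncard hsub
    rw [Set.ncard_univ, hq, Set.ncard_pair zero_ne_one] at this
    omega
  obtain ⟨a, ha0, ha1⟩ := hex
  set P : Fin d → F := e (0, 0) with hP
  set Q : Fin d → F := e (1, 0) with hQ
  have hPQ : P ≠ Q := by
    intro h
    have := e.injective h
    simp at this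
  have hline := line_two E K hE (e.symm (P + a • (Q - P))) (by
    intro w h1 h2
    rw [he] at h1 h2 ⊢
    rw [Equiv.apply_symm_apply]
    obtain ⟨g, b, -, hg⟩ := (e' w).2
    rw [hg] at h1 h2 ⊢
    change g _ = b at h1
    change g _ = b at h2
    change g _ = b
    rw [map_add, map_smul, map_sub, h1, h2, sub_self, smul_zero, add_zero])
  rcases hline with h | h
  · have : P + a • (Q - P) = P := by
      have := congrArg e h
      rwa [Equiv.apply_symm_apply] at this
    have h2 : a • (Q - P) = 0 := by simpa using this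
    rcases smul_eq_zero.1 h2 with h3 | h3
    · exact ha0 h3
    · exact hPQ (sub_eq_zero.1 h3).symm
  · have : P + a • (Q - P) = Q := by
      have := congrArg e h
      rwa [Equiv.apply_symm_apply] at this
    have h2 : (a - 1) • (Q - P) = 0 := by
      rw [sub_smul, one_smul, sub_eq_zero]
      exact eq_sub_iff_add_eq'.2 this
    rcases smul_eq_zero.1 h2 with h3 | h3
    · exact ha1 (sub_eq_zero.1 h3)
    · exact hPQ (sub_eq_zero.1 h3).symm

end Fld

end Run7.h447.SN
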