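import Pool.Agent.Run7.h447.Af

/-!
# The action of pairs of affine maps on the 16-regular rooted tree

A pair of affine maps of `ℤ²` acts on `ℤ⁴`, and on the 2-adic digits of vectors: the words over the
alphabet `{0,1}⁴`, which we number from `0` to `15`.
-/

set_option autoImplicit false

namespace Pool.Agent.Run7.h447

open Af

/-- pairs of affine maps -/
abbrev AA := Af × Af

/-- a vector of `ℤ⁴` -/
@[ext] structure V4 where
  x : ℤ
  y : ℤ
  z : ℤ
  w : ℤ

namespace V4

/-- application of a pair of affine maps -/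
def ap (g : AA) (v : V4) : V4 :=
  ⟨g.1.a * v.x + g.1.b * v.y + g.1.s, g.1.c * v.x + g.1.d * v.y + g.1.t,
    g.2.a * v.z + g.2.b * v.w + g.2.s, g.2.c * v.z + g.2.d * v.w + g.2.t⟩

/-- the first digit -/
def enc (v : V4) : Fin 16 :=
  ⟨(v.x % 2 + 2 * (v.y % 2) + 4 * (v.z % 2) + 8 * (v.w % 2)).toNat, by omega⟩

/-- the digit as a vector -/
def dec (x : Fin 16) : V4 :=
  ⟨((x.1 % 2 : ℕ) : ℤ), ((x.1 / 2 % 2 : ℕ) : ℤ), ((x.1 / 4 % 2 : ℕ) : ℤ), ((x.1 / 8 % 2 : ℕ) : ℤ)⟩

/-- the quotient -/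
def half (v : V4) : V4 := ⟨v.x / 2, v.y / 2, v.z / 2, v.w / 2⟩

theorem dec_enc (v : V4) : dec (enc v) = ⟨v.x % 2, v.y % 2, v.z % 2, v.w % 2⟩ := by
  unfold dec enc
  ext <;> dsimp only <;> omega

theorem enc_dec (x : Fin 16) : enc (dec x) = x := by
  apply Fin.ext
  have := x.2
  unfold dec enc
  dsimp only
  omega

theorem enc_eq_iff (v u : V4) : enc v = enc u ↔
    v.x % 2 = u.x % 2 ∧ v.y % 2 = u.y % 2 ∧ v.z % 2 = u.z % 2 ∧ v.w % 2 = u.w % 2 := by
  constructor
  · intro h
    have h2 := congrArg dec h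
    rw [dec_enc, dec_enc] at h2
    exact ⟨congrArg V4.x h2, congrArg V4.y h2, congrArg V4.z h2, congrArg V4.w h2⟩
  · rintro ⟨h1, h2, h3, h4⟩
    apply Fin.ext
    unfold enc
    dsimp only
    rw [h1, h2, h3, h4]

end V4

open V4

/-- the section of a pair of affine maps at a letter -/
def sec (g : AA) (x : Fin 16) : AA :=
  (⟨g.1.a, g.1.b, g.1.c, g.1.d, (half (ap g (dec x))).x, (half (ap g (dec x))).y, g.1.det⟩,
   ⟨g.2.a, g.2.b, g.2.c, g.2.d, (half (ap g (dec x))).z, (half (ap g (dec x))).w, g.2.det⟩)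

/-- the action on words -/
def tw : AA → List (Fin 16) → List (Fin 16)
  | _, [] => []
  | g, x :: w => enc (ap g (dec x)) :: tw (sec g x) w

theorem enc_mul (g h : AA) (x : Fin 16) :
    enc (ap (g * h) (dec x)) = enc (ap g (dec (enc (ap h (dec x))))) := by
  rw [enc_eq_iff, dec_enc]
  obtain ⟨g1, g2⟩ := g
  obtain ⟨h1, h2⟩ := h
  generalize dec x = v
  simp only [ap, Prod.mk_mul_mk, mul_a, mul_b, mul_c, mul_d, mul_s, mul_t]
  refine ⟨?_, ?_, ?_, ?_⟩
  · generalize hp : h1.a * v.x + h1.b * v.y + h1.s = p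
    generalize hq : h1.c * v.x + h1.d * v.y + h1.t = q
    have e : (g1.a * h1.a + g1.b * h1.c) * v.x + (g1.a * h1.b + g1.b * h1.d) * v.y +
        (g1.a * h1.s + g1.b * h1.t + g1.s) = g1.a * (p % 2) + g1.b * (q % 2) + g1.s +
        2 * (g1.a * (p / 2) + g1.b * (q / 2)) := by
      have hp2 := Int.emod_add_mul_ediv p 2
      have hq2 := Int.emod_add_mul_ediv q 2
      rw [← hp] at hp2 ⊢
      rw [← hq] at hq2 ⊢
      linear_combination -g1.a * hp2 - g1.b * hq2
    rw [e]
    omega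
  · generalize hp : h1.a * v.x + h1.b * v.y + h1.s = p
    generalize hq : h1.c * v.x + h1.d * v.y + h1.t = q
    have e : (g1.c * h1.a + g1.d * h1.c) * v.x + (g1.c * h1.b + g1.d * h1.d) * v.y +
        (g1.c * h1.s + g1.d * h1.t + g1.t) = g1.c * (p % 2) + g1.d * (q % 2) + g1.t +
        2 * (g1.c * (p / 2) + g1.d * (q / 2)) := by
      have hp2 := Int.emod_add_mul_ediv p 2
      have hq2 := Int.emod_add_mul_ediv q 2
      rw [← hp] at hp2 ⊢
      rw [← hq] at hq2 ⊢
      linear_combination -g1.c * hp2 - g1.d * hq2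
    rw [e]
    omega
  · generalize hp : h2.a * v.z + h2.b * v.w + h2.s = p
    generalize hq : h2.c * v.z + h2.d * v.w + h2.t = q
    have e : (g2.a * h2.a + g2.b * h2.c) * v.z + (g2.a * h2.b + g2.b * h2.d) * v.w +
        (g2.a * h2.s + g2.b * h2.t + g2.s) = g2.a * (p % 2) + g2.b * (q % 2) + g2.s +
        2 * (g2.a * (p / 2) + g2.b * (q / 2)) := by
      have hp2 := Int.emod_add_mul_ediv p 2
      have hq2 := Int.emod_add_mul_ediv q 2
      rw [← hp] at hp2 ⊢
      rw [← hq] at hq2 ⊢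
      linear_combination -g2.a * hp2 - g2.b * hq2
    rw [e]
    omega
  · generalize hp : h2.a * v.z + h2.b * v.w + h2.s = p
    generalize hq : h2.c * v.z + h2.d * v.w + h2.t = q
    have e : (g2.c * h2.a + g2.d * h2.c) * v.z + (g2.c * h2.b + g2.d * h2.d) * v.w +
        (g2.c * h2.s + g2.d * h2.t + g2.t) = g2.c * (p % 2) + g2.d * (q % 2) + g2.t +
        2 * (g2.c * (p / 2) + g2.d * (q / 2)) := by
      have hp2 := Int.emod_add_mul_ediv p 2
      have hq2 := Int.emod_add_mul_ediv q 2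
      rw [← hp] at hp2 ⊢
      rw [← hq] at hq2 ⊢
      linear_combination -g2.c * hp2 - g2.d * hq2
    rw [e]
    omega

/-- one coordinate of the cocycle rule -/
theorem half_aux (a b s p q : ℤ) (v : ℤ) (hv : v = a * p + b * q + s) :
    v / 2 = a * (p / 2) + b * (q / 2) + (a * (p % 2) + b * (q % 2) + s) / 2 := by
  have hp2 := Int.emod_add_mul_ediv p 2
  have hq2 := Int.emod_add_mul_ediv q 2
  have e : v = (a * (p % 2) + b * (q % 2) + s) + 2 * (a * (p / 2) + b * (q / 2)) := by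
    rw [hv]
    linear_combination -a * hp2 - b * hq2
  rw [e]
  omega

theorem sec_mul (g h : AA) (x : Fin 16) :
    sec (g * h) x = sec g (enc (ap h (dec x))) * sec h x := by
  obtain ⟨g1, g2⟩ := g
  obtain ⟨h1, h2⟩ := h
  unfold sec
  rw [dec_enc]
  generalize dec x = v
  apply Prod.ext
  · ext
    · simp
    · simp
    · simp
    · simp
    · simp only [ap, half, Prod.mk_mul_mk, mul_a, mul_b, mul_c, mul_d, mul_s, mul_t]
      exact half_aux _ _ _ _ _ _ (by ring)
    · simp only [ap, half, Prod.mk_mul_mk, mul_a, mul_b, mul_c, mul_d, mul_s, mul_t]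
      exact half_aux _ _ _ _ _ _ (by ring)
  · ext
    · simp
    · simp
    · simp
    · simp
    · simp only [ap, half, Prod.mk_mul_mk, mul_a, mul_b, mul_c, mul_d, mul_s, mul_t]
      exact half_aux _ _ _ _ _ _ (by ring)
    · simp only [ap, half, Prod.mk_mul_mk, mul_a, mul_b, mul_c, mul_d, mul_s, mul_t]
      exact half_aux _ _ _ _ _ _ (by ring)

theorem tw_mul (g h : AA) (w : List (Fin 16)) : tw (g * h) w = tw g (tw h w) := by
  induction w generalizing g h with
  | nil => rfl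
  | cons x w ih =>
    simp only [tw]
    rw [sec_mul, ih, enc_mul]

theorem ap_one (v : V4) : ap 1 v = v := by
  ext <;> simp [ap]

theorem sec_one (x : Fin 16) : sec 1 x = 1 := by
  unfold sec
  rw [ap_one]
  have h1 : half (dec x) = ⟨0, 0, 0, 0⟩ := by
    unfold half dec
    ext <;> dsimp only <;> omega
  rw [h1]
  rfl

theorem tw_one (w : List (Fin 16)) : tw 1 w = w := by
  induction w with
  | nil => rfl
  | cons x w ih =>
    simp only [tw]
    rw [sec_one, ih, ap_one, enc_dec]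

/-- the action as a homomorphism -/
def rho : AA →* Equiv.Perm (List (Fin 16)) where
  toFun g := ⟨tw g, tw g⁻¹, fun w => by rw [← tw_mul, inv_mul_cancel, tw_one],
    fun w => by rw [← tw_mul, mul_inv_cancel, tw_one]⟩
  map_one' := by
    ext1 w
    exact tw_one w
  map_mul' g h := by
    ext1 w
    exact tw_mul g h w

theorem rho_apply (g : AA) (w : List (Fin 16)) : rho g w = tw g w := rfl

/-! ### faithfulness -/

/-- acts trivially -/
def Tr (g : AA) : Prop := ∀ w, tw g w = w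

theorem Tr.encT {g : AA} (h : Tr g) (x : Fin 16) : enc (ap g (dec x)) = x := by
  have := h [x]
  simp only [tw, List.cons.injEq, and_true] at this
  exact this

theorem Tr.secT {g : AA} (h : Tr g) (x : Fin 16) : Tr (sec g x) := by
  intro w
  have := h (x :: w)
  simp only [tw, List.cons.injEq] at this
  exact this.2

theorem dec_zero : dec 0 = ⟨0, 0, 0, 0⟩ := by
  unfold dec
  ext <;> simp

theorem ap_zero (g : AA) : ap g (dec 0) = ⟨g.1.s, g.1.t, g.2.s, g.2.t⟩ := by
  rw [dec_zero]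
  ext <;> simp [ap]

theorem Tr.zero {g : AA} (h : Tr g) :
    g.1.s = 0 ∧ g.1.t = 0 ∧ g.2.s = 0 ∧ g.2.t = 0 := by
  suffices H : ∀ n : ℕ, ∀ g : AA, Tr g →
      g.1.s.natAbs + g.1.t.natAbs + g.2.s.natAbs + g.2.t.natAbs ≤ n →
      g.1.s = 0 ∧ g.1.t = 0 ∧ g.2.s = 0 ∧ g.2.t = 0 from H _ g h le_rfl
  intro n
  induction n with
  | zero =>
    intro g _ hn
    omega
  | succ n ih =>
    intro g hg hn
    have h1 : V4.enc (ap g (dec 0)) = V4.enc (dec 0) := by
      rw [enc_dec]
      exact hg.encT 0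
    rw [enc_eq_iff, ap_zero, dec_zero] at h1
    dsimp only at h1
    by_cases h0 : g.1.s = 0 ∧ g.1.t = 0 ∧ g.2.s = 0 ∧ g.2.t = 0
    · exact h0
    · have h2 := ih (sec g 0) (hg.secT 0) (by
        unfold Pool.Agent.Run7.h447.sec half
        rw [ap_zero]
        dsimp only
        omega)
      unfold Pool.Agent.Run7.h447.sec half at h2
      rw [ap_zero] at h2
      dsimp only at h2
      omega

theorem Tr.ap_dec {g : AA} (h : Tr g) (x : Fin 16) : ap g (dec x) = dec x := by
  have h1 := (h.secT x).zero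
  have h2 : V4.enc (ap g (dec x)) = V4.enc (dec x) := by
    rw [enc_dec]
    exact h.encT x
  rw [enc_eq_iff] at h2
  unfold Pool.Agent.Run7.h447.sec half at h1
  dsimp only at h1
  generalize ap g (dec x) = v at h1 h2
  have h3 : ∀ x : Fin 16, (dec x).x % 2 = (dec x).x ∧ (dec x).y % 2 = (dec x).y ∧
      (dec x).z % 2 = (dec x).z ∧ (dec x).w % 2 = (dec x).w := by
    intro x
    unfold dec
    dsimp only
    omega
  have h4 := h3 x
  apply V4.ext <;> omega

theorem dec_one : dec 1 = ⟨1, 0, 0, 0⟩ := by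
  unfold dec
  ext <;> simp
theorem dec_two : dec 2 = ⟨0, 1, 0, 0⟩ := by
  unfold dec
  ext <;> simp
theorem dec_four : dec 4 = ⟨0, 0, 1, 0⟩ := by
  unfold dec
  ext <;> simp
theorem dec_eight : dec 8 = ⟨0, 0, 0, 1⟩ := by
  unfold dec
  ext <;> simp

theorem Tr.eq_one {g : AA} (h : Tr g) : g = 1 := by
  obtain ⟨h1, h2, h3, h4⟩ := h.zero
  have e1 := h.ap_dec 1
  have e2 := h.ap_dec 2
  have e4 := h.ap_dec 4
  have e8 := h.ap_dec 8
  rw [dec_one] at e1
  rw [dec_two] at e2
  rw [dec_four] at e4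
  rw [dec_eight] at e8
  simp only [ap, V4.mk.injEq, h1, h2, h3, h4] at e1 e2 e4 e8
  apply Prod.ext
  · ext <;> simp <;> omega
  · ext <;> simp <;> omega

theorem rho_injective : Function.Injective rho := by
  rw [injective_iff_map_eq_one]
  intro g hg
  apply Tr.eq_one
  intro w
  have := congrArg (fun e : Equiv.Perm (List (Fin 16)) => e w) hg
  exact this

end Pool.Agent.Run7.h447
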